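import Pool.Agent.TH77.Minimal

/-!
Surjectivity of the exponential map of compact connected linear groups.
-/

set_option autoImplicit false
set_option linter.unusedSectionVars false

open Filter Topology Metric Set
open scoped RealInnerProductSpace

namespace Pool.Agent.TH77.AN

open Pool.Agent.TH77.Br

variable {V : Type*} [NormedAddCommGroup V] [InnerProductSpace ℝ V] [FiniteDimensional ℝ V]

lemma tr_inner {n : ℕ} (u : OrthonormalBasis (Fin n) ℝ V) (A : V →L[ℝ] V) :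
    tr A = ∑ a, ⟪u a, A (u a)⟫ := by
  rw [tr_apply, LinearMap.trace_eq_sum_inner (A : V →ₗ[ℝ] V) u]
  rfl

/-- The energy of an element. -/
noncomputable def en (g : (V →L[ℝ] V)ˣ) : ℝ := tr (1 - (g : V →L[ℝ] V))

lemma continuous_en : Continuous (en : (V →L[ℝ] V)ˣ → ℝ) :=
  continuous_tr.comp (continuous_const.sub Units.continuous_val)

lemma en_eq {n : ℕ} (u : OrthonormalBasis (Fin n) ℝ V) {g : (V →L[ℝ] V)ˣ} (hg : g ∈ orthG V) :
    en g = ∑ a, ‖(g : V →L[ℝ] V) (u a) - u a‖ ^ 2 / 2 := by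
  rw [en, tr_inner u]
  refine Finset.sum_congr rfl fun a _ => ?_
  rw [@norm_sub_sq_real, hg, sub_apply, inner_sub_right]
  have h1 : ⟪u a, (1 : V →L[ℝ] V) (u a)⟫ = ‖u a‖ ^ 2 := real_inner_self_eq_norm_sq _
  have h2 : ‖u a‖ = 1 := u.orthonormal.1 a
  have h3 : ⟪(g : V →L[ℝ] V) (u a), u a⟫ = ⟪u a, (g : V →L[ℝ] V) (u a)⟫ := real_inner_comm _ _
  rw [h1, h2, h3]; ring

lemma en_nonneg {g : (V →L[ℝ] V)ˣ} (hg : g ∈ orthG V) : 0 ≤ en g := by
  rw [en_eq (stdOrthonormalBasis ℝ V) hg]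
  positivity

lemma en_eq_zero {g : (V →L[ℝ] V)ˣ} (hg : g ∈ orthG V) (h : en g = 0) : g = 1 := by
  rw [en_eq (stdOrthonormalBasis ℝ V) hg, Finset.sum_eq_zero_iff_of_nonneg (fun _ _ => by positivity)]
    at h
  ext x
  have h1 : ∀ a, (g : V →L[ℝ] V) (stdOrthonormalBasis ℝ V a) = stdOrthonormalBasis ℝ V a := by
    intro a
    have h2 := h a (Finset.mem_univ a)
    have h3 : ‖(g : V →L[ℝ] V) (stdOrthonormalBasis ℝ V a) - stdOrthonormalBasis ℝ V a‖ = 0 := by
      have h4 : ‖(g : V →L[ℝ] V) (stdOrthonormalBasis ℝ V a) - stdOrthonormalBasis ℝ V a‖ ^ 2 = 0 := by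
        linarith
      exact pow_eq_zero_iff (two_ne_zero) |>.1 h4
    exact sub_eq_zero.1 (norm_eq_zero.1 h3)
  have h2 : ((g : V →L[ℝ] V) : V →ₗ[ℝ] V) = LinearMap.id :=
    (stdOrthonormalBasis ℝ V).toBasis.ext fun a => by
      rw [OrthonormalBasis.coe_toBasis]; exact h1 a
  exact LinearMap.congr_fun h2 x

lemma en_small (W : Set (V →L[ℝ] V)ˣ) (hW : W ∈ 𝓝 (1 : (V →L[ℝ] V)ˣ)) :
    ∃ ε > 0, ∀ g ∈ orthG V, en g < ε → g ∈ W := by
  obtain ⟨W', hW'W, hW'o, hW'1⟩ := mem_nhds_iff.1 hW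
  have hc : IsCompact ((orthG V : Set (V →L[ℝ] V)ˣ) \ W') := isCompact_orthG.diff hW'o
  rcases ((orthG V : Set (V →L[ℝ] V)ˣ) \ W').eq_empty_or_nonempty with h | h
  · refine ⟨1, one_pos, fun g hg _ => hW'W ?_⟩
    by_contra hcon
    exact (h ▸ ⟨hg, hcon⟩ : g ∈ (∅ : Set _))
  · obtain ⟨g₀, hg₀, hmin⟩ := hc.exists_isMinOn h continuous_en.continuousOn
    have hpos : 0 < en g₀ := by
      refine lt_of_le_of_ne (en_nonneg hg₀.1) fun h0 => hg₀.2 ?_
      rw [en_eq_zero hg₀.1 h0.symm]; exact hW'1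
    refine ⟨en g₀, hpos, fun g hg hlt => hW'W ?_⟩
    by_contra hcon
    exact absurd (hmin ⟨hg, hcon⟩) (not_le.2 hlt)

section M

variable {M : Subgroup (V →L[ℝ] V)ˣ} (hM : IsClosed (M : Set (V →L[ℝ] V)ˣ)) (hMo : M ≤ orthG V)

include hMo in
lemma skew_of {Z : V →L[ℝ] V} (hZ : Z ∈ (LG.units (V →L[ℝ] V)).lie M hM) (x y : V) :
    ⟪Z x, y⟫ = - ⟪x, Z y⟫ := by
  have h1 : ∀ t : ℝ, ⟪NormedSpace.exp (t • Z) x, NormedSpace.exp (t • Z) y⟫ = ⟪x, y⟫ := by
    intro t
    exact inner_of_norm (hMo (hZ t)) x y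
  have h2 := (LG.op_hasDerivAt Z x).inner ℝ (LG.op_hasDerivAt Z y)
  simp only [h1] at h2
  have h3 := h2.unique (hasDerivAt_const (0 : ℝ) ⟪x, y⟫)
  simp only [zero_smul, NormedSpace.exp_zero] at h3
  have h4 : ⟪(1 : V →L[ℝ] V) x, Z y⟫ + ⟪Z x, (1 : V →L[ℝ] V) y⟫ = 0 := h3
  have h5 : ⟪x, Z y⟫ + ⟪Z x, y⟫ = 0 := h4
  linarith

include hMo in
lemma tr_skew {Z : V →L[ℝ] V} (hZ : Z ∈ (LG.units (V →L[ℝ] V)).lie M hM) : tr Z = 0 := by
  rw [tr_inner (stdOrthonormalBasis ℝ V)]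
  refine Finset.sum_eq_zero fun a _ => ?_
  have h1 := skew_of hM hMo hZ (stdOrthonormalBasis ℝ V a) (stdOrthonormalBasis ℝ V a)
  rw [real_inner_comm] at h1
  linarith

include hMo in
lemma tr_sq {Z : V →L[ℝ] V} (hZ : Z ∈ (LG.units (V →L[ℝ] V)).lie M hM) (h : tr (Z * Z) = 0) :
    Z = 0 := by
  have h1 : tr (Z * Z) = - ∑ a, ‖Z (stdOrthonormalBasis ℝ V a)‖ ^ 2 := by
    rw [tr_inner (stdOrthonormalBasis ℝ V), ← Finset.sum_neg_distrib]
    refine Finset.sum_congr rfl fun a _ => ?_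
    have h2 := skew_of hM hMo hZ (stdOrthonormalBasis ℝ V a) (Z (stdOrthonormalBasis ℝ V a))
    rw [real_inner_self_eq_norm_sq] at h2
    rw [mul_apply_eq_comp]
    linarith
  rw [h1, neg_eq_zero, Finset.sum_eq_zero_iff_of_nonneg (fun _ _ => by positivity)] at h
  have h2 : (Z : V →ₗ[ℝ] V) = 0 :=
    (stdOrthonormalBasis ℝ V).toBasis.ext fun a => by
      rw [OrthonormalBasis.coe_toBasis]
      have h3 := h a (Finset.mem_univ a)
      exact norm_eq_zero.1 (pow_eq_zero_iff two_ne_zero |>.1 h3)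
  ext x
  exact LinearMap.congr_fun h2 x

/-- products and energies of lists of length `N` -/
def Pn (M : Subgroup (V →L[ℝ] V)ˣ) : ℕ → Set ((V →L[ℝ] V)ˣ × ℝ)
  | 0 => {(1, 0)}
  | N + 1 => (fun p : (V →L[ℝ] V)ˣ × ((V →L[ℝ] V)ˣ × ℝ) => (p.1 * p.2.1, en p.1 + p.2.2)) ''
      ((M : Set (V →L[ℝ] V)ˣ) ×ˢ Pn M N)

lemma isCompact_Pn (hMc : IsCompact (M : Set (V →L[ℝ] V)ˣ)) (N : ℕ) : IsCompact (Pn M N) := by
  induction N with
  | zero => exact isCompact_singleton
  | succ N ih =>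
    refine (hMc.prod ih).image ?_
    have := continuous_en (V := V)
    fun_prop

lemma mem_Pn (N : ℕ) (g : (V →L[ℝ] V)ˣ) (e : ℝ) : (g, e) ∈ Pn M N ↔
    ∃ l : List (V →L[ℝ] V)ˣ, l.length = N ∧ (∀ a ∈ l, a ∈ M) ∧ l.prod = g ∧ (l.map en).sum = e := by
  induction N generalizing g e with
  | zero =>
    constructor
    · intro h
      have h' : (g, e) = (1, 0) := h
      rw [Prod.mk.injEq] at h'
      exact ⟨[], rfl, by simp, by simp [h'.1], by simp [h'.2]⟩
    · rintro ⟨l, hl, -, rfl, rfl⟩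
      rw [List.length_eq_zero_iff.1 hl]
      rfl
  | succ N ih =>
    constructor
    · rintro ⟨⟨a, g', e'⟩, ⟨ha, hg'⟩, h⟩
      obtain ⟨l, hl, hlM, hlp, hle⟩ := (ih g' e').1 hg'
      simp only [Prod.mk.injEq] at h
      refine ⟨a :: l, by simp [hl], ?_, ?_, ?_⟩
      · intro b hb
        rcases List.mem_cons.1 hb with rfl | hb
        · exact ha
        · exact hlM b hb
      · rw [List.prod_cons, hlp, h.1]
      · rw [List.map_cons, List.sum_cons, hle, h.2]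
    · rintro ⟨l, hl, hlM, rfl, rfl⟩
      obtain ⟨a, l', rfl⟩ := List.exists_cons_of_length_eq_add_one hl
      refine ⟨(a, (l'.prod, (l'.map en).sum)), ⟨hlM a (by simp), (ih _ _).2 ⟨l', by simpa using hl,
        fun b hb => hlM b (by simp [hb]), rfl, rfl⟩⟩, ?_⟩
      simp

include hMo in
lemma low_energy {k : (V →L[ℝ] V)ˣ} (hk : k ∈ (LG.units (V →L[ℝ] V)).gen
    ((LG.units (V →L[ℝ] V)).lie M hM)) : ∀ ε > 0, ∃ l : List (V →L[ℝ] V)ˣ, (∀ a ∈ l, a ∈ M) ∧
    l.prod = k ∧ (l.map en).sum < ε := by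
  set L := LG.units (V →L[ℝ] V) with hL
  refine L.gen_induction (m := (L.lie M hM : Set (V →L[ℝ] V)))
    (P := fun k => ∀ ε > 0, ∃ l : List (V →L[ℝ] V)ˣ, (∀ a ∈ l, a ∈ M) ∧
      l.prod = k ∧ (l.map en).sum < ε) (fun x hx => (L.lie M hM).neg_mem hx) ?_ ?_ hk
  · intro ε hε
    exact ⟨[], by simp, by simp, by simpa using hε⟩
  · intro X hX g hg ε hε
    obtain ⟨l, hlM, hlp, hle⟩ := hg (ε / 2) (by positivity)
    have hder : HasDerivAt (fun t : ℝ => en (L.exp (t • X))) 0 0 := by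
      have h1 : HasDerivAt (fun t : ℝ => NormedSpace.exp (t • X)) (NormedSpace.exp ((0 : ℝ) • X) * X) 0 :=
        hasDerivAt_exp_smul_const X 0
      rw [zero_smul, NormedSpace.exp_zero, one_mul] at h1
      have h2 := (h1.const_sub (1 : V →L[ℝ] V))
      have h3 := ((LinearMap.toContinuousLinearMap (tr (V := V))).hasFDerivAt
        (x := 1 - NormedSpace.exp ((0 : ℝ) • X))).comp_hasDerivAt (0 : ℝ) h2
      have h4 : (LinearMap.toContinuousLinearMap (tr (V := V))) (-X) = 0 := by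
        change tr (-X) = 0
        rw [map_neg, tr_skew hM hMo hX, neg_zero]
      rw [h4] at h3
      exact h3
    have h0 : en (L.exp (0 : V →L[ℝ] V)) = 0 := by
      rw [L.exp_zero, en, Units.val_one, sub_self, map_zero]
    have htend : Tendsto (fun t : ℝ => t⁻¹ • en (L.exp (t • X))) (𝓝[≠] 0) (𝓝 0) := by
      have := hasDerivAt_iff_tendsto_slope_zero.1 hder
      simpa [h0] using this
    have hseq : Tendsto (fun n : ℕ => 1 / ((n : ℝ) + 1)) atTop (𝓝[≠] 0) := by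
      rw [tendsto_nhdsWithin_iff]
      exact ⟨tendsto_one_div_add_atTop_nhds_zero_nat, Eventually.of_forall fun n => by
        have : (0 : ℝ) < 1 / ((n : ℝ) + 1) := by positivity
        exact this.ne'⟩
    obtain ⟨n, hn⟩ := ((htend.comp hseq).eventually (gt_mem_nhds (half_pos hε))).exists
    refine ⟨List.replicate (n + 1) (L.exp ((1 / ((n : ℝ) + 1)) • X)) ++ l, ?_, ?_, ?_⟩
    · intro a ha
      rcases List.mem_append.1 ha with ha | ha
      · rw [List.eq_of_mem_replicate ha]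
        exact hX _
      · exact hlM a ha
    · rw [List.prod_append, List.prod_replicate, hlp, ← L.exp_nsmul]
      congr 2
      rw [← Nat.cast_smul_eq_nsmul ℝ, smul_smul]
      push_cast
      rw [mul_one_div_cancel (by positivity), one_smul]
    · rw [List.map_append, List.sum_append, List.map_replicate, List.sum_replicate]
      have h1 : (n + 1) • en (L.exp ((1 / ((n : ℝ) + 1)) • X)) < ε / 2 := by
        rw [← Nat.cast_smul_eq_nsmul ℝ]
        have h2 : (1 / ((n : ℝ) + 1))⁻¹ • en (L.exp ((1 / ((n : ℝ) + 1)) • X)) < ε / 2 := hn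
        rw [one_div, inv_inv] at h2
        rw [one_div]
        push_cast
        exact h2
      linarith

/-- Equality of neighbouring elements of a minimal list. -/
lemma eq_of_min {a b : (V →L[ℝ] V)ˣ}
    (hmin : ∀ Z ∈ (LG.units (V →L[ℝ] V)).lie M hM, ∀ t : ℝ,
      en a + en b ≤ en (a * (LG.units (V →L[ℝ] V)).exp (t • Z)) +
        en ((LG.units (V →L[ℝ] V)).exp (-(t • Z)) * b))
    (Z : V →L[ℝ] V) (hZ : Z ∈ (LG.units (V →L[ℝ] V)).lie M hM) :
    tr ((a : V →L[ℝ] V) * Z) = tr ((b : V →L[ℝ] V) * Z) := by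
  set L := LG.units (V →L[ℝ] V) with hL
  let F : ℝ → ℝ := fun t => en (a * L.exp (t • Z)) + en (L.exp (-(t • Z)) * b)
  have h1 : HasDerivAt (fun t : ℝ => NormedSpace.exp (t • Z)) Z 0 := by
    have h1 : HasDerivAt (fun t : ℝ => NormedSpace.exp (t • Z)) (NormedSpace.exp ((0 : ℝ) • Z) * Z) 0 :=
      hasDerivAt_exp_smul_const Z 0
    rwa [zero_smul, NormedSpace.exp_zero, one_mul] at h1
  have h2 : HasDerivAt (fun t : ℝ => NormedSpace.exp (-(t • Z))) (-Z) 0 := by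
    have h1 : HasDerivAt (fun t : ℝ => NormedSpace.exp (t • (-Z))) (NormedSpace.exp ((0 : ℝ) • (-Z)) * (-Z)) 0 :=
      hasDerivAt_exp_smul_const (-Z) 0
    rw [zero_smul, NormedSpace.exp_zero, one_mul] at h1
    simpa only [smul_neg] using h1
  have hF : HasDerivAt F (-tr ((a : V →L[ℝ] V) * Z) + tr (Z * (b : V →L[ℝ] V))) 0 := by
    have e1 : HasDerivAt (fun t : ℝ => (1 : V →L[ℝ] V) - (a : V →L[ℝ] V) * NormedSpace.exp (t • Z))
        (-((a : V →L[ℝ] V) * Z)) 0 := (h1.const_mul (a : V →L[ℝ] V)).const_sub 1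
    have e2 : HasDerivAt (fun t : ℝ => (1 : V →L[ℝ] V) - NormedSpace.exp (-(t • Z)) * (b : V →L[ℝ] V))
        (-((-Z) * (b : V →L[ℝ] V))) 0 := (h2.mul_const (b : V →L[ℝ] V)).const_sub 1
    have e3 := ((LinearMap.toContinuousLinearMap (tr (V := V))).hasFDerivAt
        (x := 1 - (a : V →L[ℝ] V) * NormedSpace.exp ((0 : ℝ) • Z))).comp_hasDerivAt (0 : ℝ) e1
    have e4 := ((LinearMap.toContinuousLinearMap (tr (V := V))).hasFDerivAt
        (x := 1 - NormedSpace.exp (-((0 : ℝ) • Z)) * (b : V →L[ℝ] V))).comp_hasDerivAt (0 : ℝ) e2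
    have e5 := e3.add e4
    have e6 : (LinearMap.toContinuousLinearMap (tr (V := V))) (-((a : V →L[ℝ] V) * Z)) +
        (LinearMap.toContinuousLinearMap (tr (V := V))) (-((-Z) * (b : V →L[ℝ] V))) =
        -tr ((a : V →L[ℝ] V) * Z) + tr (Z * (b : V →L[ℝ] V)) := by
      change tr (-((a : V →L[ℝ] V) * Z)) + tr (-((-Z) * (b : V →L[ℝ] V))) = _
      rw [neg_mul, neg_neg, map_neg]
    rw [e6] at e5
    exact e5
  have hF0 : IsLocalMin F 0 := by
    refine Eventually.of_forall fun t => ?_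
    have h3 : F 0 = en a + en b := by
      simp only [F, zero_smul, neg_zero, L.exp_zero, mul_one, one_mul]
    rw [h3]
    exact hmin Z hZ t
  have h4 := hF0.hasDerivAt_eq_zero hF
  rw [tr_mul_comm Z] at h4
  linarith

include hMo in
lemma exists_inj : ∃ r > 0, ∀ X ∈ (LG.units (V →L[ℝ] V)).lie M hM,
    ∀ Y ∈ (LG.units (V →L[ℝ] V)).lie M hM, ‖X‖ < r → ‖Y‖ < r →
    (∀ Z ∈ (LG.units (V →L[ℝ] V)).lie M hM,
      tr (NormedSpace.exp X * Z) = tr (NormedSpace.exp Y * Z)) → X = Y := by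
  set 𝔪 := (LG.units (V →L[ℝ] V)).lie M hM with h𝔪
  let b := Module.finBasis ℝ 𝔪
  let T : (V →L[ℝ] V) →ₗ[ℝ] (Fin (Module.finrank ℝ 𝔪) → ℝ) :=
    LinearMap.pi fun i => tr ∘ₗ LinearMap.mulRight ℝ (b i : V →L[ℝ] V)
  have hT : ∀ A i, T A i = tr (A * (b i : V →L[ℝ] V)) := fun _ _ => rfl
  let B : 𝔪 →ₗ[ℝ] (Fin (Module.finrank ℝ 𝔪) → ℝ) := T ∘ₗ 𝔪.subtype
  have hB : LinearMap.ker B = ⊥ := by
    rw [LinearMap.ker_eq_bot']
    intro X hX
    have h1 : ∀ Z : 𝔪, tr ((X : V →L[ℝ] V) * (Z : V →L[ℝ] V)) = 0 := by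
      intro Z
      have h2 : (Z : V →L[ℝ] V) = ∑ i, b.repr Z i • (b i : V →L[ℝ] V) := by
        have h3 := congrArg 𝔪.subtype (b.sum_repr Z)
        simp only [map_sum, map_smul, Submodule.subtype_apply] at h3
        exact h3.symm
      rw [h2, Finset.mul_sum, map_sum]
      refine Finset.sum_eq_zero fun i _ => ?_
      rw [mul_smul_comm, map_smul, ← hT]
      have h3 : T X = 0 := hX
      rw [h3]; simp
    exact Subtype.ext (tr_sq hM hMo X.2 (h1 X))
  obtain ⟨c, hc, hanti⟩ := LinearMap.exists_antilipschitzWith B hB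
  have hstr : HasStrictFDerivAt (fun A : V →L[ℝ] V => T (NormedSpace.exp A))
      ((LinearMap.toContinuousLinearMap T).comp (1 : (V →L[ℝ] V) →L[ℝ] (V →L[ℝ] V))) 0 := by
    have h1 : HasStrictFDerivAt (LinearMap.toContinuousLinearMap T) (LinearMap.toContinuousLinearMap T)
      (NormedSpace.exp (0 : V →L[ℝ] V)) := ContinuousLinearMap.hasStrictFDerivAt _
    exact h1.comp (0 : V →L[ℝ] V) expR_deriv
  have hc' : (0 : ℝ) < c := hc
  have hlo := hstr.isLittleO.def (c := 1 / (2 * (c : ℝ))) (by positivity)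
  obtain ⟨r, hr, hball⟩ := Metric.eventually_nhds_iff.1 hlo
  refine ⟨r, hr, fun X hX Y hY hXr hYr hXY => ?_⟩
  have h1 : T (NormedSpace.exp X) = T (NormedSpace.exp Y) := by
    funext i
    rw [hT, hT]
    exact hXY _ (b i).2
  have h2 := hball (y := (X, Y)) (by
    rw [dist_eq_norm, Prod.norm_def]
    exact max_lt (by simpa using hXr) (by simpa using hYr))
  simp only [h1, sub_self, zero_sub, norm_neg] at h2
  have h3 : ‖T (X - Y)‖ ≤ 1 / (2 * (c : ℝ)) * ‖X - Y‖ := h2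
  have h4 := hanti.le_mul_dist (⟨X, hX⟩ : 𝔪) (⟨Y, hY⟩ : 𝔪)
  rw [dist_eq_norm, dist_eq_norm, ← map_sub] at h4
  have h5 : ‖X - Y‖ ≤ c * ‖T (X - Y)‖ := h4
  have h6 : ‖X - Y‖ ≤ 1 / 2 * ‖X - Y‖ := by
    calc ‖X - Y‖ ≤ c * ‖T (X - Y)‖ := h5
      _ ≤ c * (1 / (2 * (c : ℝ)) * ‖X - Y‖) := by gcongr
      _ = 1 / 2 * ‖X - Y‖ := by field_simp
  have h7 : ‖X - Y‖ = 0 := le_antisymm (by linarith) (norm_nonneg _)
  exact sub_eq_zero.1 (norm_eq_zero.1 h7)

omit [FiniteDimensional ℝ V] in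
lemma list_const {α : Type*} (l : List α)
    (h : ∀ (l₁ l₂ : List α) (a b : α), l = l₁ ++ a :: b :: l₂ → a = b) :
    l = [] ∨ ∃ a, l = List.replicate l.length a := by
  induction l with
  | nil => exact Or.inl rfl
  | cons a l ih =>
    right
    rcases ih (fun l₁ l₂ c d h' => h (a :: l₁) l₂ c d (by rw [h']; rfl)) with h1 | ⟨b, h1⟩
    · exact ⟨a, by rw [h1]; rfl⟩
    · cases l with
      | nil => exact ⟨a, rfl⟩
      | cons c l' =>
        have h2 : a = c := h [] l' a c rfl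
        have h3 : c = b := by
          have h4 : c ∈ List.replicate (c :: l').length b := by rw [← h1]; simp
          exact List.eq_of_mem_replicate h4
        refine ⟨a, ?_⟩
        rw [List.length_cons, List.replicate_succ, h2, h3]
        rw [h3] at h1
        congr 1

/-- The exponential map of a compact connected linear group is surjective. -/
theorem compact_exp {k : (V →L[ℝ] V)ˣ} (hMo : M ≤ orthG V)
    (hk : k ∈ (LG.units (V →L[ℝ] V)).gen
    ((LG.units (V →L[ℝ] V)).lie M hM)) : ∃ Z ∈ (LG.units (V →L[ℝ] V)).lie M hM, expU Z = k := by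
  set L := LG.units (V →L[ℝ] V) with hL
  have hMc : IsCompact (M : Set (V →L[ℝ] V)ˣ) := isCompact_orthG.of_isClosed_subset hM hMo
  obtain ⟨r₁, hr₁, hinj⟩ := exists_inj hM hMo
  obtain ⟨r₂, hr₂, hlie⟩ := L.exists_ball_mem_lie M hM
  obtain ⟨ε, hε, hsmall⟩ := en_small _ (L.image_ball_mem (lt_min hr₁ hr₂))
  obtain ⟨l₀, hl₀M, hl₀p, hl₀e⟩ := low_energy hM hMo hk ε hε
  set N := l₀.length with hN
  have hQ : IsCompact {e : ℝ | (k, e) ∈ Pn M N} := by
    have h1 : {e : ℝ | (k, e) ∈ Pn M N} = Prod.snd '' (Pn M N ∩ {p | p.1 = k}) := by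
      ext e
      constructor
      · intro he; exact ⟨(k, e), ⟨he, rfl⟩, rfl⟩
      · rintro ⟨⟨k', e'⟩, ⟨he, rfl⟩, rfl⟩; exact he
    rw [h1]
    exact ((isCompact_Pn hMc N).inter_right (isClosed_eq continuous_fst continuous_const)).image
      continuous_snd
  have hQne : {e : ℝ | (k, e) ∈ Pn M N}.Nonempty :=
    ⟨_, (mem_Pn N k _).2 ⟨l₀, rfl, hl₀M, hl₀p, rfl⟩⟩
  obtain ⟨e, he, hemin⟩ := hQ.exists_isLeast hQne
  obtain ⟨l, hlN, hlM, hlp, hle⟩ := (mem_Pn N k e).1 he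
  have hle' : (l.map en).sum < ε := by
    rw [hle]
    exact lt_of_le_of_lt (hemin ((mem_Pn N k _).2 ⟨l₀, rfl, hl₀M, hl₀p, rfl⟩)) hl₀e
  have hentry : ∀ a ∈ l, ∃ X ∈ L.lie M hM, ‖X‖ < r₁ ∧ L.exp X = a := by
    intro a ha
    have h1 : en a ≤ (l.map en).sum := by
      refine List.single_le_sum ?_ _ (List.mem_map_of_mem ha)
      intro x hx
      obtain ⟨b, hb, rfl⟩ := List.mem_map.1 hx
      exact en_nonneg (hMo (hlM b hb))
    obtain ⟨X, hX, hXa⟩ := hsmall a (hMo (hlM a ha)) (lt_of_le_of_lt h1 hle')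
    have hX' : ‖X‖ < min r₁ r₂ := by simpa using hX
    exact ⟨X, hlie X (hX'.trans_le (min_le_right _ _)) (by rw [hXa]; exact hlM a ha),
      hX'.trans_le (min_le_left _ _), hXa⟩
  have hconst : ∀ (l₁ l₂ : List (V →L[ℝ] V)ˣ) (a b : (V →L[ℝ] V)ˣ), l = l₁ ++ a :: b :: l₂ → a = b := by
    intro l₁ l₂ a b hl
    have ha : a ∈ l := by rw [hl]; simp
    have hb : b ∈ l := by rw [hl]; simp
    obtain ⟨X, hX, hXr, hXa⟩ := hentry a ha
    obtain ⟨Y, hY, hYr, hYb⟩ := hentry b hb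
    have hmin : ∀ Z ∈ L.lie M hM, ∀ t : ℝ,
        en a + en b ≤ en (a * L.exp (t • Z)) + en (L.exp (-(t • Z)) * b) := by
      intro Z hZ t
      have h1 : (k, ((l₁ ++ (a * L.exp (t • Z)) :: (L.exp (-(t • Z)) * b) :: l₂).map en).sum) ∈ Pn M N := by
        refine (mem_Pn N k _).2 ⟨_, ?_, ?_, ?_, rfl⟩
        · rw [← hlN, hl]; simp
        · intro c hc
          rcases List.mem_append.1 hc with hc | hc
          · exact hlM c (by rw [hl]; simp [hc])
          · rcases List.mem_cons.1 hc with rfl | hc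
            · exact M.mul_mem (hlM a ha) (hZ t)
            · rcases List.mem_cons.1 hc with rfl | hc
              · refine M.mul_mem ?_ (hlM b hb)
                rw [← neg_smul]; exact hZ (-t)
              · exact hlM c (by rw [hl]; simp [hc])
        · rw [← hlp, hl, List.prod_append, List.prod_append, List.prod_cons, List.prod_cons,
            List.prod_cons, List.prod_cons, L.exp_neg]
          group
      have h2 := hemin h1
      rw [← hle, hl] at h2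
      simp only [List.map_append, List.map_cons, List.sum_append, List.sum_cons] at h2
      linarith
    have h1 := eq_of_min hM hmin
    have h2 : X = Y := by
      refine hinj X hX Y hY hXr hYr fun Z hZ => ?_
      have h3 := h1 Z hZ
      rw [← hXa, ← hYb] at h3
      exact h3
    rw [← hXa, ← hYb, h2]
  rcases list_const l hconst with h0 | ⟨a, ha⟩
  · refine ⟨0, (L.lie M hM).zero_mem, ?_⟩
    rw [← hlp, h0, List.prod_nil]
    exact L.exp_zero
  · cases hlen : l.length with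
    | zero =>
      refine ⟨0, (L.lie M hM).zero_mem, ?_⟩
      rw [← hlp, List.length_eq_zero_iff.1 hlen, List.prod_nil]
      exact L.exp_zero
    | succ n =>
      have hal : a ∈ l := by rw [ha, hlen]; simp
      obtain ⟨X, hX, -, hXa⟩ := hentry a hal
      refine ⟨(n + 1) • X, (L.lie M hM).nsmul_mem hX _, ?_⟩
      rw [← hlp, ha, hlen, List.prod_replicate, ← hXa]
      exact L.exp_nsmul _ _

end M

end Pool.Agent.TH77.AN
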