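import Pool.Agent.TH77.AN.LeviB
import Pool.Agent.TH557.J961
import Pool.Agent.TH75.J876

/-!
# Radical, Levi subalgebra and flag of a finite-dimensional real Lie algebra given by a bilinear map
-/

set_option linter.unusedSectionVars false
set_option linter.style.haveILetI false

namespace Pool.Agent.TH77

open Pool.Agent.TH77.AN Pool.Agent.TH77.Br LieAlgebra

/-- Radical, Levi subalgebra and flag. -/
structure LData {E : Type*} [AddCommGroup E] [Module ℝ E] (β : E →ₗ[ℝ] E →ₗ[ℝ] E)
    (r l : Submodule ℝ E) (V : ℕ → Submodule ℝ E) (m : ℕ) : Prop where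
  r_ideal : ∀ x, ∀ y ∈ r, β x y ∈ r
  l_sub : ∀ x ∈ l, ∀ y ∈ l, β x y ∈ l
  compl : IsCompl r l
  zero : V 0 = ⊤
  mono : ∀ k, V (k + 1) ≤ V k
  bot : V m = ⊥
  inv : ∀ k, ∀ x, ∀ v ∈ V k, β x v ∈ V k
  str : ∀ k, ∀ x, ∀ y ∈ r, ∀ v ∈ V k, β (β x y) v ∈ V (k + 1)
  rad : ∀ v, (∀ I : Submodule ℝ E, IsMaxI (fun x y => β x y) ⊤ I → v ∈ I) → v ∈ r

theorem exists_ldata {E : Type*} [AddCommGroup E] [Module ℝ E] [FiniteDimensional ℝ E]
    (β : E →ₗ[ℝ] E →ₗ[ℝ] E) (halt : ∀ x, β x x = 0)
    (hjac : ∀ x y z, β x (β y z) = β (β x y) z + β y (β x z)) :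
    ∃ (r l : Submodule ℝ E) (V : ℕ → Submodule ℝ E) (m : ℕ), LData β r l V m := by
  letI : LieRing E :=
    { bracket := fun x y => β x y
      add_lie := by intro x y z; change β (x + y) z = β x z + β y z; rw [map_add]; rfl
      lie_add := by intro x y z; change β x (y + z) = β x y + β x z; rw [map_add]
      lie_self := by intro x; exact halt x
      leibniz_lie := by intro x y z; exact hjac x y z }
  letI : LieAlgebra ℝ E :=
    { lie_smul := by intro t x y; change β x (t • y) = t • β x y; rw [map_smul] }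
  have hb : ∀ x y : E, ⁅x, y⁆ = β x y := fun _ _ => rfl
  set R := radical ℝ E with hR
  haveI htr : HasTrivialRadical ℝ (E ⧸ R) := trivial_radical_quot
  haveI hkil : IsKilling ℝ (E ⧸ R) := inferInstance
  have hker : (pr R).ker = R := by
    ext x
    rw [LieHom.mem_ker, pr_eq_zero]
  have hsol : IsSolvable (pr R).ker := by rw [hker]; exact radicalIsSolvable ℝ E
  obtain ⟨σ, hσ⟩ := levi (Module.finrank ℝ E) (pr R) (pr_surj R) hsol le_rfl
  obtain ⟨V, hV0, hVm, ⟨m, hm⟩, hVs⟩ := exists_flag (L := E) (M := E)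
  refine ⟨R.toSubmodule, LinearMap.range (σ : (E ⧸ R) →ₗ[ℝ] E), fun k => (V k).toSubmodule, m,
    ⟨?_, ?_, ?_, ?_, ?_, ?_, ?_, ?_, ?_⟩⟩
  · intro x y hy
    exact lie_mem_right ℝ E R x y hy
  · rintro _ ⟨x, rfl⟩ _ ⟨y, rfl⟩
    exact ⟨⁅x, y⁆, LieHom.map_lie σ x y⟩
  · rw [isCompl_iff]
    constructor
    · rw [Submodule.disjoint_def]
      rintro _ hx ⟨y, rfl⟩
      have h1 : pr R (σ y) = 0 := (pr_eq_zero R _).2 hx
      rw [hσ] at h1
      rw [h1]
      exact map_zero σ
    · rw [codisjoint_iff, eq_top_iff]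
      intro x _
      have h1 : x - σ (pr R x) ∈ R := by
        rw [← pr_eq_zero, map_sub, hσ, sub_self]
      have h2 : x = (x - σ (pr R x)) + σ (pr R x) := by abel
      rw [h2]
      exact Submodule.add_mem_sup h1 ⟨_, rfl⟩
  · simp [hV0]
  · intro k x hx
    exact hVm k hx
  · simp [hm]
  · intro k x v hv
    exact (V k).lie_mem hv
  · intro k x y hy v hv
    exact hVs k x y hy v hv
  · intro v hv
    by_contra hvr
    obtain ⟨I, hI, hvI, hp, -⟩ := exists_coatom v hvr
    refine hvI (hv I.toSubmodule ⟨le_top, ?_, ?_, ?_⟩)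
    · intro x _ y hy
      exact lie_mem_right ℝ E I x y hy
    · intro J _ hJ hIJ
      let J' : LieIdeal ℝ E := { J with lie_mem := fun {x y} hy => hJ x trivial y hy }
      have h1 : I ≤ J' := hIJ
      rcases hI.le_iff.1 h1 with h2 | h2
      · right
        exact congrArg LieSubmodule.toSubmodule h2
      · left
        exact congrArg LieSubmodule.toSubmodule h2
    · by_contra hcon
      push Not at hcon
      refine hp ?_
      rw [LieSubmodule.lie_le_iff]
      intro x _ y _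
      exact hcon x trivial y trivial

end Pool.Agent.TH77
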