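import Pool.Agent.TH77.AN.Two
import Pool.Agent.TH77.Final
import Pool.Agent.TH883.J960

/-!
# Intrinsic Lie groups of the finite projections
-/

set_option linter.unusedSectionVars false
set_option linter.style.haveILetI false

open Filter Topology Metric Set

namespace Pool.Agent.TH77
open Pool.Agent.TH77.AN

namespace LG

variable {H : Type*} [Group H] [TopologicalSpace H] [IsTopologicalGroup H] [T2Space H]
  {E : Type*} [NormedAddCommGroup E] [NormedSpace ℝ E] [FiniteDimensional ℝ E] (L : LG H E)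
  {H' : Type*} [Group H'] [TopologicalSpace H'] [IsTopologicalGroup H'] [T2Space H']
    {E' : Type*} [NormedAddCommGroup E'] [NormedSpace ℝ E'] [FiniteDimensional ℝ E'] (L' : LG H' E')
    (φ : H' →* H) (d : E' →ₗ[ℝ] E) (hd : ∀ x, φ (L'.exp x) = L.exp (d x))

include hd in
lemma map_Ad (a : H') (z : E') : d ((L'.Ad a : E' →L[ℝ] E') z) = (L.Ad (φ a) : E →L[ℝ] E) (d z) := by
  refine L.eq_of_forall_exp fun t => ?_
  rw [← map_smul, ← map_smul, ← hd, L'.exp_Ad, map_mul, map_mul, map_inv, hd, ← L.exp_Ad,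
    map_smul, map_smul]

include hd in
lemma map_ad (u v : E') : d (L'.ad u v) = L.ad (d u) (d v) := by
  have h1 : ∀ t : ℝ, d (NormedSpace.exp (t • L'.ad u) v) = NormedSpace.exp (t • L.ad (d u)) (d v) := by
    intro t
    rw [← map_smul, ← L'.Ad_exp, L.map_Ad L' φ d hd, hd, L.Ad_exp, map_smul, map_smul]
  have h2 := (LinearMap.toContinuousLinearMap d).hasFDerivAt.comp_hasDerivAt (0 : ℝ)
    (op_hasDerivAt (L'.ad u) v)
  have h3 := op_hasDerivAt (L.ad (d u)) (d v)
  simp only [← h1] at h3
  exact h2.unique h3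

end LG

namespace PL

variable {ι : Type*} {H : ι → Type*} {E : ι → Type*} [∀ i, Group (H i)]
  [∀ i, TopologicalSpace (H i)] [∀ i, IsTopologicalGroup (H i)] [∀ i, T2Space (H i)]
  [∀ i, NormedAddCommGroup (E i)] [∀ i, NormedSpace ℝ (E i)] [∀ i, FiniteDimensional ℝ (E i)]
  (L : ∀ i, LG (H i) (E i)) (G : Subgroup (∀ i, H i)) (hG : IsClosed (G : Set (∀ i, H i)))

/-- The intrinsic Lie group of a finite projection. -/
def AT (F : Finset ι) : Type _ := AF L (gL L G hG) F

noncomputable instance (F : Finset ι) : Group (AT L G hG F) := inferInstanceAs (Group (AF L (gL L G hG) F))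
noncomputable instance (F : Finset ι) : TopologicalSpace (AT L G hG F) := (dataA L G hG F).top
noncomputable instance (F : Finset ι) : IsTopologicalGroup (AT L G hG F) := (dataA L G hG F).topGroup
noncomputable instance (F : Finset ι) : T2Space (AT L G hG F) := (dataA L G hG F).t2

/-- Its Lie structure. -/
noncomputable def lgA (F : Finset ι) : LG (AT L G hG F) (pE (gL L G hG) F) := (dataA L G hG F).lg

lemma lgA_gen (F : Finset ι) : (lgA L G hG F).gen univ = ⊤ := by
  have h := (dataA L G hG F).gen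
  rw [← image_univ] at h
  exact h

/-- the inclusion into the finite product -/
noncomputable def inc (F : Finset ι) : AT L G hG F →* (∀ i : F, H i) := (AF L (gL L G hG) F).subtype

lemma inc_inj (F : Finset ι) : Function.Injective (inc L G hG F) := Subtype.val_injective

/-- coordinate homomorphisms -/
noncomputable def cA (F : Finset ι) (i : F) : AT L G hG F →* H i := (Pi.evalMonoidHom (fun i : F => H i) i).comp (inc L G hG F)

/-- coordinates of the Lie algebra -/
noncomputable def dA (F : Finset ι) (i : F) : pE (gL L G hG) F →ₗ[ℝ] E i :=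
  (LinearMap.proj (R := ℝ) (φ := fun i : F => E i) i).comp (pE (gL L G hG) F).subtype

lemma cA_exp (F : Finset ι) (i : F) (v : pE (gL L G hG) F) :
    cA L G hG F i ((lgA L G hG F).exp v) = (L i).exp (dA L G hG F i v) := rfl

lemma Ad_coord (F : Finset ι) (i : F) (a : AT L G hG F) (v : pE (gL L G hG) F) :
    dA L G hG F i (((lgA L G hG F).Ad a : _ →L[ℝ] _) v) =
      ((L i).Ad (cA L G hG F i a) : E i →L[ℝ] E i) (dA L G hG F i v) :=
  (L i).map_Ad (lgA L G hG F) (cA L G hG F i) (dA L G hG F i) (cA_exp L G hG F i) a v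

lemma ad_coord (F : Finset ι) (i : F) (u v : pE (gL L G hG) F) :
    dA L G hG F i ((lgA L G hG F).ad u v) = (L i).ad (dA L G hG F i u) (dA L G hG F i v) :=
  (L i).map_ad (lgA L G hG F) (cA L G hG F i) (dA L G hG F i) (cA_exp L G hG F i) u v

lemma dA_ext (F : Finset ι) {u v : pE (gL L G hG) F} (h : ∀ i, dA L G hG F i u = dA L G hG F i v) :
    u = v := Subtype.ext (funext h)

/-- restriction of Lie algebra elements -/
noncomputable def rG (F : Finset ι) (X : gL L G hG) : pE (gL L G hG) F := ⟨rE E F X, X, X.2, rfl⟩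

lemma rG_surj (F : Finset ι) (v : pE (gL L G hG) F) : ∃ X : gL L G hG, rG L G hG F X = v := by
  obtain ⟨v, X, hX, rfl⟩ := v
  exact ⟨⟨X, hX⟩, rfl⟩

lemma dA_rG (F : Finset ι) (i : F) (X : gL L G hG) : dA L G hG F i (rG L G hG F X) = (X : ∀ i, E i) i := rfl

/-- Restriction homomorphisms. -/
noncomputable def res {F F' : Finset ι} (h : F ⊆ F') : AT L G hG F' →* AT L G hG F where
  toFun a := ⟨fun i => inc L G hG F' a ⟨i, h i.2⟩, by
    obtain ⟨l, hl, hla⟩ := a.2
    refine ⟨l, hl, ?_⟩
    funext i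
    exact congrFun hla ⟨i, h i.2⟩⟩
  map_one' := rfl
  map_mul' _ _ := rfl

/-- Restriction on Lie algebras. -/
noncomputable def dres {F F' : Finset ι} (h : F ⊆ F') : pE (gL L G hG) F' →ₗ[ℝ] pE (gL L G hG) F where
  toFun a := ⟨fun i => (a : ∀ i : F', E i) ⟨i, h i.2⟩, by
    obtain ⟨X, hX, hXa⟩ := a.2
    refine ⟨X, hX, ?_⟩
    funext i
    exact congrFun hXa ⟨i, h i.2⟩⟩
  map_add' _ _ := rfl
  map_smul' _ _ := rfl

lemma res_exp {F F' : Finset ι} (h : F ⊆ F') (v : pE (gL L G hG) F') :
    res L G hG h ((lgA L G hG F').exp v) = (lgA L G hG F).exp (dres L G hG h v) := rfl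

lemma dres_rG {F F' : Finset ι} (h : F ⊆ F') (X : gL L G hG) :
    dres L G hG h (rG L G hG F' X) = rG L G hG F X := rfl

lemma dres_surj {F F' : Finset ι} (h : F ⊆ F') : Function.Surjective (dres L G hG h) := by
  intro v
  obtain ⟨X, rfl⟩ := rG_surj L G hG F v
  exact ⟨rG L G hG F' X, rfl⟩

lemma continuous_res {F F' : Finset ι} (h : F ⊆ F') : Continuous (res L G hG h) := by
  refine continuous_of_continuousAt_one (res L G hG h) ?_
  rw [ContinuousAt, map_one, ← (lgA L G hG F').nhds, Filter.tendsto_map'_iff]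
  have h1 : Continuous fun v => (lgA L G hG F).exp (dres L G hG h v) :=
    (lgA L G hG F).cont.comp (LinearMap.continuous_of_finiteDimensional _)
  have h2 := h1.tendsto 0
  rw [map_zero, LG.exp_zero] at h2
  exact h2

section proj
variable (hO : ∀ F, OF L G hG F = ⊤)

/-- Projection of the group to the intrinsic Lie groups. -/
noncomputable def prA (F : Finset ι) : G →* AT L G hG F where
  toFun x := ⟨rH H F x, by
    have h : x ∈ OF L G hG F := by rw [hO]; trivial
    exact h⟩
  map_one' := rfl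
  map_mul' _ _ := rfl

lemma res_prA {F F' : Finset ι} (h : F ⊆ F') (x : G) :
    res L G hG h (prA L G hG hO F' x) = prA L G hG hO F x := rfl

lemma cA_prA (F : Finset ι) (i : F) (x : G) : cA L G hG F i (prA L G hG hO F x) = (x : ∀ i, H i) i := rfl

lemma Ad_prA (F : Finset ι) (x : G) (X Y : gL L G hG) (h : (Y : ∀ i, E i) = AdP L x X) :
    ((lgA L G hG F).Ad (prA L G hG hO F x) : _ →L[ℝ] _) (rG L G hG F X) = rG L G hG F Y := by
  refine dA_ext L G hG F fun i => ?_
  rw [Ad_coord, cA_prA, dA_rG, dA_rG, h]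
  rfl

end proj

lemma ad_rG (F : Finset ι) (X Y Z : gL L G hG) (h : (Z : ∀ i, E i) = brP L X Y) :
    (lgA L G hG F).ad (rG L G hG F X) (rG L G hG F Y) = rG L G hG F Z := by
  refine dA_ext L G hG F fun i => ?_
  rw [ad_coord, dA_rG, dA_rG, dA_rG, h]
  rfl

end PL

end Pool.Agent.TH77
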