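import Pool.Agent.TH77.AN.Glob

/-!
# Closures of analytic subgroups in products of Lie groups
-/

set_option linter.unusedSectionVars false
set_option linter.style.haveILetI false

open Filter Topology Metric Set

namespace Pool.Agent.TH77
open Pool.Agent.TH77.AN

namespace PL

variable {ι : Type*} {H : ι → Type*} {E : ι → Type*} [∀ i, Group (H i)]
  [∀ i, TopologicalSpace (H i)] [∀ i, IsTopologicalGroup (H i)] [∀ i, T2Space (H i)]
  [∀ i, NormedAddCommGroup (E i)] [∀ i, NormedSpace ℝ (E i)] [∀ i, FiniteDimensional ℝ (E i)]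
  (L : ∀ i, LG (H i) (E i)) (G : Subgroup (∀ i, H i)) (hG : IsClosed (G : Set (∀ i, H i)))

lemma FC_of_isClosed {h : Submodule ℝ (∀ i, E i)} (hcl : IsClosed (h : Set (∀ i, E i))) : FC h := by
  intro X hX
  choose Y hYh hY using hX
  refine hcl.mem_of_tendsto (f := Y) (b := atTop) ?_ (Eventually.of_forall hYh)
  rw [tendsto_pi_nhds]
  intro i
  refine tendsto_const_nhds.congr' ?_
  filter_upwards [eventually_ge_atTop {i}] with F hF
  exact (hY F i (hF (Finset.mem_singleton_self i))).symm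

/-- The product bracket as a bilinear map. -/
noncomputable def brB : (∀ i, E i) →ₗ[ℝ] (∀ i, E i) →ₗ[ℝ] (∀ i, E i) :=
  LinearMap.mk₂ ℝ (brP L)
    (fun x y z => funext fun i => by simp [brP])
    (fun c x y => funext fun i => by simp [brP])
    (fun x y z => funext fun i => by simp [brP])
    (fun c x y => funext fun i => by simp [brP])

lemma brB_apply (X Y : ∀ i, E i) : brB L X Y = brP L X Y := rfl

lemma brB_alt (X : ∀ i, E i) : brB L X X = 0 := funext fun i => (L i).ad_self (X i)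

lemma brB_jac (X Y Z : ∀ i, E i) :
    brB L X (brB L Y Z) = brB L (brB L X Y) Z + brB L Y (brB L X Z) :=
  funext fun i => (L i).jacobi (X i) (Y i) (Z i)

/-- restriction as a linear map -/
noncomputable def rGl (F : Finset ι) : gL L G hG →ₗ[ℝ] pE (gL L G hG) F where
  toFun := rG L G hG F
  map_add' _ _ := rfl
  map_smul' _ _ := rfl

/-- Pull-back of a subspace of the finite-dimensional Lie algebra. -/
noncomputable def pull (F : Finset ι) (I : Submodule ℝ (pE (gL L G hG) F)) : Submodule ℝ (∀ i, E i) :=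
  (I.comap (rGl L G hG F)).map (gL L G hG).subtype

lemma mem_pull {F : Finset ι} {I : Submodule ℝ (pE (gL L G hG) F)} {X : ∀ i, E i} :
    X ∈ pull L G hG F I ↔ ∃ hX : X ∈ gL L G hG, rG L G hG F ⟨X, hX⟩ ∈ I := by
  constructor
  · rintro ⟨⟨X, hX⟩, hXI, rfl⟩
    exact ⟨hX, hXI⟩
  · rintro ⟨hX, hXI⟩
    exact ⟨⟨X, hX⟩, hXI, rfl⟩

section main

variable (hgg : ∀ X ∈ gL L G hG, ∀ Y ∈ gL L G hG, brP L X Y ∈ gL L G hG)

include hgg in
lemma pull_maxI {F : Finset ι} {I : Submodule ℝ (pE (gL L G hG) F)}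
    (hI : IsMaxI (fun x y => (lgA L G hG F).ad x y) ⊤ I) :
    IsMaxI (fun x y => brB L x y) (gL L G hG) (pull L G hG F I) := by
  refine ⟨?_, ?_, ?_, ?_⟩
  · intro X hX
    exact ((mem_pull L G hG).1 hX).1
  · intro X hX Y hY
    obtain ⟨hY1, hY2⟩ := (mem_pull L G hG).1 hY
    refine (mem_pull L G hG).2 ⟨hgg X hX Y hY1, ?_⟩
    have h1 := ad_rG L G hG F ⟨X, hX⟩ ⟨Y, hY1⟩ ⟨brP L X Y, hgg X hX Y hY1⟩ rfl
    change rG L G hG F ⟨brP L X Y, hgg X hX Y hY1⟩ ∈ I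
    rw [← h1]
    exact hI.ideal _ trivial _ hY2
  · intro K hKg hK hIK
    let K' : Submodule ℝ (pE (gL L G hG) F) := (K.comap (gL L G hG).subtype).map (rGl L G hG F)
    have hK'm : ∀ v, v ∈ K' ↔ ∃ X : gL L G hG, (X : ∀ i, E i) ∈ K ∧ rG L G hG F X = v := fun v => Iff.rfl
    have h1 : ∀ x ∈ (⊤ : Submodule ℝ (pE (gL L G hG) F)), ∀ y ∈ K', (lgA L G hG F).ad x y ∈ K' := by
      intro x _ y hy
      obtain ⟨X, rfl⟩ := rG_surj L G hG F x
      obtain ⟨Y, hYK, rfl⟩ := (hK'm y).1 hy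
      refine (hK'm _).2 ⟨⟨brP L X Y, hgg X X.2 Y Y.2⟩, hK X X.2 Y hYK, ?_⟩
      rw [ad_rG L G hG F X Y ⟨brP L X Y, hgg X X.2 Y Y.2⟩ rfl]
    have h2 : I ≤ K' := by
      intro v hv
      obtain ⟨X, rfl⟩ := rG_surj L G hG F v
      exact (hK'm _).2 ⟨X, hIK ((mem_pull L G hG).2 ⟨X.2, hv⟩), rfl⟩
    rcases hI.max K' le_top h1 h2 with h3 | h3
    · left
      refine le_antisymm ?_ hIK
      intro X hX
      refine (mem_pull L G hG).2 ⟨hKg hX, ?_⟩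
      rw [← h3]
      exact (hK'm _).2 ⟨⟨X, hKg hX⟩, hX, rfl⟩
    · right
      refine le_antisymm hKg ?_
      intro X hX
      have h4 : rG L G hG F ⟨X, hX⟩ ∈ K' := by rw [h3]; trivial
      obtain ⟨Y, hYK, hYX⟩ := (hK'm _).1 h4
      have h5 : X - Y ∈ pull L G hG F I := by
        refine (mem_pull L G hG).2 ⟨(gL L G hG).sub_mem hX Y.2, ?_⟩
        have h6 : rG L G hG F ⟨X - Y, (gL L G hG).sub_mem hX Y.2⟩ = 0 := by
          change rGl L G hG F (⟨X, hX⟩ - Y) = 0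
          rw [map_sub, sub_eq_zero]
          exact hYX.symm
        rw [h6]
        exact I.zero_mem
      have h7 := K.add_mem (hIK h5) hYK
      simpa using h7
  · obtain ⟨x, -, y, -, hxy⟩ := hI.perf
    obtain ⟨X, rfl⟩ := rG_surj L G hG F x
    obtain ⟨Y, rfl⟩ := rG_surj L G hG F y
    refine ⟨X, X.2, Y, Y.2, fun hcon => hxy ?_⟩
    obtain ⟨hZ, hZI⟩ := (mem_pull L G hG).1 hcon
    rw [ad_rG L G hG F X Y ⟨brP L X Y, hZ⟩ rfl]
    exact hZI

variable (h : Submodule ℝ (∀ i, E i)) (hcl : IsClosed (h : Set (∀ i, E i)))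
    (hlie : ∀ X ∈ h, ∀ Y ∈ h, brP L X Y ∈ h)
    (hGh : (G : Set (∀ i, H i)) = closure (LS L h : Set (∀ i, H i)))

include hcl hlie hGh in
lemma OF_top (F : Finset ι) : OF L G hG F = ⊤ := by
  have hle : h ≤ gL L G hG := (closure_facts L h hcl hlie G hG hGh).1
  have hcl' : IsClosed (OF L G hG F : Set G) := Subgroup.isClosed_of_isOpen _ (isOpen_OF L G hG F)
  rw [eq_top_iff]
  intro x _
  have hsub : (LS L h : Set (∀ i, H i)) ⊆ G := by rw [hGh]; exact subset_closure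
  have hx : x ∈ closure ((Subtype.val : G → ∀ i, H i) ⁻¹' (LS L h : Set (∀ i, H i))) := by
    rw [closure_subtype]
    have : (Subtype.val : G → ∀ i, H i) '' (Subtype.val ⁻¹' (LS L h : Set (∀ i, H i))) = LS L h := by
      ext z
      constructor
      · rintro ⟨w, hw, rfl⟩; exact hw
      · intro hz; exact ⟨⟨z, hsub hz⟩, hz, rfl⟩
    rw [this, ← hGh]; exact x.2
  refine closure_minimal ?_ hcl' hx
  intro y hy
  exact ⟨y, LS_mono L hle hy, rfl⟩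

variable (hO : ∀ F, OF L G hG F = ⊤)

/-- Acting trivially modulo all radicals. -/
def RR (x : G) : Prop := ∀ (F : Finset ι) (I : Submodule ℝ (pE (gL L G hG) F)),
  IsMaxI (fun x y => (lgA L G hG F).ad x y) ⊤ I →
  ∀ v : pE (gL L G hG) F, ((lgA L G hG F).Ad (prA L G hG hO F x) :
    pE (gL L G hG) F →L[ℝ] pE (gL L G hG) F) v - v ∈ I

lemma AdP_mem {x : ∀ i, H i} (hx : x ∈ G) {X : ∀ i, E i} (hX : X ∈ gL L G hG) :
    AdP L x X ∈ gL L G hG := by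
  intro t
  rw [← AdP_smul, ex_AdP]
  exact G.mul_mem (G.mul_mem hx (hX t)) (G.inv_mem hx)

lemma rr_aux (x : G) (F : Finset ι) (I : Submodule ℝ (pE (gL L G hG) F))
    (hI : ∀ a, ∀ y ∈ I, (lgA L G hG F).ad a y ∈ I) (c c' X Y : gL L G hG)
    (hc : ∀ Z : pE (gL L G hG) F, ((lgA L G hG F).Ad (prA L G hG hO F x) : _ →L[ℝ] _) Z -
      ((lgA L G hG F).Ad ((lgA L G hG F).exp (rG L G hG F c))).val
        (((lgA L G hG F).Ad ((lgA L G hG F).exp (rG L G hG F c'))).val Z) ∈ I)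
    (hX : (X : ∀ i, E i) - c ∈ pull L G hG F I) (hY : (Y : ∀ i, E i) - c' ∈ pull L G hG F I)
    (x' : G) (hx' : (x' : ∀ i, H i) = x * (ex L X * ex L Y)⁻¹) (Z : gL L G hG) :
    AdP L x' Z - Z ∈ pull L G hG F I := by
  have hX3 : rG L G hG F X - rG L G hG F c ∈ I := ((mem_pull L G hG).1 hX).2
  have hY3 : rG L G hG F Y - rG L G hG F c' ∈ I := ((mem_pull L G hG).1 hY).2
  have h2 := (lgA L G hG F).div_two (lgA_gen L G hG F) hI hX3 hY3 hc (rG L G hG F Z)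
  have h3 : prA L G hG hO F x * ((lgA L G hG F).exp (rG L G hG F X) *
      (lgA L G hG F).exp (rG L G hG F Y))⁻¹ = prA L G hG hO F x' := by
    refine inc_inj L G hG F ?_
    funext i
    exact (congrFun hx' i).symm
  rw [h3] at h2
  have hW : AdP L x' Z ∈ gL L G hG := AdP_mem L G hG x'.2 Z.2
  rw [Ad_prA L G hG hO F x' Z ⟨_, hW⟩ rfl] at h2
  exact (mem_pull L G hG).2 ⟨(gL L G hG).sub_mem hW Z.2, h2⟩

include hcl in
/-- Every element is, modulo the generated group, of radical type. -/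
theorem exists_RR (hhg : h ≤ gL L G hG)
    (hgh : ∀ X ∈ gL L G hG, ∀ Y ∈ gL L G hG, brP L X Y ∈ h) (x : G) :
    ∃ x' : G, RR L G hG hO x' ∧ ∃ k ∈ LS L h, (x : ∀ i, H i) = x' * k := by
  have hgg : ∀ X ∈ gL L G hG, ∀ Y ∈ gL L G hG, brP L X Y ∈ gL L G hG :=
    fun X hX Y hY => hhg (hgh X hX Y hY)
  have hc : ∀ F : Finset ι, ∃ c c' : gL L G hG, ∀ I : Submodule ℝ (pE (gL L G hG) F),
      IsMaxI (fun x y => (lgA L G hG F).ad x y) ⊤ I → ∀ Z : pE (gL L G hG) F,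
      ((lgA L G hG F).Ad (prA L G hG hO F x) : _ →L[ℝ] _) Z -
      ((lgA L G hG F).Ad ((lgA L G hG F).exp (rG L G hG F c))).val
        (((lgA L G hG F).Ad ((lgA L G hG F).exp (rG L G hG F c'))).val Z) ∈ I := by
    intro F
    obtain ⟨X, Y, hXY⟩ := (lgA L G hG F).exists_two (lgA_gen L G hG F) (prA L G hG hO F x)
    obtain ⟨c, rfl⟩ := rG_surj L G hG F X
    obtain ⟨c', rfl⟩ := rG_surj L G hG F Y
    exact ⟨c, c', hXY⟩
  choose c c' hcc using hc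
  let J : Set (Submodule ℝ (∀ i, E i)) := {𝔪 | ∃ F : Finset ι, ∃ I : Submodule ℝ (pE (gL L G hG) F),
    IsMaxI (fun x y => (lgA L G hG F).ad x y) ⊤ I ∧ 𝔪 = pull L G hG F I}
  have hJex : ∀ 𝔪 : Submodule ℝ (∀ i, E i), ∃ F : Finset ι, 𝔪 ∈ J →
      ∃ I : Submodule ℝ (pE (gL L G hG) F),
        IsMaxI (fun x y => (lgA L G hG F).ad x y) ⊤ I ∧ 𝔪 = pull L G hG F I := by
    intro 𝔪
    by_cases hm : 𝔪 ∈ J
    · obtain ⟨F, I, h1, h2⟩ := hm
      exact ⟨F, fun _ => ⟨I, h1, h2⟩⟩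
    · exact ⟨∅, fun h => absurd h hm⟩
  choose pF hpF using hJex
  have hJmax : ∀ I ∈ J, IsMaxI (fun x y => brB L x y) (gL L G hG) I := by
    rintro _ ⟨F, I, hp, rfl⟩
    exact pull_maxI L G hG hgg hp
  have hJF : ∀ I ∈ J, ∃ F : Finset ι, ∀ X ∈ gL L G hG, (∀ i ∈ F, X i = 0) → X ∈ I := by
    rintro _ ⟨F, I, hp, rfl⟩
    refine ⟨F, fun X hX hX0 => (mem_pull L G hG).2 ⟨hX, ?_⟩⟩
    have h1 : rG L G hG F ⟨X, hX⟩ = 0 := Subtype.ext (funext fun i => hX0 i i.2)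
    rw [h1]
    exact I.zero_mem
  obtain ⟨X, hXh, hX⟩ := glob_solve (brB L) (brB_alt L) (brB_jac L) (gL L G hG) h hhg
    (FC_of_isClosed hcl) hgh J hJmax hJF (fun 𝔪 => c (pF 𝔪)) (fun I _ => (c _).2)
  obtain ⟨Y, hYh, hY⟩ := glob_solve (brB L) (brB_alt L) (brB_jac L) (gL L G hG) h hhg
    (FC_of_isClosed hcl) hgh J hJmax hJF (fun 𝔪 => c' (pF 𝔪)) (fun I _ => (c' _).2)
  let eX : G := ⟨ex L X, LS_gL_le L G hG (ex_mem_LS L (hhg hXh))⟩
  let eY : G := ⟨ex L Y, LS_gL_le L G hG (ex_mem_LS L (hhg hYh))⟩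
  let x' : G := x * (eX * eY)⁻¹
  have hx' : (x' : ∀ i, H i) = x * (ex L X * ex L Y)⁻¹ := rfl
  have key : ∀ 𝔪 ∈ J, ∀ Z : gL L G hG, AdP L x' Z - Z ∈ 𝔪 := by
    intro 𝔪 hm Z
    obtain ⟨I, hI, hmI⟩ := hpF 𝔪 hm
    have hXm' : X - (c (pF 𝔪) : ∀ i, E i) ∈ pull L G hG (pF 𝔪) I := by
      have h0 := hX 𝔪 hm
      exact hmI.le h0
    have hYm' : Y - (c' (pF 𝔪) : ∀ i, E i) ∈ pull L G hG (pF 𝔪) I := by
      have h0 := hY 𝔪 hm
      exact hmI.le h0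
    refine hmI.ge ?_
    exact rr_aux L G hG hO x (pF 𝔪) I (fun a y hy => hI.ideal a trivial y hy) (c (pF 𝔪)) (c' (pF 𝔪))
      ⟨X, hhg hXh⟩ ⟨Y, hhg hYh⟩ (hcc (pF 𝔪) I hI) hXm' hYm' x' hx' Z
  refine ⟨x', ?_, ex L X * ex L Y, (LS L h).mul_mem (ex_mem_LS L hXh) (ex_mem_LS L hYh), ?_⟩
  · intro F I hI v
    obtain ⟨Z, rfl⟩ := rG_surj L G hG F v
    have h4 := key (pull L G hG F I) ⟨F, I, hI, rfl⟩ Z
    obtain ⟨h5, h6⟩ := (mem_pull L G hG).1 h4
    have hW : AdP L x' Z ∈ gL L G hG := AdP_mem L G hG x'.2 Z.2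
    rw [Ad_prA L G hG hO F x' Z ⟨_, hW⟩ rfl]
    exact h6
  · rw [hx', inv_mul_cancel_right]

include hcl in
/-- Commutators with elements of radical type are exponentials. -/
theorem comm_RR (hhg : h ≤ gL L G hG)
    (hgh : ∀ X ∈ gL L G hG, ∀ Y ∈ gL L G hG, brP L X Y ∈ h) {x : G} (hx : RR L G hG hO x) (y : G) :
    ∃ Z ∈ h, ex L Z = (y : ∀ i, H i) * x * (y : ∀ i, H i)⁻¹ * (x : ∀ i, H i)⁻¹ := by
  choose J hJc hJ1 hJn hJe hJW using fun F : Finset ι =>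
    (lgA L G hG F).exists_commLog (lgA_gen L G hG F) (hx F)
  let z : ∀ F : Finset ι, pE (gL L G hG) F := fun F => J F (prA L G hG hO F y)
  have hcompat : ∀ {F F' : Finset ι} (hFF' : F ⊆ F'), z F = dres L G hG hFF' (z F') := by
    intro F F' hFF'
    have h1 := (lgA L G hG F).commLog_nat (lgA L G hG F') (lgA_gen L G hG F') (res L G hG hFF')
      (continuous_res L G hG hFF') (dres L G hG hFF') (res_exp L G hG hFF') (dres_surj L G hG hFF')
      (x' := prA L G hG hO F' x) (hJc F') (hJ1 F') (hJn F') (hJe F') (hJc F) (hJ1 F) (hJn F)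
      (hJe F) (prA L G hG hO F' y)
    exact h1
  have hzh : ∀ F, ∃ X : gL L G hG, (X : ∀ i, E i) ∈ h ∧ rG L G hG F X = z F := by
    intro F
    have h1 := hJW F ((h.comap (gL L G hG).subtype).map (rGl L G hG F)) (fun u v => by
      obtain ⟨X, rfl⟩ := rG_surj L G hG F u
      obtain ⟨Y, rfl⟩ := rG_surj L G hG F v
      refine ⟨⟨brP L X Y, hhg (hgh X X.2 Y Y.2)⟩, hgh X X.2 Y Y.2, ?_⟩
      exact (ad_rG L G hG F X Y ⟨brP L X Y, hhg (hgh X X.2 Y Y.2)⟩ rfl).symm) (prA L G hG hO F y)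
    exact h1
  let Z : ∀ i, E i := fun i => dA L G hG {i} ⟨i, Finset.mem_singleton_self i⟩ (z {i})
  have hZ : ∀ (F : Finset ι) (i : ι) (hi : i ∈ F), Z i = dA L G hG F ⟨i, hi⟩ (z F) := by
    intro F i hi
    have h1 := hcompat (F := {i}) (F' := F) (Finset.singleton_subset_iff.2 hi)
    change dA L G hG {i} ⟨i, Finset.mem_singleton_self i⟩ (z {i}) = _
    rw [h1]
    rfl
  refine ⟨Z, ?_, ?_⟩
  · refine FC_of_isClosed hcl Z fun F => ?_
    obtain ⟨X, hXh, hXz⟩ := hzh F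
    refine ⟨X, hXh, fun i hi => ?_⟩
    rw [hZ F i hi, ← hXz]
    rfl
  · funext i
    have h1 := congrArg (cA L G hG {i} ⟨i, Finset.mem_singleton_self i⟩)
      (hJe {i} (prA L G hG hO {i} y))
    rw [cA_exp] at h1
    exact h1

end main

include hG in
/-- **Main theorem, product form.** -/
theorem comm_mem (h : Submodule ℝ (∀ i, E i)) (hcl : IsClosed (h : Set (∀ i, E i)))
    (hlie : ∀ X ∈ h, ∀ Y ∈ h, brP L X Y ∈ h)
    (hGh : (G : Set (∀ i, H i)) = closure (LS L h : Set (∀ i, H i))) :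
    (∀ x ∈ G, ∀ y ∈ LS L h, x * y * x⁻¹ ∈ LS L h) ∧
    ∀ x ∈ G, ∀ y ∈ G, x * y * x⁻¹ * y⁻¹ ∈ LS L h := by
  obtain ⟨hhg, -, hAdh, -, -, hgh⟩ := closure_facts L h hcl hlie G hG hGh
  have hO := OF_top L G hG h hcl hlie hGh
  have hnorm : ∀ x ∈ G, ∀ y ∈ LS L h, x * y * x⁻¹ ∈ LS L h := by
    intro x hx y hy
    have h1 : (LS L h).map (MulAut.conj x).toMonoidHom ≤ LS L h := by
      conv_lhs => rw [LS, MonoidHom.map_closure]
      rw [Subgroup.closure_le]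
      rintro _ ⟨_, ⟨X, hX, rfl⟩, rfl⟩
      change x * ex L X * x⁻¹ ∈ LS L h
      rw [← ex_AdP]
      exact ex_mem_LS L (hAdh x hx X hX)
    exact h1 ⟨y, hy, rfl⟩
  refine ⟨hnorm, fun y hy x hx => ?_⟩
  obtain ⟨x', hx', k, hk, hxk⟩ := exists_RR L G hG h hcl hO hhg hgh ⟨x, hx⟩
  obtain ⟨Z, hZ, hZe⟩ := comm_RR L G hG h hcl hO hhg hgh hx' ⟨y, hy⟩
  change x = (x' : ∀ i, H i) * k at hxk
  have e : y * x * y⁻¹ * x⁻¹ = (y * x' * y⁻¹ * (x' : ∀ i, H i)⁻¹) *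
      ((x' : ∀ i, H i) * ((y * k * y⁻¹) * k⁻¹) * (x' : ∀ i, H i)⁻¹) := by
    rw [hxk]
    group
  rw [e]
  refine (LS L h).mul_mem ?_ (hnorm _ x'.2 _ ((LS L h).mul_mem (hnorm y hy k hk) ((LS L h).inv_mem hk)))
  change ex L Z = y * x' * y⁻¹ * (x' : ∀ i, H i)⁻¹ at hZe
  rw [← hZe]
  exact ex_mem_LS L hZ

end PL

end Pool.Agent.TH77
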