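import Mathlib

/-!
Vanishing of the second cohomology of a Lie algebra with nondegenerate Killing form with
coefficients in an irreducible module.
-/

set_option autoImplicit false
set_option linter.unusedSectionVars false

namespace Pool.Agent.TH77.AN

open LieAlgebra LieModule Module

section H2

variable {S V : Type*} [LieRing S] [LieAlgebra ℝ S] [FiniteDimensional ℝ S] [IsKilling ℝ S]
  [AddCommGroup V] [Module ℝ V] [FiniteDimensional ℝ V] [LieRingModule S V] [LieModule ℝ S V]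

/-- The two-cocycle identity. -/
def IsCoc (w : S →ₗ[ℝ] S →ₗ[ℝ] V) : Prop :=
  (∀ x, w x x = 0) ∧ ∀ x y z, ⁅x, w y z⁆ - ⁅y, w x z⁆ + ⁅z, w x y⁆ - w ⁅x, y⁆ z + w ⁅x, z⁆ y
    - w ⁅y, z⁆ x = 0

lemma IsCoc.anti {w : S →ₗ[ℝ] S →ₗ[ℝ] V} (h : IsCoc w) (x y : S) : w x y = - w y x := by
  have := h.1 (x + y)
  simp only [map_add, LinearMap.add_apply, h.1, zero_add, add_zero] at this
  rw [add_comm] at this
  exact eq_neg_of_add_eq_zero_left this

/-- Trivial coefficients. -/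
theorem h2_triv (htriv : ∀ (x : S) (v : V), ⁅x, v⁆ = 0) {w : S →ₗ[ℝ] S →ₗ[ℝ] V} (hw : IsCoc w) :
    ∃ θ : S →ₗ[ℝ] V, ∀ x y, w x y = - θ ⁅x, y⁆ := by
  classical
  have hnd := IsKilling.killingForm_nondegenerate ℝ S
  have key : ∀ φ : Dual ℝ V, ∃ z : S, ∀ x y, φ (w x y) = killingForm ℝ S z ⁅x, y⁆ := by
    intro φ
    let om : S →ₗ[ℝ] Dual ℝ S := LinearMap.mk₂ ℝ (fun x y => φ (w x y))
      (by intro a b c; simp) (by intro r a b; simp) (by intro a b c; simp) (by intro r a b; simp)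
    have hom : ∀ x y, om x y = φ (w x y) := fun x y => rfl
    let D : S →ₗ[ℝ] S := (LinearMap.BilinForm.toDual (killingForm ℝ S) hnd).symm.toLinearMap ∘ₗ om
    have hD : ∀ x y, killingForm ℝ S (D x) y = φ (w x y) := by
      intro x y
      have h1 : LinearMap.BilinForm.toDual (killingForm ℝ S) hnd (D x) = om x :=
        LinearEquiv.apply_symm_apply _ _
      rw [← hom, ← h1, LinearMap.BilinForm.toDual_def]
    have hcoc : ∀ x y z, φ (w ⁅x, y⁆ z) = φ (w x ⁅y, z⁆) - φ (w y ⁅x, z⁆) := by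
      intro x y z
      have h1 := hw.2 x y z
      rw [htriv, htriv, htriv] at h1
      rw [hw.anti x ⁅y, z⁆, hw.anti y ⁅x, z⁆, ← map_sub]
      congr 1
      have h2 : w ⁅x, y⁆ z = w ⁅x, z⁆ y - w ⁅y, z⁆ x := by
        rw [← sub_eq_zero, ← neg_eq_zero, ← h1]; abel
      rw [h2]; abel
    let D' : LieDerivation ℝ S S :=
      { toLinearMap := D
        leibniz' := by
          intro x y
          refine sub_eq_zero.1 (hnd.1 _ fun z => ?_)
          have e1 : killingForm ℝ S ⁅x, D y⁆ z = - φ (w y ⁅x, z⁆) := by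
            rw [← lie_skew, map_neg, LinearMap.neg_apply, traceForm_apply_lie_apply, hD]
          have e2 : killingForm ℝ S ⁅y, D x⁆ z = - φ (w x ⁅y, z⁆) := by
            rw [← lie_skew, map_neg, LinearMap.neg_apply, traceForm_apply_lie_apply, hD]
          rw [map_sub, map_sub, LinearMap.sub_apply, LinearMap.sub_apply, hD, e1, e2, hcoc]
          ring }
    obtain ⟨z, hz⟩ := LieDerivation.IsKilling.exists_eq_ad D'
    refine ⟨z, fun x y => ?_⟩
    have h1 : D x = ⁅z, x⁆ := by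
      have h2 := DFunLike.congr_fun hz x
      have h3 : D' x = D x := rfl
      rw [← h3, ← h2]
      exact congrArg (fun T : S →ₗ[ℝ] S => T x) (LieDerivation.coe_ad_apply_eq_ad_apply z)
    rw [← hD, h1, traceForm_apply_lie_apply]
  let b := finBasis ℝ V
  choose z hz using fun i => key (b.coord i)
  refine ⟨-∑ i, (killingForm ℝ S (z i)).smulRight (b i), fun x y => ?_⟩
  simp only [LinearMap.neg_apply, neg_neg, LinearMap.sum_apply, LinearMap.smulRight_apply]
  conv_lhs => rw [← b.sum_repr (w x y)]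
  refine Finset.sum_congr rfl fun i _ => ?_
  rw [← hz]
  rfl

section casimir

variable {I : LieIdeal ℝ S} {κ : Type*} [Fintype κ] [DecidableEq κ]
  (β : LinearMap.BilinForm ℝ I) (hβ : β.Nondegenerate)
  (hinv : ∀ (y : S) (x x' : I), β ⁅y, x⁆ x' = - β x ⁅y, x'⁆) (b : Basis κ ℝ I)

include hinv in
lemma cas_inv' {V' : Type*} [AddCommGroup V'] [Module ℝ V'] (f : S →ₗ[ℝ] S →ₗ[ℝ] V') (y : S) :
    ∑ i, f ⁅y, ((β.dualBasis hβ b i : I) : S)⁆ (b i : S)
      = - ∑ i, f ((β.dualBasis hβ b i : I) : S) ⁅y, (b i : S)⁆ := by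
  set d := β.dualBasis hβ b with hd
  have s1 : ∀ v : I, v = ∑ j, β v (b j) • d j := by
    intro v
    conv_lhs => rw [← d.sum_repr v]
    simp only [hd, LinearMap.BilinForm.dualBasis_repr_apply]
  have s2 : ∀ v : I, v = ∑ j, β (d j) v • b j := by
    intro v
    have : ∀ j, b.repr v j = β (d j) v := by
      intro j
      conv_rhs => rw [← b.sum_repr v]
      simp only [map_sum, map_smul, smul_eq_mul, hd, LinearMap.BilinForm.apply_dualBasis_left]
      simp
    conv_lhs => rw [← b.sum_repr v]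
    simp only [this]
  have e1 : ∀ i, f ⁅y, (d i : S)⁆ (b i : S) = ∑ j, β ⁅y, d i⁆ (b j) • f (d j : S) (b i : S) := by
    intro i
    have h1 : ⁅y, (d i : S)⁆ = ((⁅y, d i⁆ : I) : S) := rfl
    rw [h1]
    have h2 := congrArg I.toSubmodule.subtype (s1 ⁅y, d i⁆)
    simp only [map_sum, map_smul] at h2
    have h3 : ((⁅y, d i⁆ : I) : S) = ∑ j, β ⁅y, d i⁆ (b j) • (d j : S) := h2
    rw [h3]
    simp only [map_sum, map_smul, LinearMap.sum_apply, LinearMap.smul_apply]
  have e2 : ∀ i, f (d i : S) ⁅y, (b i : S)⁆ = ∑ j, β (d j) ⁅y, b i⁆ • f (d i : S) (b j : S) := by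
    intro i
    have h1 : ⁅y, (b i : S)⁆ = ((⁅y, b i⁆ : I) : S) := rfl
    rw [h1]
    have h2 := congrArg I.toSubmodule.subtype (s2 ⁅y, b i⁆)
    simp only [map_sum, map_smul] at h2
    have h3 : ((⁅y, b i⁆ : I) : S) = ∑ j, β (d j) ⁅y, b i⁆ • (b j : S) := h2
    rw [h3]
    simp only [map_sum, map_smul]
  simp only [e1, e2]
  rw [Finset.sum_comm, ← Finset.sum_neg_distrib]
  refine Finset.sum_congr rfl fun i _ => ?_
  rw [← Finset.sum_neg_distrib]
  refine Finset.sum_congr rfl fun j _ => ?_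
  rw [hinv, neg_smul]

end casimir

/-- Coefficients in an irreducible module on which an atom acts nontrivially. -/
theorem h2_atom (hirr : ∀ U : LieSubmodule ℝ S V, U = ⊥ ∨ U = ⊤) {I : LieIdeal ℝ S} (hI : IsAtom I)
    (hact : ∃ x ∈ I, ∃ v : V, ⁅x, v⁆ ≠ 0) {w : S →ₗ[ℝ] S →ₗ[ℝ] V} (hw : IsCoc w) :
    ∃ θ : S →ₗ[ℝ] V, ∀ x y, w x y = ⁅x, θ y⁆ - ⁅y, θ x⁆ - θ ⁅x, y⁆ := by
  classical
  -- the radical of the trace form on the atom
  let J : LieIdeal ℝ S :=
    { carrier := {x | x ∈ I ∧ ∀ y ∈ I, traceForm ℝ S V x y = 0}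
      add_mem' := by
        rintro a b ⟨ha, ha'⟩ ⟨hb, hb'⟩
        exact ⟨I.add_mem ha hb, fun y hy => by rw [map_add, LinearMap.add_apply, ha' y hy, hb' y hy,
          add_zero]⟩
      zero_mem' := ⟨I.zero_mem, fun y _ => by rw [map_zero, LinearMap.zero_apply]⟩
      smul_mem' := by
        rintro c a ⟨ha, ha'⟩
        exact ⟨I.smul_mem c ha, fun y hy => by rw [map_smul, LinearMap.smul_apply, ha' y hy,
          smul_zero]⟩
      lie_mem := by
        rintro z x ⟨hx, hx'⟩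
        refine ⟨lie_mem_right ℝ S I z x hx, fun y hy => ?_⟩
        rw [← lie_skew, map_neg, LinearMap.neg_apply, traceForm_apply_lie_apply,
          hx' _ (lie_mem_right ℝ S I z y hy), neg_zero] }
  have hJI : J ≤ I := fun x hx => hx.1
  have hmem : ∀ x, x ∈ J ↔ x ∈ I ∧ ∀ y ∈ I, traceForm ℝ S V x y = 0 := fun x => Iff.rfl
  have hsim : IsSimple ℝ I := IsSemisimple.isSimple_of_isAtom I hI
  have hJ : J = ⊥ := by
    rcases hI.le_iff.1 hJI with h | h
    · exact h
    · exfalso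
      have htr : traceForm ℝ I V = 0 := by
        refine LinearMap.ext fun x => LinearMap.ext fun y => ?_
        have hx : (x : S) ∈ J := by rw [h]; exact x.2
        exact ((hmem _).1 hx).2 y y.2
      have hnil := isNilpotent_derivedSeries_of_traceForm_eq_zero htr
      have hder : derivedSeries ℝ I 1 = ⊤ := by
        rcases IsSimple.eq_bot_or_eq_top (R := ℝ) (derivedSeries ℝ I 1) with h1 | h1
        · exfalso
          refine IsSimple.non_abelian (R := ℝ) (L := I) ⟨fun x y => ?_⟩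
          have h2 : ⁅x, y⁆ ∈ derivedSeries ℝ I 1 := by
            rw [derivedSeries_def, derivedSeriesOfIdeal_succ, derivedSeriesOfIdeal_zero]
            exact LieSubmodule.lie_mem_lie (LieSubmodule.mem_top x) (LieSubmodule.mem_top y)
          rw [h1, LieSubmodule.mem_bot] at h2
          exact h2
        · exact h1
      have hnil' : LieModule.IsNilpotent I V := by
        rw [LieModule.isNilpotent_iff_forall' (R := ℝ)] at hnil ⊢
        intro x
        have hx : x ∈ derivedSeries ℝ I 1 := by rw [hder]; exact LieSubmodule.mem_top x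
        exact hnil ⟨x, hx⟩
      obtain ⟨x₀, hx₀, v₀, hv₀⟩ := hact
      have hntV : Nontrivial V := ⟨⟨_, _, hv₀⟩⟩
      have hnt := LieModule.nontrivial_max_triv_of_isNilpotent ℝ I V
      let U : LieSubmodule ℝ S V :=
        { carrier := {v | ∀ x ∈ I, ⁅x, v⁆ = 0}
          add_mem' := by
            intro a b ha hb x hx
            rw [lie_add, ha x hx, hb x hx, add_zero]
          zero_mem' := fun x _ => lie_zero x
          smul_mem' := by
            intro c a ha x hx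
            rw [lie_smul, ha x hx, smul_zero]
          lie_mem := by
            intro z v hv x hx
            have h2 : ⁅x, ⁅z, v⁆⁆ = ⁅⁅x, z⁆, v⁆ + ⁅z, ⁅x, v⁆⁆ := leibniz_lie x z v
            rw [h2, hv x hx, lie_zero, add_zero]
            exact hv _ (lie_mem_left ℝ S I x z hx) }
      rcases hirr U with hU | hU
      · obtain ⟨⟨v, hv⟩, hv0⟩ := exists_ne (0 : LieModule.maxTrivSubmodule ℝ I V)
        apply hv0
        have hvU : v ∈ U := fun x hx => hv ⟨x, hx⟩
        rw [hU, LieSubmodule.mem_bot] at hvU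
        exact Subtype.ext hvU
      · have hvU : v₀ ∈ U := by rw [hU]; exact LieSubmodule.mem_top v₀
        exact hv₀ (hvU x₀ hx₀)
  -- the trace form on the atom
  let β : LinearMap.BilinForm ℝ I := LinearMap.mk₂ ℝ (fun x y => traceForm ℝ S V x y)
    (by intro a b c; simp) (by intro r a b; simp) (by intro a b c; simp) (by intro r a b; simp)
  have hβdef : ∀ x y, β x y = traceForm ℝ S V x y := fun _ _ => rfl
  have hsym : ∀ x y, β x y = β y x := fun x y => by
    rw [hβdef, hβdef, traceForm_comm]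
  have hl : ∀ x, (∀ y, β x y = 0) → x = 0 := by
    intro x hx
    have h1 : (x : S) ∈ J := ⟨x.2, fun y hy => hx ⟨y, hy⟩⟩
    rw [hJ, LieSubmodule.mem_bot] at h1
    exact Subtype.ext h1
  have hβ : β.Nondegenerate := ⟨hl, fun x hx => hl x fun y => by rw [hsym]; exact hx y⟩
  have hinv : ∀ (y : S) (x x' : I), β ⁅y, x⁆ x' = - β x ⁅y, x'⁆ := by
    intro y x x'
    rw [hβdef, hβdef]
    have h1 : (((⁅y, x⁆ : I)) : S) = ⁅y, (x : S)⁆ := rfl
    have h2 : (((⁅y, x'⁆ : I)) : S) = ⁅y, (x' : S)⁆ := rfl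
    rw [h1, h2, ← lie_skew, map_neg, LinearMap.neg_apply, traceForm_apply_lie_apply]
  let b := finBasis ℝ I
  set d := β.dualBasis hβ b with hd
  -- the Casimir operator
  let c : V →ₗ[ℝ] V := ∑ i, (toEnd ℝ S V (d i : S)) ∘ₗ (toEnd ℝ S V (b i : S))
  have hc : ∀ v, c v = ∑ i, ⁅(d i : S), ⁅(b i : S), v⁆⁆ := by
    intro v
    simp only [c, LinearMap.sum_apply, LinearMap.comp_apply, toEnd_apply_apply]
  have hcas : ∀ {V' : Type _} [AddCommGroup V'] [Module ℝ V'] (f : S →ₗ[ℝ] S →ₗ[ℝ] V') (y : S),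
      ∑ i, f ⁅y, (d i : S)⁆ (b i : S) = - ∑ i, f (d i : S) ⁅y, (b i : S)⁆ := by
    intro V' _ _ f y
    exact cas_inv' β hβ hinv b f y
  have hcomm : ∀ (y : S) (v : V), c ⁅y, v⁆ = ⁅y, c v⁆ := by
    intro y v
    let f : S →ₗ[ℝ] S →ₗ[ℝ] V := LinearMap.mk₂ ℝ (fun a a' => ⁅a, ⁅a', v⁆⁆)
      (by intro a b c; simp) (by intro r a b; simp) (by intro a b c; simp) (by intro r a b; simp)
    have hf : ∀ a a', f a a' = ⁅a, ⁅a', v⁆⁆ := fun _ _ => rfl
    have h1 := hcas f y
    simp only [hf] at h1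
    rw [hc, hc]
    have h2 : ⁅y, ∑ i, ⁅(d i : S), ⁅(b i : S), v⁆⁆⁆ = ∑ i, ⁅y, ⁅(d i : S), ⁅(b i : S), v⁆⁆⁆ :=
      map_sum (toEnd ℝ S V y) _ _
    rw [h2]
    have h3 : ∀ i, ⁅y, ⁅(d i : S), ⁅(b i : S), v⁆⁆⁆ = ⁅⁅y, (d i : S)⁆, ⁅(b i : S), v⁆⁆
        + ⁅(d i : S), ⁅⁅y, (b i : S)⁆, v⁆⁆ + ⁅(d i : S), ⁅(b i : S), ⁅y, v⁆⁆⁆ := by
      intro i
      rw [leibniz_lie y (d i : S), leibniz_lie y (b i : S) v, lie_add]
      abel
    simp only [h3, Finset.sum_add_distrib]
    rw [h1]; abel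
  have htrc : LinearMap.trace ℝ V c = finrank ℝ I := by
    have h1 : ∀ i, LinearMap.trace ℝ V ((toEnd ℝ S V (d i : S)) ∘ₗ (toEnd ℝ S V (b i : S))) = 1 := by
      intro i
      have h2 : β (d i) (b i) = 1 := by
        rw [hd, LinearMap.BilinForm.apply_dualBasis_left]; simp
      rw [hβdef, traceForm_apply_apply] at h2
      exact h2
    simp only [c, map_sum, h1, Finset.sum_const, Finset.card_univ, Fintype.card_fin, nsmul_eq_mul,
      mul_one]
  have hrank : (finrank ℝ I : ℝ) ≠ 0 := by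
    have : Nontrivial I := by
      rw [LieSubmodule.nontrivial_iff_ne_bot]; exact hI.1
    have := finrank_pos (R := ℝ) (M := I)
    positivity
  have hker : LinearMap.ker c = ⊥ := by
    let U : LieSubmodule ℝ S V :=
      { LinearMap.ker c with
        lie_mem := by
          intro y v hv
          have hv' : c v = 0 := hv
          change c ⁅y, v⁆ = 0
          rw [hcomm, hv', lie_zero] }
    rcases hirr U with hU | hU
    · rw [eq_bot_iff]
      intro v hv
      have h1 : v ∈ U := hv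
      rw [hU, LieSubmodule.mem_bot] at h1
      exact h1
    · exfalso
      have h1 : c = 0 := by
        refine LinearMap.ext fun v => ?_
        have h2 : v ∈ U := by rw [hU]; exact LieSubmodule.mem_top v
        exact h2
      rw [h1, map_zero] at htrc
      exact hrank htrc.symm
  let ce : V ≃ₗ[ℝ] V := LinearEquiv.ofInjectiveEndo c (LinearMap.ker_eq_bot.1 hker)
  have hce : ∀ v, ce v = c v := fun v => rfl
  have hsymm : ∀ (y : S) (v : V), ce.symm ⁅y, v⁆ = ⁅y, ce.symm v⁆ := by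
    intro y v
    rw [LinearEquiv.symm_apply_eq, hce, hcomm, ← hce, LinearEquiv.apply_symm_apply]
  let φ : S →ₗ[ℝ] V := ∑ i, (toEnd ℝ S V (d i : S)) ∘ₗ (w (b i : S))
  have hφ : ∀ z, φ z = ∑ i, ⁅(d i : S), w (b i : S) z⁆ := by
    intro z
    simp only [φ, LinearMap.sum_apply, LinearMap.comp_apply, toEnd_apply_apply]
  refine ⟨ce.symm.toLinearMap ∘ₗ φ, fun y z => ?_⟩
  have hmain : c (w y z) = ⁅y, φ z⁆ - ⁅z, φ y⁆ - φ ⁅y, z⁆ := by
    have key : ∀ i, ⁅(d i : S), ⁅(b i : S), w y z⁆⁆ =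
        ⁅y, ⁅(d i : S), w (b i : S) z⁆⁆ + ⁅⁅(d i : S), y⁆, w (b i : S) z⁆
        - ⁅z, ⁅(d i : S), w (b i : S) y⁆⁆ - ⁅⁅(d i : S), z⁆, w (b i : S) y⁆
        + ⁅(d i : S), w ⁅(b i : S), y⁆ z⁆ - ⁅(d i : S), w ⁅(b i : S), z⁆ y⁆
        - ⁅(d i : S), w (b i : S) ⁅y, z⁆⁆ := by
      intro i
      have c0 : ⁅(b i : S), w y z⁆ = ⁅y, w (b i : S) z⁆ - ⁅z, w (b i : S) y⁆
          + w ⁅(b i : S), y⁆ z - w ⁅(b i : S), z⁆ y - w (b i : S) ⁅y, z⁆ := by
        have h1 := hw.2 (b i : S) y z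
        rw [hw.anti (b i : S) ⁅y, z⁆, ← sub_eq_zero, ← h1]
        abel
      rw [c0]
      simp only [lie_add, lie_sub]
      rw [leibniz_lie (d i : S) y, leibniz_lie (d i : S) z]
      abel
    let g : S → S →ₗ[ℝ] S →ₗ[ℝ] V := fun z => LinearMap.mk₂ ℝ (fun a a' => ⁅a, w a' z⁆)
      (by intro a b c; simp) (by intro r a b; simp) (by intro a b c; simp) (by intro r a b; simp)
    have hg : ∀ z a a', g z a a' = ⁅a, w a' z⁆ := fun _ _ _ => rfl
    have i1 : ∀ y z, ∑ i, ⁅⁅(d i : S), y⁆, w (b i : S) z⁆ = - ∑ i, ⁅(d i : S), w ⁅(b i : S), y⁆ z⁆ := by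
      intro y z
      have h1 := hcas (g z) y
      simp only [hg] at h1
      have h2 : ∀ i, ⁅⁅(d i : S), y⁆, w (b i : S) z⁆ = - ⁅⁅y, (d i : S)⁆, w (b i : S) z⁆ := by
        intro i; rw [← lie_skew, neg_lie]
      have h3 : ∀ i, ⁅(d i : S), w ⁅(b i : S), y⁆ z⁆ = - ⁅(d i : S), w ⁅y, (b i : S)⁆ z⁆ := by
        intro i
        rw [← lie_skew (b i : S) y, map_neg, LinearMap.neg_apply, lie_neg]
      simp only [h2, h3, Finset.sum_neg_distrib, neg_neg, h1]
    rw [hc, Finset.sum_congr rfl (fun i _ => key i)]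
    simp only [Finset.sum_add_distrib, Finset.sum_sub_distrib]
    rw [i1 y z, i1 z y, hφ, hφ, hφ]
    have h2 : ∀ (y : S) (f : Fin (finrank ℝ I) → V), ⁅y, ∑ i, f i⁆ = ∑ i, ⁅y, f i⁆ :=
      fun y f => map_sum (toEnd ℝ S V y) _ _
    rw [h2, h2]
    abel
  have h1 : w y z = ce.symm (c (w y z)) := by
    rw [← hce, LinearEquiv.symm_apply_apply]
  rw [h1, hmain]
  simp only [map_sub, hsymm, LinearMap.comp_apply, LinearEquiv.coe_coe]

/-- Vanishing of the second cohomology. -/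
theorem h2_irr (hirr : ∀ U : LieSubmodule ℝ S V, U = ⊥ ∨ U = ⊤) {w : S →ₗ[ℝ] S →ₗ[ℝ] V}
    (hw : IsCoc w) :
    ∃ θ : S →ₗ[ℝ] V, ∀ x y, w x y = ⁅x, θ y⁆ - ⁅y, θ x⁆ - θ ⁅x, y⁆ := by
  by_cases h : ∃ I : LieIdeal ℝ S, IsAtom I ∧ ∃ x ∈ I, ∃ v : V, ⁅x, v⁆ ≠ 0
  · obtain ⟨I, hI, hact⟩ := h
    exact h2_atom hirr hI hact hw
  · push Not at h
    let K : LieIdeal ℝ S :=
      { carrier := {x | ∀ v : V, ⁅x, v⁆ = 0}
        add_mem' := by
          intro a b ha hb v
          rw [add_lie, ha v, hb v, add_zero]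
        zero_mem' := fun v => zero_lie v
        smul_mem' := by
          intro c a ha v
          rw [smul_lie, ha v, smul_zero]
        lie_mem := by
          intro z x hx v
          change ⁅⁅z, x⁆, v⁆ = 0
          rw [lie_lie, hx v, hx ⁅z, v⁆, lie_zero, sub_zero] }
    have hK : K = ⊤ := by
      rw [eq_top_iff, ← IsSemisimple.sSup_atoms_eq_top (R := ℝ) (L := S)]
      exact sSup_le fun I hI x hx v => h I hI x hx v
    have htriv : ∀ (x : S) (v : V), ⁅x, v⁆ = 0 := by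
      intro x v
      have h1 : x ∈ K := by rw [hK]; exact LieSubmodule.mem_top x
      exact h1 v
    obtain ⟨θ, hθ⟩ := h2_triv htriv hw
    exact ⟨θ, fun x y => by rw [hθ, htriv, htriv]; abel⟩

end H2

end Pool.Agent.TH77.AN
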