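import Pool.Agent.TH77.AN.LeviA
import Pool.Agent.TH77.Radical

/-!
The splitting theorem of Levi.
-/

set_option autoImplicit false
set_option linter.unusedSectionVars false

namespace Pool.Agent.TH77.AN

open LieAlgebra LieModule Module Pool.Agent.TH77.Br

universe u

lemma exists_lift_quot {L S : Type*} [LieRing L] [LieAlgebra ℝ L] [LieRing S] [LieAlgebra ℝ S]
    (I : LieIdeal ℝ L) (π : L →ₗ⁅ℝ⁆ S) (h : ∀ x ∈ I, π x = 0) :
    ∃ π' : L ⧸ I →ₗ⁅ℝ⁆ S, ∀ x, π' (pr I x) = π x := by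
  let f : L ⧸ I →ₗ[ℝ] S := I.toSubmodule.liftQ (π : L →ₗ[ℝ] S) h
  have hf : ∀ x, f (pr I x) = π x := fun x => Submodule.liftQ_apply _ _ _
  refine ⟨{ f with map_lie' := ?_ }, hf⟩
  intro a b
  obtain ⟨x, rfl⟩ := pr_surj I a
  obtain ⟨y, rfl⟩ := pr_surj I b
  change f ⁅pr I x, pr I y⁆ = ⁅f (pr I x), f (pr I y)⁆
  rw [← LieHom.map_lie, hf, hf, hf, LieHom.map_lie]

section abelian

variable {L S : Type*} [LieRing L] [LieAlgebra ℝ L] [FiniteDimensional ℝ L] [LieRing S]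
  [LieAlgebra ℝ S] [FiniteDimensional ℝ S] [IsKilling ℝ S]

theorem levi_min (π : L →ₗ⁅ℝ⁆ S) (hπ : Function.Surjective π)
    (hab : ∀ x ∈ π.ker, ∀ y ∈ π.ker, ⁅x, y⁆ = 0)
    (hmin : ∀ I : LieIdeal ℝ L, I ≤ π.ker → I = ⊥ ∨ I = π.ker) :
    ∃ σ : S →ₗ⁅ℝ⁆ L, ∀ x, π (σ x) = x := by
  obtain ⟨s, hs⟩ := (π : L →ₗ[ℝ] S).exists_rightInverse_of_surjective (LinearMap.range_eq_top.2 hπ)
  have hs' : ∀ x, π (s x) = x := fun x => LinearMap.congr_fun hs x
  have hmemker : ∀ x, x ∈ π.ker ↔ π x = 0 := fun x => LieHom.mem_ker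
  have hdiff : ∀ x y : S, ⁅s x, s y⁆ - s ⁅x, y⁆ ∈ π.ker := by
    intro x y
    rw [hmemker, map_sub, LieHom.map_lie, hs', hs', hs', sub_self]
  have habR : ∀ r ∈ π.ker, ∀ v : π.ker, ⁅r, v⁆ = 0 := by
    intro r hr v
    exact Subtype.ext (hab r hr v v.2)
  let i1 : LieRingModule S π.ker :=
    { bracket := fun x v => ⁅s x, v⁆
      add_lie := by
        intro x y v
        change ⁅s (x + y), v⁆ = ⁅s x, v⁆ + ⁅s y, v⁆
        rw [map_add, add_lie]
      lie_add := by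
        intro x v v'
        change ⁅s x, v + v'⁆ = ⁅s x, v⁆ + ⁅s x, v'⁆
        rw [lie_add]
      leibniz_lie := by
        intro x y v
        change ⁅s x, ⁅s y, v⁆⁆ = ⁅s ⁅x, y⁆, v⁆ + ⁅s y, ⁅s x, v⁆⁆
        rw [leibniz_lie (s x) (s y) v]
        congr 1
        have h1 := habR _ (hdiff x y) v
        rw [sub_lie, sub_eq_zero] at h1
        exact h1 }
  have hbr : ∀ (x : S) (v : π.ker), ⁅x, v⁆ = ⁅s x, v⁆ := fun _ _ => rfl
  let i2 : LieModule ℝ S π.ker :=
    { smul_lie := by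
        intro t x v
        rw [hbr, hbr, map_smul, smul_lie]
      lie_smul := by
        intro t x v
        rw [hbr, hbr, lie_smul] }
  let w : S →ₗ[ℝ] S →ₗ[ℝ] π.ker := LinearMap.mk₂ ℝ (fun x y => ⟨⁅s x, s y⁆ - s ⁅x, y⁆, hdiff x y⟩)
    (by intro a b c; apply Subtype.ext; simp [add_lie]; abel)
    (by intro r a b; apply Subtype.ext; simp [smul_sub])
    (by intro a b c; apply Subtype.ext; simp [lie_add]; abel)
    (by intro r a b; apply Subtype.ext; simp [smul_sub])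
  have hw : ∀ x y, ((w x y : π.ker) : L) = ⁅s x, s y⁆ - s ⁅x, y⁆ := fun _ _ => rfl
  have hcoc : IsCoc w := by
    constructor
    · intro x
      apply Subtype.ext
      rw [hw, lie_self, lie_self, map_zero, sub_zero]
      rfl
    · intro x y z
      apply Subtype.ext
      have e : ∀ (x : S) (v : π.ker), ((⁅x, v⁆ : π.ker) : L) = ⁅s x, (v : L)⁆ := fun _ _ => rfl
      simp only [LieSubmodule.coe_sub, LieSubmodule.coe_add, LieSubmodule.coe_zero, e, hw]
      have j1 : s ⁅⁅x, y⁆, z⁆ = s ⁅x, ⁅y, z⁆⁆ - s ⁅y, ⁅x, z⁆⁆ := by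
        rw [lie_lie, map_sub]
      have j2 : s ⁅⁅x, z⁆, y⁆ = s ⁅x, ⁅z, y⁆⁆ - s ⁅z, ⁅x, y⁆⁆ := by
        rw [lie_lie, map_sub]
      have j3 : s ⁅⁅y, z⁆, x⁆ = s ⁅y, ⁅z, x⁆⁆ - s ⁅z, ⁅y, x⁆⁆ := by
        rw [lie_lie, map_sub]
      have k1 : ⁅s x, ⁅s y, s z⁆⁆ = ⁅⁅s x, s y⁆, s z⁆ + ⁅s y, ⁅s x, s z⁆⁆ := leibniz_lie _ _ _
      have l1 : ⁅s z, ⁅s x, s y⁆⁆ = - ⁅⁅s x, s y⁆, s z⁆ := (lie_skew _ _).symm
      have l2 : ⁅s x, s ⁅y, z⁆⁆ = - ⁅s ⁅y, z⁆, s x⁆ := (lie_skew _ _).symm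
      have l3 : ⁅s y, s ⁅x, z⁆⁆ = - ⁅s ⁅x, z⁆, s y⁆ := (lie_skew _ _).symm
      have l4 : ⁅s z, s ⁅x, y⁆⁆ = - ⁅s ⁅x, y⁆, s z⁆ := (lie_skew _ _).symm
      have l5 : s ⁅x, ⁅z, y⁆⁆ = - s ⁅x, ⁅y, z⁆⁆ := by rw [← lie_skew y z, lie_neg, map_neg, neg_neg]
      have l6 : s ⁅y, ⁅z, x⁆⁆ = - s ⁅y, ⁅x, z⁆⁆ := by rw [← lie_skew x z, lie_neg, map_neg, neg_neg]
      have l7 : s ⁅z, ⁅y, x⁆⁆ = - s ⁅z, ⁅x, y⁆⁆ := by rw [← lie_skew x y, lie_neg, map_neg, neg_neg]
      have j0 : s ⁅z, ⁅x, y⁆⁆ = s ⁅y, ⁅x, z⁆⁆ - s ⁅x, ⁅y, z⁆⁆ := by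
        rw [leibniz_lie x y z, ← lie_skew z ⁅x, y⁆, map_add, map_neg]; abel
      simp only [lie_sub, j1, j2, j3, k1, l1, l2, l3, l4, l5, l6, l7, j0]
      abel
  have hirr : ∀ U : LieSubmodule ℝ S π.ker, U = ⊥ ∨ U = ⊤ := by
    intro U
    let J : LieIdeal ℝ L :=
      { U.toSubmodule.map π.ker.toSubmodule.subtype with
        lie_mem := by
          rintro x _ ⟨u, hu, rfl⟩
          refine ⟨⁅π x, u⁆, U.lie_mem hu, ?_⟩
          change ⁅s (π x), (u : L)⁆ = ⁅x, (u : L)⁆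
          have h1 : x - s (π x) ∈ π.ker := by rw [hmemker, map_sub, hs', sub_self]
          have h2 := hab _ h1 u u.2
          rw [sub_lie, sub_eq_zero] at h2
          exact h2.symm }
    have hmemJ : ∀ x, x ∈ J ↔ ∃ u ∈ U, (u : L) = x := fun x => Iff.rfl
    have hJ : J ≤ π.ker := by
      rintro x hx
      obtain ⟨u, -, rfl⟩ := (hmemJ x).1 hx
      exact u.2
    rcases hmin J hJ with h | h
    · left
      rw [LieSubmodule.eq_bot_iff]
      intro u hu
      have h1 : (u : L) ∈ J := (hmemJ _).2 ⟨u, hu, rfl⟩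
      rw [h, LieSubmodule.mem_bot] at h1
      exact Subtype.ext h1
    · right
      rw [eq_top_iff]
      intro u _
      have h1 : (u : L) ∈ J := by rw [h]; exact u.2
      obtain ⟨u', hu', h2⟩ := (hmemJ _).1 h1
      rwa [← Subtype.ext h2]
  obtain ⟨θ, hθ⟩ := h2_irr hirr hcoc
  let f : S →ₗ[ℝ] L := s - π.ker.toSubmodule.subtype ∘ₗ θ
  have hf : ∀ x, f x = s x - (θ x : L) := fun x => rfl
  refine ⟨{ f with map_lie' := ?_ }, ?_⟩
  · intro x y
    change f ⁅x, y⁆ = ⁅f x, f y⁆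
    have h1 := congrArg (fun v : π.ker => (v : L)) (hθ x y)
    simp only [LieSubmodule.coe_sub, hw] at h1
    have e : ∀ (x : S) (v : π.ker), ((⁅x, v⁆ : π.ker) : L) = ⁅s x, (v : L)⁆ := fun _ _ => rfl
    rw [e, e] at h1
    rw [hf, hf, hf, lie_sub, sub_lie, sub_lie, hab _ (θ x).2 _ (θ y).2, sub_zero,
      ← lie_skew (θ x : L) (s y)]
    have h2 : ⁅s x, s y⁆ = s ⁅x, y⁆ + (⁅s x, (θ y : L)⁆ - ⁅s y, (θ x : L)⁆ - (θ ⁅x, y⁆ : L)) := by
      rw [← h1]; abel
    rw [h2]; abel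
  · intro x
    change π (s x - (θ x : L)) = x
    have h1 : π (θ x : L) = 0 := (hmemker _).1 (θ x).2
    rw [map_sub, hs', h1, sub_zero]

end abelian

/-- **Levi's theorem**, as a splitting. -/
theorem levi {S : Type*} [LieRing S] [LieAlgebra ℝ S] [FiniteDimensional ℝ S] [IsKilling ℝ S]
    (n : ℕ) : ∀ {L : Type u} [LieRing L] [LieAlgebra ℝ L] [FiniteDimensional ℝ L]
    (π : L →ₗ⁅ℝ⁆ S), Function.Surjective π → IsSolvable π.ker → finrank ℝ L ≤ n →
    ∃ σ : S →ₗ⁅ℝ⁆ L, ∀ x, π (σ x) = x := by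
  induction n with
  | zero =>
    intro L _ _ _ π hπ _ hn
    have hsub : Subsingleton L := finrank_zero_iff.1 (Nat.le_zero.1 hn)
    refine ⟨0, fun x => ?_⟩
    obtain ⟨y, rfl⟩ := hπ x
    rw [Subsingleton.elim y 0, map_zero]
    exact map_zero π
  | succ n ih =>
    intro L _ _ _ π hπ hsol hn
    have hmemker : ∀ x, x ∈ π.ker ↔ π x = 0 := fun x => LieHom.mem_ker
    by_cases hex : ∃ I : LieIdeal ℝ L, I ≠ ⊥ ∧ I < π.ker
    · obtain ⟨I, hI0, hIR⟩ := hex
      obtain ⟨π', hπ'⟩ := exists_lift_quot I π (fun x hx => (hmemker x).1 (hIR.le hx))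
      have hπ's : Function.Surjective π' := by
        intro x
        obtain ⟨y, rfl⟩ := hπ x
        exact ⟨pr I y, hπ' y⟩
      have hsol' : IsSolvable π'.ker := by
        have hm : ∀ x : π.ker, pr I (x : L) ∈ π'.ker := by
          intro x
          rw [LieHom.mem_ker, hπ']
          exact (hmemker _).1 x.2
        let g : π.ker →ₗ⁅ℝ⁆ π'.ker :=
          { toFun := fun x => ⟨pr I (x : L), hm x⟩
            map_add' := by intro a b; apply Subtype.ext; simp
            map_smul' := by intro a b; apply Subtype.ext; simp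
            map_lie' := by
              intro a b
              apply Subtype.ext
              change pr I ⁅(a : L), (b : L)⁆ = ⁅pr I (a : L), pr I (b : L)⁆
              rw [LieHom.map_lie] }
        refine Function.Surjective.lieAlgebra_isSolvable (f := g) ?_
        rintro ⟨y, hy⟩
        obtain ⟨x, rfl⟩ := pr_surj I y
        rw [LieHom.mem_ker, hπ'] at hy
        exact ⟨⟨x, (hmemker x).2 hy⟩, rfl⟩
      have hIpos : 0 < finrank ℝ I := by
        have : Nontrivial I := by rw [LieSubmodule.nontrivial_iff_ne_bot]; exact hI0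
        exact finrank_pos
      have hdim : finrank ℝ (L ⧸ I) ≤ n := by
        have h1 : finrank ℝ (L ⧸ I.toSubmodule) + finrank ℝ I.toSubmodule = finrank ℝ L :=
          Submodule.finrank_quotient_add_finrank _
        have h2 : 0 < finrank ℝ I.toSubmodule := hIpos
        have h3 : finrank ℝ (L ⧸ I) = finrank ℝ (L ⧸ I.toSubmodule) := rfl
        omega
      obtain ⟨σ', hσ'⟩ := ih π' hπ's hsol' hdim
      let L' : LieSubalgebra ℝ L := (σ'.range).comap (pr I)
      have hmemL' : ∀ x, x ∈ L' ↔ ∃ y, σ' y = pr I x := fun x => Iff.rfl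
      have hL' : ∀ x ∈ L', π x = 0 → x ∈ I := by
        intro x hx hx0
        obtain ⟨y, hy⟩ := (hmemL' x).1 hx
        have h1 : y = 0 := by
          rw [← hσ' y, hy, hπ', hx0]
        rw [h1, map_zero] at hy
        exact (pr_eq_zero I x).1 hy.symm
      let π₁ : L' →ₗ⁅ℝ⁆ S := π.comp L'.incl
      have hπ₁ : ∀ x : L', π₁ x = π (x : L) := fun x => rfl
      have hπ₁s : Function.Surjective π₁ := by
        intro y
        obtain ⟨x, hx⟩ := pr_surj I (σ' y)
        refine ⟨⟨x, (hmemL' x).2 ⟨y, hx.symm⟩⟩, ?_⟩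
        rw [hπ₁]
        change π x = y
        rw [← hπ', hx, hσ']
      have hsol₁ : IsSolvable π₁.ker := by
        have hm : ∀ x : π₁.ker, ((x : L') : L) ∈ π.ker := by
          intro x
          rw [hmemker]
          exact LieHom.mem_ker.1 x.2
        let g : π₁.ker →ₗ⁅ℝ⁆ π.ker :=
          { toFun := fun x => ⟨((x : L') : L), hm x⟩
            map_add' := by intro a b; apply Subtype.ext; simp
            map_smul' := by intro a b; apply Subtype.ext; simp
            map_lie' := by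
              intro a b
              rfl }
        refine Function.Injective.lieAlgebra_isSolvable (f := g) ?_
        intro a b hab
        have h1 := congrArg (fun z : π.ker => (z : L)) hab
        exact Subtype.ext (Subtype.ext h1)
      have hdim₁ : finrank ℝ L' ≤ n := by
        have hlt : L'.toSubmodule < ⊤ := by
          rw [lt_top_iff_ne_top]
          intro htop
          refine hIR.not_ge fun x hx => ?_
          refine hL' x ?_ ((hmemker x).1 hx)
          have : x ∈ L'.toSubmodule := by rw [htop]; exact Submodule.mem_top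
          exact this
        have h1 := Submodule.finrank_lt hlt.ne
        have h2 : finrank ℝ L' = finrank ℝ L'.toSubmodule := rfl
        omega
      obtain ⟨σ₁, hσ₁⟩ := ih π₁ hπ₁s hsol₁ hdim₁
      exact ⟨L'.incl.comp σ₁, fun x => hσ₁ x⟩
    · push Not at hex
      have hmin : ∀ I : LieIdeal ℝ L, I ≤ π.ker → I = ⊥ ∨ I = π.ker := by
        intro I hI
        by_cases h0 : I = ⊥
        · exact Or.inl h0
        · right
          by_contra hne
          exact hex I h0 (lt_of_le_of_ne hI hne)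
      have hab : ∀ x ∈ π.ker, ∀ y ∈ π.ker, ⁅x, y⁆ = 0 := by
        rcases hmin ⁅π.ker, π.ker⁆ (LieSubmodule.lie_le_left _ _) with h | h
        · intro x hx y hy
          have h1 := LieSubmodule.lie_mem_lie hx hy
          rw [h, LieSubmodule.mem_bot] at h1
          exact h1
        · obtain ⟨k, hk⟩ := IsSolvable.solvable ℝ π.ker
          rw [LieIdeal.derivedSeries_eq_bot_iff] at hk
          have h2 : ∀ j, derivedSeriesOfIdeal ℝ L j π.ker = π.ker := by
            intro j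
            induction j with
            | zero => rfl
            | succ j ihj => rw [derivedSeriesOfIdeal_succ, ihj, h]
          rw [h2] at hk
          intro x hx y hy
          rw [hk, LieSubmodule.mem_bot] at hx
          rw [hx, zero_lie]
      exact levi_min π hπ hab hmin

end Pool.Agent.TH77.AN
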