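import Pool.Agent.TH77.StarB
import Pool.Agent.TH75.J877

/-!
# Central directions, and uniqueness of nilpotent logarithms along connected sets
-/

set_option linter.unusedSectionVars false
set_option linter.style.haveILetI false

open Filter Topology Metric Set

namespace Pool.Agent.TH77
open Pool.Agent.TH77.AN

namespace LG

variable {H : Type*} [Group H] [TopologicalSpace H] [IsTopologicalGroup H] [T2Space H]
  {E : Type*} [NormedAddCommGroup E] [NormedSpace ℝ E] [FiniteDimensional ℝ E] (L : LG H E)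

lemma exp_add_of_commute {x y : E} (h : ∀ s t : ℝ, Commute (L.exp (s • x)) (L.exp (t • y))) :
    L.exp (x + y) = L.exp x * L.exp y := by
  have h1 := L.trotter x y
  have h2 : (fun n : ℕ => (L.exp ((1 / ((n : ℝ) + 1)) • x) * L.exp ((1 / ((n : ℝ) + 1)) • y)) ^
      (n + 1)) = fun _ => L.exp x * L.exp y := by
    funext n
    have hs1 : ((n + 1 : ℕ) : ℝ) * (1 / ((n : ℝ) + 1)) = 1 := by push_cast; field_simp
    rw [(h _ _).mul_pow, ← L.exp_nsmul, ← L.exp_nsmul, ← Nat.cast_smul_eq_nsmul ℝ,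
      ← Nat.cast_smul_eq_nsmul ℝ, smul_smul, smul_smul, hs1, one_smul, one_smul]
  rw [h2] at h1
  exact tendsto_nhds_unique tendsto_const_nhds h1 |>.symm

lemma commute_of_Ad {a : H} (ha : L.Ad a = 1) (x : E) : Commute a (L.exp x) := by
  have h1 := L.Ad_spec a x
  rw [ha] at h1
  change a * L.exp x * a⁻¹ = L.exp x at h1
  exact mul_inv_eq_iff_eq_mul.1 h1

lemma commute_all_of_Ad (hgen : L.gen univ = ⊤) {a : H} (ha : L.Ad a = 1) (g : H) : Commute a g := by
  have hg : g ∈ L.gen univ := by rw [hgen]; trivial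
  refine L.gen_induction (m := univ) (P := fun g => Commute a g) (fun x _ => mem_univ _) ?_ ?_ hg
  · exact Commute.one_right a
  · intro x _ g hg
    exact (L.commute_of_Ad ha x).mul_right hg

lemma Ad_exp_of_ad {z : E} (hz : L.ad z = 0) : L.Ad (L.exp z) = 1 := by
  ext1
  rw [L.Ad_exp, hz, NormedSpace.exp_zero]; rfl

lemma exp_add_central {z : E} (hz : L.ad z = 0) (x : E) : L.exp (x + z) = L.exp x * L.exp z := by
  refine L.exp_add_of_commute fun s t => ?_
  have h1 : L.ad (t • z) = 0 := by rw [map_smul, hz, smul_zero]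
  exact (L.commute_of_Ad (L.Ad_exp_of_ad h1) _).symm

/-- Uniqueness of nilpotent logarithms along connected sets. -/
theorem lift_unique {T : Type*} [TopologicalSpace T] [PreconnectedSpace T] {ν ν' : T → E}
    (hν : Continuous ν) (hν' : Continuous ν') (hn : ∀ t, IsNilpotent (L.ad (ν t)))
    (hn' : ∀ t, IsNilpotent (L.ad (ν' t))) (he : ∀ t, L.exp (ν t) = L.exp (ν' t)) {t₀ : T}
    (h0 : ν t₀ = ν' t₀) : ν = ν' := by
  have had : ∀ t, L.ad (ν t) = L.ad (ν' t) := fun t => by
    refine exp_inj_nil (hn t) (hn' t) ?_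
    rw [← L.Ad_exp, ← L.Ad_exp, he]
  have hz : ∀ t, L.ad (ν' t - ν t) = 0 := fun t => by rw [map_sub, had, sub_self]
  have hexp : ∀ t, L.exp (ν' t - ν t) = 1 := fun t => by
    have h1 := L.exp_add_central (hz t) (ν t)
    rw [add_sub_cancel, ← he t] at h1
    exact left_eq_mul.1 h1
  obtain ⟨r, hr, hinj⟩ := L.inj
  have hsmall : ∀ z : E, ‖z‖ < r → L.exp z = 1 → z = 0 := by
    intro z hz hz1
    refine hinj (by simpa using hz) (by simpa using hr) ?_
    rw [hz1, L.exp_zero]
  have hclopen : IsClopen {t | ν t = ν' t} := by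
    refine ⟨isClosed_eq hν hν', ?_⟩
    rw [isOpen_iff_mem_nhds]
    intro t (ht : ν t = ν' t)
    have h1 : Tendsto (fun s => ‖ν' s - ν s‖) (𝓝 t) (𝓝 0) := by
      have : Continuous fun s => ‖ν' s - ν s‖ := (hν'.sub hν).norm
      exact this.tendsto' t 0 (by rw [ht, sub_self, norm_zero])
    filter_upwards [h1.eventually (gt_mem_nhds hr)] with s hs
    exact (sub_eq_zero.1 (hsmall _ hs (hexp s))).symm
  have h2 := hclopen.eq_univ ⟨t₀, h0⟩
  funext t
  exact (h2 ▸ mem_univ t : t ∈ {t | ν t = ν' t})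

end LG

end Pool.Agent.TH77
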