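import Pool.Agent.TH77.AN.NilA
import Pool.Agent.TH402.J878

/-!
# The nilpotent ideal of a flag, and lifting of maps through its exponential
-/

set_option linter.unusedSectionVars false
set_option linter.style.haveILetI false

open Filter Topology Metric Set

namespace Pool.Agent.TH77
open Pool.Agent.TH77.AN

/-- A complete descending flag. -/
structure IsFlag {E : Type*} [AddCommGroup E] [Module ℝ E] (V : ℕ → Submodule ℝ E) (m : ℕ) : Prop where
  zero : V 0 = ⊤
  mono : ∀ k, V (k + 1) ≤ V k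
  bot : V m = ⊥

/-- Strictly filtered operators. -/
def Str {E : Type*} [NormedAddCommGroup E] [NormedSpace ℝ E] (V : ℕ → Submodule ℝ E) :
    Submodule ℝ (E →L[ℝ] E) where
  carrier := {n | ∀ k, ∀ v ∈ V k, n v ∈ V (k + 1)}
  add_mem' := fun ha hb k v hv => (V (k + 1)).add_mem (ha k v hv) (hb k v hv)
  zero_mem' := fun k _ _ => (V (k + 1)).zero_mem
  smul_mem' := fun c _ hx k v hv => (V (k + 1)).smul_mem c (hx k v hv)

section str
variable {E : Type*} [NormedAddCommGroup E] [NormedSpace ℝ E] {V : ℕ → Submodule ℝ E} {m : ℕ}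

lemma mem_Str {n : E →L[ℝ] E} : n ∈ Str V ↔ ∀ k, ∀ v ∈ V k, n v ∈ V (k + 1) := Iff.rfl

lemma Str_nilp (hV : IsFlag V m) {n : E →L[ℝ] E} (hn : n ∈ Str V) : IsNilpotent n := by
  refine ⟨m, ?_⟩
  have h1 : ∀ j, ∀ v, (n ^ j) v ∈ V j := by
    intro j
    induction j with
    | zero => intro v; rw [hV.zero]; trivial
    | succ j ih =>
      intro v
      rw [pow_succ']
      exact hn j _ (ih v)
  ext v
  have h2 := h1 m v
  rw [hV.bot, Submodule.mem_bot] at h2
  exact h2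

lemma exp_Str [FiniteDimensional ℝ E] (hV : IsFlag V m) {n : E →L[ℝ] E} (hn : n ∈ Str V) (k : ℕ) (v : E) (hv : v ∈ V k) :
    NormedSpace.exp n v - v ∈ V (k + 1) :=
  exp_sub_mem n (V (k + 1)) (fun y hy => hV.mono _ (hn _ y hy)) v (hn k v hv)

end str

namespace LG

variable {H : Type*} [Group H] [TopologicalSpace H] [IsTopologicalGroup H] [T2Space H]
  {E : Type*} [NormedAddCommGroup E] [NormedSpace ℝ E] [FiniteDimensional ℝ E] (L : LG H E)
  {V : ℕ → Submodule ℝ E} {m : ℕ}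

/-- the nilpotent ideal of a flag -/
noncomputable def nn (V : ℕ → Submodule ℝ E) : Submodule ℝ E := (Str V).comap L.ad

lemma mem_nn {x : E} : x ∈ L.nn V ↔ ∀ k, ∀ v ∈ V k, L.ad x v ∈ V (k + 1) := Iff.rfl

lemma nn_nilp (hV : IsFlag V m) {x : E} (hx : x ∈ L.nn V) : IsNilpotent (L.ad x) :=
  Str_nilp hV hx

/-- The ad-invariance of a flag. -/
def Inv (V : ℕ → Submodule ℝ E) : Prop := ∀ k, ∀ x, ∀ v ∈ V k, L.ad x v ∈ V k

lemma Ad_V (hgen : L.gen univ = ⊤) (hi : L.Inv V) (a : H) {k : ℕ} {v : E} (hv : v ∈ V k) :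
    (L.Ad a : E →L[ℝ] E) v ∈ V k := L.Ad_mem hgen (V k) (hi k) a v hv

/-- the group acting unipotently on the flag -/
def NG (hgen : L.gen univ = ⊤) (hi : L.Inv V) : Subgroup H where
  carrier := {a | ∀ k, ∀ v ∈ V k, (L.Ad a : E →L[ℝ] E) v - v ∈ V (k + 1)}
  mul_mem' := by
    intro a b ha hb k v hv
    have h1 := ha k _ (L.Ad_V hgen hi b hv)
    have h2 := (V (k + 1)).add_mem h1 (hb k v hv)
    rw [map_mul, Units.val_mul]
    change (L.Ad a : E →L[ℝ] E) ((L.Ad b : E →L[ℝ] E) v) - v ∈ V (k + 1)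
    simpa using h2
  one_mem' := by
    intro k v _
    rw [map_one]
    change v - v ∈ _
    rw [sub_self]; exact (V (k + 1)).zero_mem
  inv_mem' := by
    intro a ha k v hv
    have h1 := ha k _ (L.Ad_V hgen hi a⁻¹ hv)
    have h2 : (L.Ad a : E →L[ℝ] E) ((L.Ad a⁻¹ : E →L[ℝ] E) v) = v := by
      have : (L.Ad a * L.Ad a⁻¹ : (E →L[ℝ] E)ˣ) = 1 := by rw [← map_mul, mul_inv_cancel, map_one]
      exact congrArg (fun u : (E →L[ℝ] E)ˣ => (u : E →L[ℝ] E) v) this
    rw [h2] at h1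
    have h3 := (V (k + 1)).neg_mem h1
    rwa [neg_sub] at h3

lemma mem_NG {hgen : L.gen univ = ⊤} {hi : L.Inv V} {a : H} :
    a ∈ L.NG hgen hi ↔ ∀ k, ∀ v ∈ V k, (L.Ad a : E →L[ℝ] E) v - v ∈ V (k + 1) := Iff.rfl

lemma isClosed_NG (hgen : L.gen univ = ⊤) (hi : L.Inv V) : IsClosed (L.NG hgen hi : Set H) := by
  have : (L.NG hgen hi : Set H) = ⋂ k : ℕ, ⋂ v : V k,
      {a | (L.Ad a : E →L[ℝ] E) (v : E) - v ∈ (V (k + 1) : Set E)} := by
    ext a
    simp only [mem_iInter, mem_ofPred_eq]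
    exact ⟨fun h k v => h k v v.2, fun h k v hv => h k ⟨v, hv⟩⟩
  rw [this]
  have hv : Continuous fun a : H => (L.Ad a : E →L[ℝ] E) := Units.continuous_val.comp L.continuous_Ad
  refine isClosed_iInter fun k => isClosed_iInter fun v => ?_
  exact (Submodule.closed_of_finiteDimensional (V (k + 1))).preimage
    ((hv.clm_apply continuous_const).sub continuous_const)

lemma lie_NG (hgen : L.gen univ = ⊤) (hi : L.Inv V) (hV : IsFlag V m) :
    L.lie (L.NG hgen hi) (L.isClosed_NG hgen hi) = L.nn V := by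
  ext x
  rw [L.mem_lie, L.mem_nn]
  constructor
  · intro h k v hv
    have h1 : HasDerivAt (fun t : ℝ => NormedSpace.exp (t • L.ad x) v - v) (L.ad x v) 0 :=
      (op_hasDerivAt (L.ad x) v).sub_const v
    have h2 := hasDerivAt_iff_tendsto_slope_zero.1 h1
    refine (Submodule.closed_of_finiteDimensional (V (k + 1))).mem_of_tendsto h2
      (Eventually.of_forall fun t => ?_)
    have h3 : ∀ t : ℝ, NormedSpace.exp (t • L.ad x) v - v ∈ V (k + 1) := by
      intro t
      rw [← map_smul, ← L.Ad_exp]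
      exact h t k v hv
    exact (V (k + 1)).smul_mem _ ((V (k + 1)).sub_mem (h3 _) (h3 _))
  · intro h t k v hv
    have h1 : L.ad (t • x) ∈ Str V := by rw [map_smul]; exact (Str V).smul_mem t h
    rw [L.Ad_exp]
    exact exp_Str hV h1 k v hv

lemma nn_ideal (hi : L.Inv V) (x : E) {y : E} (hy : y ∈ L.nn V) : L.ad x y ∈ L.nn V := by
  intro k v hv
  have h1 : L.ad (L.ad x y) v = L.ad x (L.ad y v) - L.ad y (L.ad x v) := by
    rw [L.jacobi x y v]; abel
  rw [h1]
  exact (V (k + 1)).sub_mem (hi _ x _ (hy k v hv)) (hy k _ (hi k x v hv))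

lemma nn_Ad (hgen : L.gen univ = ⊤) (hi : L.Inv V) (a : H) {y : E} (hy : y ∈ L.nn V) :
    (L.Ad a : E →L[ℝ] E) y ∈ L.nn V :=
  L.Ad_mem hgen (L.nn V) (fun x _ hy => L.nn_ideal hi x hy) a y hy

end LG

end Pool.Agent.TH77
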