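import Pool.Agent.TH77.AN.NilB
import Pool.Agent.TH77.ProdLie

/-!
# Lifting of maps through the exponential of the nilpotent ideal
-/

set_option linter.unusedSectionVars false
set_option linter.style.haveILetI false

open Filter Topology Metric Set

namespace Pool.Agent.TH77
open Pool.Agent.TH77.AN

namespace LG

variable {H : Type*} [Group H] [TopologicalSpace H] [IsTopologicalGroup H] [T2Space H]
  {E : Type*} [NormedAddCommGroup E] [NormedSpace ℝ E] [FiniteDimensional ℝ E] (L : LG H E)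
  {V : ℕ → Submodule ℝ E} {m : ℕ}

lemma exp_analyticAt {F : Type*} [NormedRing F] [NormedAlgebra ℝ F] [CompleteSpace F] (x : F) :
    AnalyticAt ℝ (NormedSpace.exp : F → F) x := by
  exact NormedSpace.exp_analytic x

lemma mul_unip {a b : E →L[ℝ] E} (hV : IsFlag V m) (ha : a ∈ Str V) (hb : b ∈ Str V) (k : ℕ) (v : E)
    (hv : v ∈ V k) : (NormedSpace.exp a * NormedSpace.exp b) v - v ∈ V (k + 1) := by
  have h1 := exp_Str hV hb k v hv
  have h2 : NormedSpace.exp b v ∈ V k := by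
    have := (V k).add_mem (hV.mono k h1) hv
    simpa using this
  have h3 := exp_Str hV ha k _ h2
  have h4 := (V (k + 1)).add_mem h3 h1
  change NormedSpace.exp a (NormedSpace.exp b v) - v ∈ V (k + 1)
  simpa using h4

/-- The logarithm of a product of exponentials of elements of the nilpotent ideal is inner. -/
lemma log_mem (hgen : L.gen univ = ⊤) (hi : L.Inv V) (hV : IsFlag V m)
    {Λ : (E →L[ℝ] E) → (E →L[ℝ] E)} (hΛ : AnalyticOnNhd ℝ Λ univ)
    (hΛ' : ∀ u : E →L[ℝ] E, (∀ k, ∀ v ∈ V k, u v - v ∈ V (k + 1)) →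
        (∀ k, ∀ v ∈ V k, Λ u v ∈ V (k + 1)) ∧ NormedSpace.exp (Λ u) = u)
    {X Y : E} (hX : X ∈ L.nn V) (hY : Y ∈ L.nn V) :
    Λ (NormedSpace.exp (L.ad X) * NormedSpace.exp (L.ad Y)) ∈ (L.nn V).map L.ad := by
  have hΛexp : ∀ n ∈ Str V, Λ (NormedSpace.exp n) = n := by
    intro n hn
    obtain ⟨h1, h2⟩ := hΛ' (NormedSpace.exp n) (exp_Str hV hn)
    exact exp_inj_nil (Str_nilp hV h1) (Str_nilp hV hn) h2
  -- eventually along the segment
  have hev : ∀ᶠ t in 𝓝 (0 : ℝ), Λ (NormedSpace.exp (t • L.ad X) * NormedSpace.exp (t • L.ad Y)) ∈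
      (L.nn V).map L.ad := by
    obtain ⟨r, hr, hlie⟩ := L.exists_ball_mem_lie (L.NG hgen hi) (L.isClosed_NG hgen hi)
    rw [L.lie_NG hgen hi hV] at hlie
    have hc : Tendsto (fun t : ℝ => ((t • X, t • Y) : E × E)) (𝓝 0) (𝓝 0) := by
      have : Continuous fun t : ℝ => ((t • X, t • Y) : E × E) := by fun_prop
      exact this.tendsto' 0 0 (by simp)
    have h1 : ∀ᶠ t in 𝓝 (0 : ℝ), ‖L.mul (t • X, t • Y)‖ < r := by
      have h2 := (L.mul_continuousAt_zero.comp hc).norm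
      rw [norm_zero] at h2
      exact h2.eventually (gt_mem_nhds hr)
    filter_upwards [h1, hc.eventually L.exp_mul] with t ht1 ht2
    have hmemX : t • X ∈ L.nn V := (L.nn V).smul_mem t hX
    have hmemY : t • Y ∈ L.nn V := (L.nn V).smul_mem t hY
    have hsub : ∀ Z ∈ L.nn V, L.exp Z ∈ L.NG hgen hi := by
      intro Z hZ
      rw [← L.lie_NG hgen hi hV] at hZ
      exact L.exp_mem_of_mem_lie hZ
    have h3 : L.exp (L.mul (t • X, t • Y)) ∈ L.NG hgen hi := by
      rw [← ht2]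
      exact (L.NG hgen hi).mul_mem (hsub _ hmemX) (hsub _ hmemY)
    have h4 : L.mul (t • X, t • Y) ∈ L.nn V := hlie _ ht1 h3
    have h5 : NormedSpace.exp (t • L.ad X) * NormedSpace.exp (t • L.ad Y) =
        NormedSpace.exp (L.ad (L.mul (t • X, t • Y))) := by
      rw [← L.Ad_exp, ← ht2, map_mul, Units.val_mul, L.Ad_exp, L.Ad_exp, map_smul, map_smul]
    rw [h5, hΛexp _ h4]
    exact ⟨_, h4, rfl⟩
  refine (Subspace.forall_mem_dualAnnihilator_apply_eq_zero_iff _ _).1 fun φ hφ => ?_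
  have hφ' : ∀ w ∈ (L.nn V).map L.ad, φ w = 0 := (Submodule.mem_dualAnnihilator φ).1 hφ
  let F : ℝ → ℝ := fun t => φ (Λ (NormedSpace.exp (t • L.ad X) * NormedSpace.exp (t • L.ad Y)))
  have hF : AnalyticOnNhd ℝ F univ := by
    intro t _
    have e1 : ∀ Z : E, AnalyticAt ℝ (fun t : ℝ => NormedSpace.exp (t • L.ad Z)) t := by
      intro Z
      have e0 : AnalyticAt ℝ (fun t : ℝ => t • L.ad Z) t := analyticAt_id.smul analyticAt_const
      exact AnalyticAt.fun_comp (g := NormedSpace.exp) (f := fun t : ℝ => t • L.ad Z)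
        (exp_analyticAt (F := E →L[ℝ] E) (t • L.ad Z)) e0
    have e2 : AnalyticAt ℝ (fun t : ℝ => NormedSpace.exp (t • L.ad X) * NormedSpace.exp (t • L.ad Y)) t :=
      (e1 X).mul (e1 Y)
    have e3 := AnalyticAt.fun_comp (g := Λ) (f := fun t : ℝ => NormedSpace.exp (t • L.ad X) *
      NormedSpace.exp (t • L.ad Y)) (hΛ _ (mem_univ _)) e2
    exact AnalyticAt.fun_comp (g := LinearMap.toContinuousLinearMap φ)
      ((LinearMap.toContinuousLinearMap φ).analyticAt _) e3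
  have h0 : F =ᶠ[𝓝 0] 0 := by
    filter_upwards [hev] with t ht
    exact hφ' _ ht
  have h1 := hF.eqOn_zero_of_preconnected_of_eventuallyEq_zero isPreconnected_univ (mem_univ 0) h0
    (mem_univ (1 : ℝ))
  simpa [F] using h1

lemma Ad_gen_nn (hgen : L.gen univ = ⊤) (hi : L.Inv V) (hV : IsFlag V m) {a : H}
    (ha : a ∈ L.gen (L.nn V : Set E)) :
    ∃ X ∈ L.nn V, (L.Ad a : E →L[ℝ] E) = NormedSpace.exp (L.ad X) := by
  obtain ⟨Λ, hΛ, hΛ'⟩ := exists_ulog V hV.zero hV.mono m hV.bot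
  refine L.gen_induction (m := (L.nn V : Set E)) (P := fun a => ∃ X ∈ L.nn V,
    (L.Ad a : E →L[ℝ] E) = NormedSpace.exp (L.ad X)) (fun x hx => (L.nn V).neg_mem hx) ?_ ?_ ha
  · refine ⟨0, (L.nn V).zero_mem, ?_⟩
    rw [map_one, map_zero, NormedSpace.exp_zero]; rfl
  · rintro x hx g ⟨Y, hY, hg⟩
    obtain ⟨Z, hZ, hZe⟩ := L.log_mem hgen hi hV hΛ hΛ' hx hY
    refine ⟨Z, hZ, ?_⟩
    rw [hZe, (hΛ' _ (mul_unip hV hx hY)).2, map_mul, Units.val_mul, L.Ad_exp, hg]

/-- The centre as the kernel of `Ad`. -/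
lemma isClosed_kerAd : IsClosed (L.Ad.ker : Set H) := by
  have : (L.Ad.ker : Set H) = L.Ad ⁻¹' {1} := by ext a; exact MonoidHom.mem_ker
  rw [this]
  exact isClosed_singleton.preimage L.continuous_Ad

lemma lie_kerAd : L.lie L.Ad.ker L.isClosed_kerAd = LinearMap.ker L.ad := by
  ext x
  rw [L.mem_lie, LinearMap.mem_ker]
  constructor
  · intro h
    refine op_eq_of_forall_exp fun t => ?_
    have h1 := h t
    rw [MonoidHom.mem_ker] at h1
    rw [← map_smul, ← L.Ad_exp, h1, smul_zero, NormedSpace.exp_zero]; rfl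
  · intro h t
    rw [MonoidHom.mem_ker]
    exact L.Ad_exp_of_ad (by rw [map_smul, h, smul_zero])

lemma gen_kerad {a : H} (ha : a ∈ L.gen (LinearMap.ker L.ad : Set E)) :
    ∃ z : LinearMap.ker L.ad, L.exp z = a := by
  refine L.gen_induction (m := (LinearMap.ker L.ad : Set E)) (P := fun a =>
    ∃ z : LinearMap.ker L.ad, L.exp z = a) (fun x hx => (LinearMap.ker L.ad).neg_mem hx) ?_ ?_ ha
  · exact ⟨0, L.exp_zero⟩
  · rintro x hx g ⟨z, hz⟩
    refine ⟨⟨x, hx⟩ + z, ?_⟩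
    rw [← hz]
    exact L.exp_add_central z.2 x

/-- Lifting of maps with values in the unipotent group. -/
theorem exists_nlift (hgen : L.gen univ = ⊤) (hi : L.Inv V) (hV : IsFlag V m)
    {T : Type*} [NormedAddCommGroup T] [NormedSpace ℝ T] {g : T → H} (hg : Continuous g)
    (hgN : ∀ t, g t ∈ L.NG hgen hi) (h0 : g 0 = 1) :
    ∃ ν : T → L.nn V, Continuous ν ∧ ν 0 = 0 ∧ ∀ t, L.exp (ν t) = g t := by
  obtain ⟨Λ, hΛ, hΛ'⟩ := exists_ulog V hV.zero hV.mono m hV.bot
  have hgen' : ∀ t, g t ∈ L.gen (L.nn V : Set E) := by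
    intro t
    have h1 := L.path_mem_gen (L.NG hgen hi) (L.isClosed_NG hgen hi) hg hgN h0 t
    rwa [L.lie_NG hgen hi hV] at h1
  have hΛexp : ∀ n ∈ Str V, Λ (NormedSpace.exp n) = n := by
    intro n hn
    obtain ⟨h1, h2⟩ := hΛ' (NormedSpace.exp n) (exp_Str hV hn)
    exact exp_inj_nil (Str_nilp hV h1) (Str_nilp hV hn) h2
  -- the section
  set W := (L.nn V).map L.ad with hW
  obtain ⟨P, hP⟩ := PL.exists_proj W
  obtain ⟨s, hs⟩ : ∃ s : W →ₗ[ℝ] L.nn V, ∀ w : W, L.ad (s w) = w := by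
    let q : L.nn V →ₗ[ℝ] W := (L.ad.comp (L.nn V).subtype).codRestrict W fun x => ⟨x, x.2, rfl⟩
    have hq : Function.Surjective q := by
      rintro ⟨_, ⟨x, hx, rfl⟩⟩
      exact ⟨⟨x, hx⟩, rfl⟩
    obtain ⟨s, hs⟩ := LinearMap.exists_rightInverse_of_surjective q (LinearMap.range_eq_top.2 hq)
    refine ⟨s, fun w => ?_⟩
    exact congrArg Subtype.val (LinearMap.congr_fun hs w)
  let X : T → L.nn V := fun t => s (P (Λ (L.Ad (g t))))
  have hXc : Continuous X := by
    have h1 : Continuous Λ := continuousOn_univ.1 hΛ.continuousOn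
    have h2 : Continuous fun t => ((L.Ad (g t) : (E →L[ℝ] E)ˣ) : E →L[ℝ] E) :=
      Units.continuous_val.comp (L.continuous_Ad.comp hg)
    exact (LinearMap.continuous_of_finiteDimensional s).comp (P.continuous.comp (h1.comp h2))
  have hX : ∀ t, NormedSpace.exp (L.ad (X t)) = (L.Ad (g t) : E →L[ℝ] E) := by
    intro t
    obtain ⟨Z, hZ, hZe⟩ := L.Ad_gen_nn hgen hi hV (hgen' t)
    have h1 : Λ (L.Ad (g t)) = L.ad Z := by rw [hZe, hΛexp _ hZ]
    have h2 : L.ad (X t) = Λ (L.Ad (g t)) := by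
      have h3 : L.ad Z ∈ W := ⟨Z, hZ, rfl⟩
      rw [hs, h1]
      exact congrArg Subtype.val (hP ⟨L.ad Z, h3⟩)
    rw [h2, h1, hZe]
  have hX0 : X 0 = 0 := by
    have h1 : Λ (L.Ad (g 0)) = 0 := by
      rw [h0, map_one, Units.val_one, ← NormedSpace.exp_zero, hΛexp _ (Str V).zero_mem]
    simp only [X, h1, map_zero]
  -- the central part
  let z : T → H := fun t => (L.exp (X t))⁻¹ * g t
  have hzc : Continuous z :=
    ((L.cont.comp (continuous_subtype_val.comp hXc)).inv).mul hg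
  have hzker : ∀ t, z t ∈ L.Ad.ker := by
    intro t
    rw [MonoidHom.mem_ker]
    change L.Ad ((L.exp (X t))⁻¹ * g t) = 1
    rw [map_mul, map_inv, inv_mul_eq_one]
    ext1
    rw [L.Ad_exp, hX]
  have hz0 : z 0 = 1 := by
    change (L.exp (X 0))⁻¹ * g 0 = 1
    rw [hX0, h0]
    change (L.exp (0 : E))⁻¹ * 1 = 1
    rw [L.exp_zero]; simp
  have hzr : ∀ t, z t ∈ range (fun x : LinearMap.ker L.ad => L.exp x) := by
    intro t
    have h1 := L.path_mem_gen L.Ad.ker L.isClosed_kerAd hzc hzker hz0 t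
    rw [L.lie_kerAd] at h1
    exact L.gen_kerad h1
  obtain ⟨ζ, hζc, hζ0, hζ⟩ := exists_lift_hom (fun x : LinearMap.ker L.ad => L.exp x)
    (fun x y => L.exp_add_central y.2 x) (L.cont.comp continuous_subtype_val)
    (by
      obtain ⟨r, hr, hinj⟩ := L.inj
      refine ⟨r, hr, fun x hx y hy hxy => Subtype.ext (hinj ?_ ?_ hxy)⟩
      · simpa using hx
      · simpa using hy)
    (by
      intro U hU
      obtain ⟨ε, hε, hball⟩ := Metric.mem_nhds_iff.1 hU
      obtain ⟨r, hr, hlie⟩ := L.exists_ball_mem_lie L.Ad.ker L.isClosed_kerAd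
      refine ⟨_, L.exists_exp_eq (lt_min hε hr), ?_⟩
      rintro a ⟨x, hx, rfl⟩ ⟨y, hy⟩
      have h1 : x ∈ L.lie L.Ad.ker L.isClosed_kerAd := by
        refine hlie x (hx.trans_le (min_le_right _ _)) ?_
        rw [← hy]
        refine L.exp_mem_of_mem_lie (hM := L.isClosed_kerAd) ?_
        rw [L.lie_kerAd]; exact y.2
      rw [L.lie_kerAd] at h1
      refine ⟨⟨x, h1⟩, hball ?_, rfl⟩
      rw [mem_ball_zero_iff]
      exact hx.trans_le (min_le_left _ _))
    z hzc hzr hz0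
  -- combine: kernel elements lie in `nn`
  have hker : ∀ x ∈ LinearMap.ker L.ad, x ∈ L.nn V := by
    intro x hx k v _
    have h1 : L.ad x = 0 := hx
    rw [h1]; exact (V (k + 1)).zero_mem
  refine ⟨fun t => X t + ⟨ζ t, hker _ (ζ t).2⟩, ?_, ?_, ?_⟩
  · exact hXc.add ((continuous_subtype_val.comp hζc).subtype_mk _)
  · ext1
    change ((X 0 : L.nn V) : E) + ((ζ 0 : LinearMap.ker L.ad) : E) = 0
    rw [hX0, hζ0]; simp
  · intro t
    change L.exp ((X t : E) + (ζ t : E)) = g t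
    rw [L.exp_add_central (ζ t).2, hζ t]
    change L.exp (X t) * ((L.exp (X t))⁻¹ * g t) = g t
    group

end LG

end Pool.Agent.TH77
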