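import Pool.Agent.TH77.AN.NilC
import Pool.Agent.TH77.AN.DataF

/-!
# Products and commutators in exponential coordinates of the nilpotent ideal
-/

set_option linter.unusedSectionVars false
set_option linter.style.haveILetI false

open Filter Topology Metric Set

namespace Pool.Agent.TH77
open Pool.Agent.TH77.AN

section ops
variable {E : Type*} [NormedAddCommGroup E] [NormedSpace ℝ E] [FiniteDimensional ℝ E]

lemma hasSum_exp_apply (A : E →L[ℝ] E) (v : E) :
    HasSum (fun n : ℕ => ((n.factorial : ℝ)⁻¹) • (A ^ n) v) (NormedSpace.exp A v) := by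
  have h1 : HasSum (fun n : ℕ => ((n.factorial : ℝ)⁻¹) • A ^ n) (NormedSpace.exp A) :=
    NormedSpace.exp_series_hasSum_exp' A
  have h2 := h1.mapL (ContinuousLinearMap.apply ℝ E v)
  simpa using h2

lemma exp_sub_exp_mem (A n : E →L[ℝ] E) (U W : Submodule ℝ E) (hAU : ∀ v ∈ U, A v ∈ U)
    (hAW : ∀ v ∈ W, A v ∈ W) (hnU : ∀ v ∈ U, n v ∈ W) (hWU : W ≤ U) {v : E} (hv : v ∈ U) :
    NormedSpace.exp (A + n) v - NormedSpace.exp A v ∈ W := by
  have hU : ∀ j, (A ^ j) v ∈ U := by
    intro j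
    induction j with
    | zero => exact hv
    | succ j ih => rw [pow_succ']; exact hAU _ ih
  have hj : ∀ j, ((A + n) ^ j) v - (A ^ j) v ∈ W := by
    intro j
    induction j with
    | zero => simp
    | succ j ih =>
      have h1 : ((A + n) ^ (j + 1)) v - (A ^ (j + 1)) v =
          A (((A + n) ^ j) v - (A ^ j) v) + n (((A + n) ^ j) v - (A ^ j) v) + n ((A ^ j) v) := by
        rw [pow_succ', pow_succ']
        change (A + n) (((A + n) ^ j) v) - A ((A ^ j) v) = _
        simp only [_root_.add_apply, map_sub]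
        abel
      rw [h1]
      exact W.add_mem (W.add_mem (hAW _ ih) (hnU _ (hWU ih))) (hnU _ (hU j))
  have h1 := (hasSum_exp_apply (A + n) v).sub (hasSum_exp_apply A v)
  refine (Submodule.closed_of_finiteDimensional W).mem_of_tendsto h1.tendsto_sum_nat
    (Eventually.of_forall fun N => ?_)
  refine W.sum_mem fun j _ => ?_
  rw [← smul_sub]
  exact W.smul_mem _ (hj j)

end ops

namespace LG

variable {H : Type*} [Group H] [TopologicalSpace H] [IsTopologicalGroup H] [T2Space H]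
  {E : Type*} [NormedAddCommGroup E] [NormedSpace ℝ E] [FiniteDimensional ℝ E] (L : LG H E)
  {V : ℕ → Submodule ℝ E} {m : ℕ}

/-- The bracket as a bilinear map. -/
noncomputable def adB : E →ₗ[ℝ] E →ₗ[ℝ] E :=
  LinearMap.mk₂ ℝ (fun x y => L.ad x y) (fun x y z => by simp) (fun c x y => by simp)
    (fun x y z => by simp) (fun c x y => by simp)

@[simp] lemma adB_apply (x y : E) : L.adB x y = L.ad x y := rfl

lemma exp_mem_NG (hgen : L.gen univ = ⊤) (hi : L.Inv V) (hV : IsFlag V m) {x : E} (hx : x ∈ L.nn V) :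
    L.exp x ∈ L.NG hgen hi := by
  rw [← L.lie_NG hgen hi hV] at hx
  exact L.exp_mem_of_mem_lie hx

lemma diff_mem_NG (hgen : L.gen univ = ⊤) (hi : L.Inv V) (hV : IsFlag V m) (Y : E) {δ : E}
    (hδ : δ ∈ L.nn V) : L.exp (Y + δ) * L.exp (-Y) ∈ L.NG hgen hi := by
  intro k v hv
  have h1 : (L.Ad (L.exp (-Y)) : E →L[ℝ] E) v ∈ V k := L.Ad_V hgen hi _ hv
  have h2 := exp_sub_exp_mem (L.ad Y) (L.ad δ) (V k) (V (k + 1)) (hi k Y) (hi (k + 1) Y)
    (hδ k) (hV.mono k) h1
  rw [← map_add, ← L.Ad_exp, ← L.Ad_exp] at h2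
  have h3 : (L.Ad (L.exp Y) : E →L[ℝ] E) ((L.Ad (L.exp (-Y)) : E →L[ℝ] E) v) = v := by
    have : (L.Ad (L.exp Y) * L.Ad (L.exp (-Y)) : (E →L[ℝ] E)ˣ) = 1 := by
      rw [← map_mul, L.exp_neg, mul_inv_cancel, map_one]
    exact congrArg (fun u : (E →L[ℝ] E)ˣ => (u : E →L[ℝ] E) v) this
  rw [h3] at h2
  rw [map_mul]
  exact h2

/-- Operations in exponential coordinates. -/
structure Ops (V : ℕ → Submodule ℝ E) where
  st : L.nn V × L.nn V → L.nn V
  st_cont : Continuous st
  st_zero : st 0 = 0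
  st_exp : ∀ p : L.nn V × L.nn V, L.exp (st p) = L.exp p.1 * L.exp p.2
  D : E × L.nn V → L.nn V
  D_cont : Continuous D
  D_zero : D 0 = 0
  D_exp : ∀ p : E × L.nn V, L.exp (D p) = L.exp (p.1 + p.2) * L.exp (-p.1)

lemma exists_ops (hgen : L.gen univ = ⊤) (hi : L.Inv V) (hV : IsFlag V m) : Nonempty (L.Ops V) := by
  obtain ⟨st, h1, h2, h3⟩ := L.exists_nlift hgen hi hV (T := L.nn V × L.nn V)
    (g := fun p => L.exp p.1 * L.exp p.2)
    ((L.cont.comp (continuous_subtype_val.comp continuous_fst)).mul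
      (L.cont.comp (continuous_subtype_val.comp continuous_snd)))
    (fun p => (L.NG hgen hi).mul_mem (L.exp_mem_NG hgen hi hV p.1.2) (L.exp_mem_NG hgen hi hV p.2.2))
    (by
      change L.exp 0 * L.exp 0 = 1
      rw [L.exp_zero, mul_one])
  obtain ⟨D, h4, h5, h6⟩ := L.exists_nlift hgen hi hV (T := E × L.nn V)
    (g := fun p => L.exp (p.1 + p.2) * L.exp (-p.1))
    ((L.cont.comp (continuous_fst.add (continuous_subtype_val.comp continuous_snd))).mul
      (L.cont.comp continuous_fst.neg))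
    (fun p => L.diff_mem_NG hgen hi hV p.1 p.2.2)
    (by
      change L.exp (0 + 0) * L.exp (-0) = 1
      rw [add_zero, neg_zero, L.exp_zero, mul_one])
  exact ⟨⟨st, h1, h2, h3, D, h4, h5, h6⟩⟩

/-- uniqueness for lifts with values in `nn` -/
lemma nn_unique (hV : IsFlag V m) {T : Type*} [TopologicalSpace T] [PreconnectedSpace T]
    {ν ν' : T → L.nn V} (hν : Continuous ν) (hν' : Continuous ν')
    (he : ∀ t, L.exp (ν t) = L.exp (ν' t)) {t₀ : T} (h0 : ν t₀ = ν' t₀) (t : T) : ν t = ν' t := by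
  have h1 := L.lift_unique (continuous_subtype_val.comp hν) (continuous_subtype_val.comp hν')
    (fun t => L.nn_nilp hV (ν t).2) (fun t => L.nn_nilp hV (ν' t).2) he (t₀ := t₀)
    (congrArg Subtype.val h0)
  exact Subtype.ext (congrFun h1 t)

variable {L}

lemma Ops.st_right (O : L.Ops V) (hV : IsFlag V m) (X : L.nn V) : O.st (X, 0) = X := by
  refine L.nn_unique hV (ν := fun X => O.st (X, 0)) (ν' := fun X => X)
    (O.st_cont.comp (by fun_prop)) continuous_id ?_ (t₀ := 0) O.st_zero X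
  intro t
  rw [O.st_exp]
  change L.exp t * L.exp 0 = L.exp t
  rw [L.exp_zero, mul_one]

lemma Ops.D_right (O : L.Ops V) (hV : IsFlag V m) (Y : E) : O.D (Y, 0) = 0 := by
  refine L.nn_unique hV (ν := fun Y => O.D (Y, 0)) (ν' := fun _ => 0)
    (O.D_cont.comp (by fun_prop)) continuous_const ?_ (t₀ := 0) O.D_zero Y
  intro t
  rw [O.D_exp]
  change L.exp (t + 0) * L.exp (-t) = L.exp 0
  rw [L.exp_zero, add_zero, L.exp_neg, mul_inv_cancel]

variable (L)

/-- `J` is a continuous logarithm of `y ↦ y x y⁻¹ x⁻¹`. -/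
structure IsJ (V : ℕ → Submodule ℝ E) (x : H) (J : H → L.nn V) : Prop where
  cont : Continuous J
  one : J 1 = 0
  exp : ∀ y, L.exp (J y) = y * x * y⁻¹ * x⁻¹

lemma IsJ.unique (hgen : L.gen univ = ⊤) (hV : IsFlag V m) {x : H} {J J' : H → L.nn V}
    (hJ : L.IsJ V x J) (hJ' : L.IsJ V x J') (y : H) : J y = J' y := by
  haveI := L.preconnectedSpace hgen
  exact L.nn_unique hV hJ.cont hJ'.cont (fun t => by rw [hJ.exp, hJ'.exp]) (t₀ := 1)
    (by rw [hJ.one, hJ'.one]) y

/-- `Ad` on `nn`. -/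
noncomputable def AdN (hgen : L.gen univ = ⊤) (hi : L.Inv V) (a : H) (X : L.nn V) : L.nn V :=
  ⟨(L.Ad a : E →L[ℝ] E) X, L.nn_Ad hgen hi a X.2⟩

lemma continuous_AdN (hgen : L.gen univ = ⊤) (hi : L.Inv V) {T : Type*} [TopologicalSpace T]
    {a : T → H} {X : T → L.nn V} (ha : Continuous a) (hX : Continuous X) :
    Continuous fun t => L.AdN hgen hi (a t) (X t) := by
  refine Continuous.subtype_mk ?_ _
  have hv : Continuous fun t => (L.Ad (a t) : E →L[ℝ] E) :=
    Units.continuous_val.comp (L.continuous_Ad.comp ha)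
  exact hv.clm_apply (continuous_subtype_val.comp hX)

lemma exp_AdN (hgen : L.gen univ = ⊤) (hi : L.Inv V) (a : H) (X : L.nn V) :
    L.exp (L.AdN hgen hi a X) = a * L.exp X * a⁻¹ := L.exp_Ad a X

lemma AdN_zero (hgen : L.gen univ = ⊤) (hi : L.Inv V) (a : H) : L.AdN hgen hi a 0 = 0 :=
  Subtype.ext (map_zero _)

variable {L}

lemma IsJ.mul (hgen : L.gen univ = ⊤) (hi : L.Inv V) (O : L.Ops V) {a b : H} {Ja Jb : H → L.nn V}
    (ha : L.IsJ V a Ja) (hb : L.IsJ V b Jb) :
    L.IsJ V (a * b) (fun y => O.st (Ja y, L.AdN hgen hi a (Jb y))) where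
  cont := O.st_cont.comp (ha.cont.prodMk (L.continuous_AdN hgen hi continuous_const hb.cont))
  one := by rw [ha.one, hb.one, L.AdN_zero]; exact O.st_zero
  exp y := by
    rw [O.st_exp]
    change L.exp (Ja y) * L.exp (L.AdN hgen hi a (Jb y)) = _
    rw [L.exp_AdN, ha.exp, hb.exp]
    group

lemma isJ_one : L.IsJ V 1 (fun _ => 0) where
  cont := continuous_const
  one := rfl
  exp y := by
    change L.exp 0 = _
    rw [L.exp_zero]; simp

variable (L) {r l : Submodule ℝ E} (D : LData L.adB r l V m)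

include D in
lemma LD_inv : L.Inv V := D.inv

include D in
lemma LD_flag : IsFlag V m := ⟨D.zero, D.mono, D.bot⟩

include D in
lemma LD_rn (x : E) {y : E} (hy : y ∈ r) : L.ad x y ∈ L.nn V := fun k v hv => D.str k x y hy v hv

lemma ad_anti (x y : E) : L.ad x y = - L.ad y x := by
  have h := L.ad_self (x + y)
  have h2 : L.ad (x + y) (x + y) = L.ad x x + L.ad x y + (L.ad y x + L.ad y y) := by
    simp only [map_add, _root_.add_apply]
    abel
  rw [h2, L.ad_self, L.ad_self, zero_add, add_zero] at h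
  exact eq_neg_of_add_eq_zero_left h

include D in
lemma Ad_r (hgen : L.gen univ = ⊤) (a : H) {y : E} (hy : y ∈ r) : (L.Ad a : E →L[ℝ] E) y ∈ r :=
  L.Ad_mem hgen r (fun x _ hy => D.r_ideal x _ hy) a y hy

include D in
/-- `Ad a - 1` maps the radical into `nn` -/
lemma Ad_sub_r (hgen : L.gen univ = ⊤) (a : H) {y : E} (hy : y ∈ r) :
    (L.Ad a : E →L[ℝ] E) y - y ∈ L.nn V := by
  have ha : a ∈ L.gen univ := by rw [hgen]; trivial
  refine L.gen_induction (m := univ) (P := fun a => (L.Ad a : E →L[ℝ] E) y - y ∈ L.nn V)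
    (fun x _ => mem_univ _) ?_ ?_ ha
  · rw [map_one]
    change y - y ∈ _
    rw [sub_self]; exact (L.nn V).zero_mem
  · intro x _ g hg
    rw [map_mul, Units.val_mul, L.Ad_exp]
    change NormedSpace.exp (L.ad x) ((L.Ad g : E →L[ℝ] E) y) - y ∈ _
    have h1 := exp_sub_mem (L.ad x) (L.nn V) (fun y hy => L.nn_ideal D.inv x hy)
      ((L.Ad g : E →L[ℝ] E) y) (L.LD_rn D x (L.Ad_r D hgen g hy))
    have h2 := (L.nn V).add_mem h1 hg
    simpa using h2

include D in
/-- for `a` in the radical group, `Ad a - 1` maps everything into the radical -/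
lemma Ad_sub_of_r {a : H} (ha : a ∈ L.gen (r : Set E)) (y : E) :
    (L.Ad a : E →L[ℝ] E) y - y ∈ r := by
  refine L.gen_induction (m := (r : Set E)) (P := fun a => (L.Ad a : E →L[ℝ] E) y - y ∈ r)
    (fun x hx => r.neg_mem hx) ?_ ?_ ha
  · rw [map_one]
    change y - y ∈ _
    rw [sub_self]; exact r.zero_mem
  · intro x hx g hg
    rw [map_mul, Units.val_mul, L.Ad_exp]
    change NormedSpace.exp (L.ad x) ((L.Ad g : E →L[ℝ] E) y) - y ∈ _
    have h1 := exp_sub_mem (L.ad x) r (fun y hy => D.r_ideal x _ hy)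
      ((L.Ad g : E →L[ℝ] E) y) (by
        rw [L.ad_anti]
        exact r.neg_mem (D.r_ideal _ _ hx))
    have h2 := r.add_mem h1 hg
    simpa using h2

/-- logarithm of commutators with an exponential of the radical -/
lemma isJ_exp (hgen : L.gen univ = ⊤) (O : L.Ops V) {Y : E} (hY : Y ∈ r) :
    L.IsJ V (L.exp Y) (fun y => O.D (Y, ⟨(L.Ad y : E →L[ℝ] E) Y - Y, L.Ad_sub_r D hgen y hY⟩)) where
  cont := by
    refine O.D_cont.comp (continuous_const.prodMk (Continuous.subtype_mk ?_ _))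
    have hv : Continuous fun t => (L.Ad t : E →L[ℝ] E) := Units.continuous_val.comp L.continuous_Ad
    exact (hv.clm_apply continuous_const).sub continuous_const
  one := by
    have h1 : (⟨(L.Ad 1 : E →L[ℝ] E) Y - Y, L.Ad_sub_r D hgen 1 hY⟩ : L.nn V) = 0 := by
      refine Subtype.ext ?_
      change (L.Ad 1 : E →L[ℝ] E) Y - Y = 0
      rw [map_one]
      exact sub_self Y
    rw [h1]
    exact O.D_right (L.LD_flag D) Y
  exp y := by
    rw [O.D_exp]
    change L.exp (Y + ((L.Ad y : E →L[ℝ] E) Y - Y)) * L.exp (-Y) = _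
    rw [add_sub_cancel, L.exp_neg, L.exp_Ad]

include D in
lemma exists_J_r (hgen : L.gen univ = ⊤) (O : L.Ops V) {a : H} (ha : a ∈ L.gen (r : Set E)) :
    ∃ J, L.IsJ V a J := by
  refine L.gen_induction (m := (r : Set E)) (P := fun a => ∃ J, L.IsJ V a J)
    (fun x hx => r.neg_mem hx) ⟨_, isJ_one⟩ ?_ ha
  rintro x hx g ⟨J, hJ⟩
  exact ⟨_, (L.isJ_exp D hgen O hx).mul hgen D.inv O hJ⟩

end LG

end Pool.Agent.TH77
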