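import Pool.Agent.TH77.AN.NilD

/-!
# Commutator logarithms for elements acting trivially modulo the radical
-/

set_option linter.unusedSectionVars false
set_option linter.style.haveILetI false

open Filter Topology Metric Set

namespace Pool.Agent.TH77
open Pool.Agent.TH77.AN

namespace LG

variable {H : Type*} [Group H] [TopologicalSpace H] [IsTopologicalGroup H] [T2Space H]
  {E : Type*} [NormedAddCommGroup E] [NormedSpace ℝ E] [FiniteDimensional ℝ E] (L : LG H E)
  {V : ℕ → Submodule ℝ E} {m : ℕ}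

/-- Products `exp Y * exp Z` with `Y`, `Z` small in complementary subspaces fill a neighbourhood. -/
lemma map_prod_nhds {r l : Submodule ℝ E} (hrl : r ⊔ l = ⊤) :
    map (fun p : r × l => L.exp p.1 * L.exp p.2) (𝓝 0) = 𝓝 1 := by
  haveI : CompleteSpace E := FiniteDimensional.complete ℝ E
  haveI : CompleteSpace r := FiniteDimensional.complete ℝ r
  haveI : CompleteSpace l := FiniteDimensional.complete ℝ l
  let i : r × l →L[ℝ] E × E := (r.subtypeL).prodMap (l.subtypeL)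
  have hi : ∀ p : r × l, i p = ((p.1 : E), (p.2 : E)) := fun p => rfl
  have h1 : HasStrictFDerivAt (fun p : r × l => L.mul (i p))
      ((ContinuousLinearMap.fst ℝ E E + ContinuousLinearMap.snd ℝ E E).comp i) 0 := by
    have h2 : HasStrictFDerivAt L.mul
      (ContinuousLinearMap.fst ℝ E E + ContinuousLinearMap.snd ℝ E E) (i 0) := by
      rw [map_zero]; exact L.mul_deriv
    exact h2.comp (0 : r × l) i.hasStrictFDerivAt
  have hsurj : LinearMap.range (((ContinuousLinearMap.fst ℝ E E + ContinuousLinearMap.snd ℝ E E).comp i :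
      r × l →L[ℝ] E) : r × l →ₗ[ℝ] E) = ⊤ := by
    rw [eq_top_iff]
    intro x _
    have hx : x ∈ r ⊔ l := by rw [hrl]; trivial
    obtain ⟨y, hy, z, hz, rfl⟩ := Submodule.mem_sup.1 hx
    exact ⟨(⟨y, hy⟩, ⟨z, hz⟩), rfl⟩
  have h3 := h1.map_nhds_eq_of_surj hsurj
  rw [map_zero, L.mul_zero] at h3
  have hi0 : Tendsto i (𝓝 0) (𝓝 0) := i.continuous.tendsto' 0 0 (map_zero _)
  have h4 : (fun p : r × l => L.exp p.1 * L.exp p.2) =ᶠ[𝓝 0] L.exp ∘ fun p : r × l => L.mul (i p) := by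
    filter_upwards [hi0.eventually L.exp_mul] with p hp
    exact hp
  rw [map_congr h4, ← Filter.map_map, h3, L.nhds]

lemma mem_sup_gen (hgen : L.gen univ = ⊤) {r l : Submodule ℝ E} (hrl : r ⊔ l = ⊤) (y : H) :
    y ∈ L.gen (r : Set E) ⊔ L.gen (l : Set E) := by
  have h1 : ∀ᶠ g in 𝓝 (1 : H), g ∈ L.gen (r : Set E) ⊔ L.gen (l : Set E) := by
    rw [← L.map_prod_nhds hrl, eventually_map]
    refine Eventually.of_forall fun p => ?_
    exact Subgroup.mul_mem_sup (L.exp_mem_gen p.1.2) (L.exp_mem_gen p.2.2)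
  have h2 : L.gen univ ≤ L.gen (r : Set E) ⊔ L.gen (l : Set E) := by
    refine L.gen_le fun x _ => ?_
    have h3 : Tendsto (fun n : ℕ => L.exp ((1 / ((n : ℝ) + 1)) • x)) atTop (𝓝 1) := by
      have h4 : Continuous fun t : ℝ => L.exp (t • x) := L.cont.comp (by fun_prop)
      have h5 := (h4.tendsto' 0 1 (by rw [zero_smul, L.exp_zero])).comp
        (tendsto_one_div_add_atTop_nhds_zero_nat (𝕜 := ℝ))
      exact h5
    obtain ⟨n, hn⟩ := (h3.eventually h1).exists
    have h6 : L.exp x = L.exp ((1 / ((n : ℝ) + 1)) • x) ^ (n + 1) := by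
      have hs1 : ((n + 1 : ℕ) : ℝ) * (1 / ((n : ℝ) + 1)) = 1 := by push_cast; field_simp
      rw [← L.exp_nsmul, ← Nat.cast_smul_eq_nsmul ℝ, smul_smul, hs1, one_smul]
    rw [h6]
    exact Subgroup.pow_mem _ hn _
  exact h2 (by rw [hgen]; trivial)

section J

variable {r l : Submodule ℝ E} (D : LData L.adB r l V m)

include D in
lemma r_normal (hgen : L.gen univ = ⊤) : (L.gen (r : Set E)).Normal :=
  L.gen_normal hgen r fun x _ hy => D.r_ideal x _ hy

include D in
lemma exists_decomp (hgen : L.gen univ = ⊤) (y : H) :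
    ∃ a ∈ L.gen (r : Set E), ∃ b ∈ L.gen (l : Set E), a * b = y := by
  haveI := L.r_normal D hgen
  have h1 := L.mem_sup_gen hgen D.compl.sup_eq_top y
  exact Subgroup.mem_sup_of_normal_left.1 h1

include D in
/-- elements of the Levi group preserve the Levi subalgebra -/
lemma Ad_l {b : H} (hb : b ∈ L.gen (l : Set E)) {v : E} (hv : v ∈ l) :
    (L.Ad b : E →L[ℝ] E) v ∈ l := by
  refine L.gen_induction (m := (l : Set E)) (P := fun b => (L.Ad b : E →L[ℝ] E) v ∈ l)
    (fun x hx => l.neg_mem hx) ?_ ?_ hb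
  · rw [map_one]; exact hv
  · intro x hx g hg
    rw [map_mul, Units.val_mul, L.Ad_exp]
    change NormedSpace.exp (L.ad x) ((L.Ad g : E →L[ℝ] E) v) ∈ _
    have h1 := exp_sub_mem (L.ad x) l (fun y hy => D.l_sub x hx y hy) _ (D.l_sub x hx _ hg)
    have h2 := l.add_mem h1 hg
    simpa using h2

lemma commute_gen {b : H} {l : Submodule ℝ E} (h : ∀ v ∈ l, (L.Ad b : E →L[ℝ] E) v = v) {y : H}
    (hy : y ∈ L.gen (l : Set E)) : Commute b y := by
  refine L.gen_induction (m := (l : Set E)) (P := fun y => Commute b y)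
    (fun x hx => l.neg_mem hx) (Commute.one_right b) ?_ hy
  intro x hx g hg
  refine Commute.mul_right ?_ hg
  have h1 := L.Ad_spec b x
  rw [h x hx] at h1
  exact mul_inv_eq_iff_eq_mul.1 h1

include D in
/-- `J` vanishes on the Levi group for elements of the intersection -/
lemma J_inter {z : H} (hzr : z ∈ L.gen (r : Set E)) (hzl : z ∈ L.gen (l : Set E)) {J : H → L.nn V}
    (hJ : L.IsJ V z J) {b : H} (hb : b ∈ L.gen (l : Set E)) : J b = 0 := by
  have hcomm : ∀ y ∈ L.gen (l : Set E), Commute z y := by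
    intro y hy
    refine L.commute_gen (fun v hv => ?_) hy
    have h1 := L.Ad_sub_of_r D hzr v
    have h2 := l.sub_mem (L.Ad_l D hzl hv) hv
    have h3 := (Submodule.disjoint_def.1 D.compl.disjoint) _ h1 h2
    exact sub_eq_zero.1 h3
  have hone : ∀ y ∈ L.gen (l : Set E), L.exp (J y) = 1 := by
    intro y hy
    rw [hJ.exp, ← (hcomm y hy).eq]
    group
  have key : b ∈ L.gen (l : Set E) ∧ J b = 0 := by
    refine L.gen_induction (m := (l : Set E)) (P := fun y => y ∈ L.gen (l : Set E) ∧ J y = 0)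
      (fun x hx => l.neg_mem hx) ⟨Subgroup.one_mem _, hJ.one⟩ ?_ hb
    rintro x hx g ⟨hg, hg0⟩
    refine ⟨Subgroup.mul_mem _ (L.exp_mem_gen hx) hg, ?_⟩
    have hc : Continuous fun t : ℝ => J (L.exp (t • x) * g) := by
      have h1 : Continuous fun t : ℝ => L.exp (t • x) := L.cont.comp (by fun_prop)
      exact hJ.cont.comp (h1.mul continuous_const)
    have h2 := L.nn_unique (L.LD_flag D) (ν := fun t : ℝ => J (L.exp (t • x) * g))
      (ν' := fun _ => 0) hc continuous_const ?_ (t₀ := 0) ?_ 1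
    · simpa using h2
    · intro t
      change _ = L.exp 0
      rw [L.exp_zero]
      exact hone _ (Subgroup.mul_mem _ (L.exp_mem_gen (l.smul_mem t hx)) hg)
    · simp only [zero_smul, L.exp_zero, one_mul, hg0]
  exact key.2

include D in
/-- The radical component of `J` does not depend on the decomposition. -/
lemma J_indep (hgen : L.gen univ = ⊤) (O : L.Ops V) {b : H} (hb : b ∈ L.gen (l : Set E))
    {a a' : H} (ha : a ∈ L.gen (r : Set E)) (ha' : a' ∈ L.gen (r : Set E))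
    (hl : a⁻¹ * a' ∈ L.gen (l : Set E)) {J J' : H → L.nn V} (hJ : L.IsJ V a J)
    (hJ' : L.IsJ V a' J') : J' b = J b := by
  have hz : a⁻¹ * a' ∈ L.gen (r : Set E) := Subgroup.mul_mem _ (Subgroup.inv_mem _ ha) ha'
  obtain ⟨Jz, hJz⟩ := L.exists_J_r D hgen O hz
  have h1 := hJ.mul hgen D.inv O hJz
  rw [mul_inv_cancel_left] at h1
  rw [IsJ.unique L hgen (L.LD_flag D) hJ' h1 b]
  change O.st (J b, L.AdN hgen D.inv a (Jz b)) = J b
  rw [L.J_inter D hz hl hJz hb, L.AdN_zero]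
  exact O.st_right (L.LD_flag D) _

include D in
/-- The logarithm of commutators with an element of the Levi group acting trivially on the Levi
subalgebra. -/
lemma exists_J_l (hgen : L.gen univ = ⊤) (O : L.Ops V) {b : H} (hb : b ∈ L.gen (l : Set E))
    (hbl : ∀ v ∈ l, (L.Ad b : E →L[ℝ] E) v = v) :
    ∃ J, L.IsJ V b J ∧ ∀ y, ∃ a ∈ L.gen (r : Set E), ∃ Ja, L.IsJ V a Ja ∧ J y = - Ja b := by
  choose ra hra lb hlb hrl using L.exists_decomp D hgen
  choose JJ hJJ using fun a : L.gen (r : Set E) => L.exists_J_r D hgen O a.2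
  let J : H → L.nn V := fun y => - JJ ⟨ra y, hra y⟩ b
  have hJa : ∀ y, ∀ a ∈ L.gen (r : Set E), ∀ Ja, L.IsJ V a Ja → a⁻¹ * y ∈ L.gen (l : Set E) →
      J y = - Ja b := by
    intro y a ha Ja hJa hay
    have h1 : a⁻¹ * ra y ∈ L.gen (l : Set E) := by
      have h2 : a⁻¹ * ra y = (a⁻¹ * y) * (lb y)⁻¹ := by
        have h3 : a⁻¹ * ra y = (a⁻¹ * (ra y * lb y)) * (lb y)⁻¹ := by group
        rw [h3, hrl y]
      rw [h2]
      exact Subgroup.mul_mem _ hay (Subgroup.inv_mem _ (hlb y))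
    change - JJ ⟨ra y, hra y⟩ b = - Ja b
    rw [L.J_indep D hgen O hb ha (hra y) h1 hJa (hJJ ⟨ra y, hra y⟩)]
  have hexp : ∀ y, L.exp (J y) = y * b * y⁻¹ * b⁻¹ := by
    intro y
    change L.exp (-((JJ ⟨ra y, hra y⟩ b : L.nn V) : E)) = _
    rw [L.exp_neg, (hJJ _).exp]
    have h1 : Commute b (lb y) := L.commute_gen hbl (hlb y)
    have h2 : y * b * y⁻¹ * b⁻¹ = ra y * (lb y * b * (lb y)⁻¹) * (ra y)⁻¹ * b⁻¹ := by
      conv_lhs => rw [← hrl y]
      group
    rw [h2, ← h1.eq, mul_inv_cancel_right]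
    group
  have hone : J 1 = 0 := by
    rw [hJa 1 1 (Subgroup.one_mem _) _ isJ_one (by simp)]
    exact neg_zero
  refine ⟨J, ⟨?_, hone, hexp⟩, fun y => ⟨ra y, hra y, _, hJJ ⟨ra y, hra y⟩, rfl⟩⟩
  rw [continuous_iff_continuousAt]
  intro y₀
  -- local parametrisation near `y₀ = a₀ b₀`
  set a₀ := ra y₀ with ha₀
  set b₀ := lb y₀ with hb₀
  set J₀ := JJ ⟨ra y₀, hra y₀⟩ with hJ₀
  have hJ₀' : L.IsJ V a₀ J₀ := hJJ ⟨ra y₀, hra y₀⟩
  have hy₀ : a₀ * b₀ = y₀ := hrl y₀
  let c : r × l → H := fun p => a₀ * (L.exp p.1 * L.exp p.2) * b₀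
  have hmap : map c (𝓝 0) = 𝓝 y₀ := by
    have h1 : c = (fun h : H => a₀ * h * b₀) ∘ fun p : r × l => L.exp p.1 * L.exp p.2 := rfl
    rw [h1, ← Filter.map_map, L.map_prod_nhds D.compl.sup_eq_top]
    have h2 : (fun h : H => a₀ * h * b₀) = ((Homeomorph.mulLeft a₀).trans (Homeomorph.mulRight b₀)) := rfl
    rw [h2, Homeomorph.map_nhds_eq]
    change 𝓝 (a₀ * 1 * b₀) = _
    rw [mul_one, hy₀]
  have hval : ∀ p : r × l, J (c p) = - O.st (J₀ b, L.AdN hgen D.inv a₀
      (O.D ((p.1 : E), ⟨(L.Ad b : E →L[ℝ] E) p.1 - p.1, L.Ad_sub_r D hgen b p.1.2⟩))) := by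
    intro p
    refine hJa (c p) (a₀ * L.exp p.1) (Subgroup.mul_mem _ (hra y₀) (L.exp_mem_gen p.1.2)) _
      (hJ₀'.mul hgen D.inv O (L.isJ_exp D hgen O p.1.2)) ?_
    have h1 : (a₀ * L.exp p.1)⁻¹ * c p = L.exp p.2 * b₀ := by
      simp only [c]; group
    rw [h1]
    exact Subgroup.mul_mem _ (L.exp_mem_gen p.2.2) (hlb y₀)
  have hlim : Tendsto (fun p : r × l => J (c p)) (𝓝 0) (𝓝 (J y₀)) := by
    have h1 : Continuous fun p : r × l => - O.st (J₀ b, L.AdN hgen D.inv a₀
        (O.D ((p.1 : E), ⟨(L.Ad b : E →L[ℝ] E) p.1 - p.1, L.Ad_sub_r D hgen b p.1.2⟩))) := by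
      refine (O.st_cont.comp (continuous_const.prodMk (L.continuous_AdN hgen D.inv continuous_const
        (O.D_cont.comp ((continuous_subtype_val.comp continuous_fst).prodMk
          (Continuous.subtype_mk ?_ _)))))).neg
      have h3 : Continuous fun p : r × l => (p.1 : E) := continuous_subtype_val.comp continuous_fst
      exact ((L.Ad b : E →L[ℝ] E).continuous.comp h3).sub h3
    have h2 := h1.tendsto 0
    have h3 : - O.st (J₀ b, L.AdN hgen D.inv a₀
        (O.D ((((0 : r × l).1 : r) : E), ⟨(L.Ad b : E →L[ℝ] E) ((0 : r × l).1 : r) - ((0 : r × l).1 : r),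
          L.Ad_sub_r D hgen b (0 : r × l).1.2⟩))) = J y₀ := by
      rw [← hval 0]
      have h4 : c 0 = y₀ := by
        change a₀ * (L.exp 0 * L.exp 0) * b₀ = y₀
        rw [L.exp_zero, mul_one, mul_one, hy₀]
      rw [h4]
    rw [h3] at h2
    exact h2.congr fun p => (hval p).symm
  have h5 : Tendsto J (map c (𝓝 0)) (𝓝 (J y₀)) := tendsto_map'_iff.2 hlim
  rw [hmap] at h5
  exact h5

include D in
/-- Existence of the commutator logarithm for all elements acting trivially modulo the radical. -/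
theorem exists_J (hgen : L.gen univ = ⊤) (O : L.Ops V) {x : H}
    (hx : ∀ v, (L.Ad x : E →L[ℝ] E) v - v ∈ r) : ∃ J, L.IsJ V x J := by
  obtain ⟨a, ha, b, hb, rfl⟩ := L.exists_decomp D hgen x
  have hbl : ∀ v ∈ l, (L.Ad b : E →L[ℝ] E) v = v := by
    intro v hv
    have h1 : (L.Ad b : E →L[ℝ] E) v - v ∈ r := by
      have h2 := hx v
      have h3 := L.Ad_r D hgen a⁻¹ h2
      have h4 := L.Ad_sub_of_r D (Subgroup.inv_mem _ ha) v
      have h5 : (L.Ad a⁻¹ : E →L[ℝ] E) ((L.Ad (a * b) : E →L[ℝ] E) v) = (L.Ad b : E →L[ℝ] E) v := by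
        have : (L.Ad a⁻¹ * L.Ad (a * b) : (E →L[ℝ] E)ˣ) = L.Ad b := by
          rw [← map_mul, inv_mul_cancel_left]
        exact congrArg (fun u : (E →L[ℝ] E)ˣ => (u : E →L[ℝ] E) v) this
      rw [map_sub, h5] at h3
      have h6 := r.add_mem h3 h4
      simpa using h6
    have h2 := l.sub_mem (L.Ad_l D hb hv) hv
    exact sub_eq_zero.1 ((Submodule.disjoint_def.1 D.compl.disjoint) _ h1 h2)
  obtain ⟨Ja, hJa⟩ := L.exists_J_r D hgen O ha
  obtain ⟨Jb, hJb, -⟩ := L.exists_J_l D hgen O hb hbl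
  exact ⟨_, hJa.mul hgen D.inv O hJb⟩

end J

end LG

end Pool.Agent.TH77
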