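import Pool.Agent.TH77.AN.NilE
import Pool.Agent.TH883.J962

/-!
# Commutator logarithms lie in the derived algebra
-/

set_option linter.unusedSectionVars false
set_option linter.style.haveILetI false

open Filter Topology Metric Set Asymptotics

namespace Pool.Agent.TH77
open Pool.Agent.TH77.AN

namespace LG

variable {H : Type*} [Group H] [TopologicalSpace H] [IsTopologicalGroup H] [T2Space H]
  {E : Type*} [NormedAddCommGroup E] [NormedSpace ℝ E] [FiniteDimensional ℝ E] (L : LG H E)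
  {V : ℕ → Submodule ℝ E} {m : ℕ}

section f

variable (f : E →ₗ[ℝ] ℝ) (hf : ∀ x y, f (L.ad x y) = 0)

include hf in
lemma f_Ad (hgen : L.gen univ = ⊤) (a : H) (x : E) : f ((L.Ad a : E →L[ℝ] E) x) = f x := by
  have ha : a ∈ L.gen univ := by rw [hgen]; trivial
  refine L.gen_induction (m := univ) (P := fun a => f ((L.Ad a : E →L[ℝ] E) x) = f x)
    (fun x _ => mem_univ _) ?_ ?_ ha
  · rw [map_one]; rfl
  · intro z _ g hg
    rw [map_mul, Units.val_mul, L.Ad_exp]
    change f (NormedSpace.exp (L.ad z) ((L.Ad g : E →L[ℝ] E) x)) = f x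
    have h1 := exp_sub_mem (L.ad z) (LinearMap.ker f) (fun y _ => hf z y)
      ((L.Ad g : E →L[ℝ] E) x) (hf z _)
    rw [LinearMap.mem_ker, map_sub, sub_eq_zero] at h1
    rw [h1, hg]

variable {L}

lemma Ops.st_left (O : L.Ops V) (hV : IsFlag V m) (X : L.nn V) : O.st (0, X) = X := by
  refine L.nn_unique hV (ν := fun X => O.st (0, X)) (ν' := fun X => X)
    (O.st_cont.comp (by fun_prop)) continuous_id ?_ (t₀ := 0) O.st_zero X
  intro t
  rw [O.st_exp]
  change L.exp 0 * L.exp t = L.exp t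
  rw [L.exp_zero, one_mul]

include hf in
lemma Ops.f_st (O : L.Ops V) (hV : IsFlag V m) (X Y : L.nn V) :
    f (O.st (X, Y)) = f X + f Y := by
  let P : ℝ → E := fun t => O.st (t • X, Y)
  have hPc : Continuous P := continuous_subtype_val.comp (O.st_cont.comp (by fun_prop))
  have key : ∀ t, HasDerivAt (fun s => f (P s)) (f X) t := by
    intro t
    refine L.exp_diff_f hV f hf P t hPc.continuousAt (O.st (t • X, Y)).2 (fun h => h • (X : E)) (f X)
      (Eventually.of_forall fun h => ?_) ?_ ?_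
    · change L.exp (O.st ((t + h) • X, Y)) = L.exp (h • (X : E)) * L.exp (O.st (t • X, Y))
      rw [O.st_exp, O.st_exp]
      change L.exp ((t + h) • (X : E)) * L.exp Y = L.exp (h • (X : E)) * (L.exp (t • (X : E)) * L.exp Y)
      rw [add_comm t h, L.exp_add]
      group
    · exact IsBigO.of_bound ‖(X : E)‖ (Eventually.of_forall fun h => by
        rw [norm_smul, mul_comm])
    · have : (fun h : ℝ => f (h • (X : E)) - f X * h) = fun _ => 0 := by
        funext h
        rw [map_smul, smul_eq_mul]; ring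
      rw [this]
      exact isLittleO_zero _ _
  have hd : ∀ t : ℝ, HasDerivAt (fun t => f (P t) - t * f X) 0 t := fun t =>
    ((key t).fun_sub ((hasDerivAt_id t).mul_const (f X : ℝ))).congr_deriv (by simp)
  have hconst := is_const_of_deriv_eq_zero (f := fun t => f (P t) - t * f X)
    (fun t => (hd t).differentiableAt) (fun t => (hd t).deriv) 1 0
  simp only [P, one_smul, zero_smul, one_mul, zero_mul, sub_zero] at hconst
  rw [O.st_left hV] at hconst
  linarith

include hf in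
lemma Ops.f_D (O : L.Ops V) (hV : IsFlag V m) (Y : E) (δ : L.nn V) :
    f (O.D (Y, δ)) = f δ := by
  let P : ℝ → E := fun t => O.D (Y, t • δ)
  have hPc : Continuous P := continuous_subtype_val.comp (O.D_cont.comp (by fun_prop))
  have key : ∀ t, HasDerivAt (fun s => f (P s)) (f δ) t := by
    intro t
    obtain ⟨w, hw, hw0, hfw⟩ := L.exp_diff_line f hf (Y + t • (δ : E)) δ
    refine L.exp_diff_f hV f hf P t hPc.continuousAt (O.D (Y, t • δ)).2 w (f δ) ?_ hw0 hfw
    filter_upwards [hw] with h hh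
    change L.exp (O.D (Y, (t + h) • δ)) = L.exp (w h) * L.exp (O.D (Y, t • δ))
    rw [O.D_exp, O.D_exp]
    change L.exp (Y + (t + h) • (δ : E)) * L.exp (-Y) = L.exp (w h) * (L.exp (Y + t • (δ : E)) * L.exp (-Y))
    rw [add_smul, ← add_assoc, hh, mul_assoc]
  have hd : ∀ t : ℝ, HasDerivAt (fun t => f (P t) - t * f δ) 0 t := fun t =>
    ((key t).fun_sub ((hasDerivAt_id t).mul_const (f δ : ℝ))).congr_deriv (by simp)
  have hconst := is_const_of_deriv_eq_zero (f := fun t => f (P t) - t * f δ)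
    (fun t => (hd t).differentiableAt) (fun t => (hd t).deriv) 1 0
  simp only [P, one_smul, zero_smul, one_mul, zero_mul, sub_zero] at hconst
  rw [O.D_right hV] at hconst
  have h0 : f ((0 : L.nn V) : E) = 0 := by rw [Submodule.coe_zero, map_zero]
  linarith

variable {r l : Submodule ℝ E} (D : LData L.adB r l V m)
variable (L)

include D hf in
lemma f_J_r (hgen : L.gen univ = ⊤) (O : L.Ops V) {a : H} (ha : a ∈ L.gen (r : Set E))
    {J : H → L.nn V} (hJ : L.IsJ V a J) (y : H) : f (J y) = 0 := by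
  have hV := L.LD_flag D
  have key : ∃ J, L.IsJ V a J ∧ ∀ y, f (J y) = 0 := by
    refine L.gen_induction (m := (r : Set E)) (P := fun a => ∃ J, L.IsJ V a J ∧ ∀ y, f (J y) = 0)
      (fun x hx => r.neg_mem hx) ⟨_, isJ_one, fun _ => map_zero f⟩ ?_ ha
    rintro x hx g ⟨J, hJ, hJ0⟩
    refine ⟨_, (L.isJ_exp D hgen O hx).mul hgen D.inv O hJ, fun y => ?_⟩
    rw [O.f_st f hf hV, O.f_D f hf hV]
    change f ((L.Ad y : E →L[ℝ] E) x - x) + f ((L.Ad (L.exp x) : E →L[ℝ] E) (J y)) = 0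
    rw [L.f_Ad f hf hgen, map_sub, L.f_Ad f hf hgen, hJ0, sub_self, add_zero]
  obtain ⟨J', hJ', h0⟩ := key
  rw [IsJ.unique L hgen hV hJ hJ' y]
  exact h0 y

end f

section fin
variable {r l : Submodule ℝ E} (D : LData L.adB r l V m)

include D in
/-- The commutator logarithm kills every functional vanishing on brackets. -/
theorem exists_J_f (hgen : L.gen univ = ⊤) (O : L.Ops V) {x : H}
    (hx : ∀ v, (L.Ad x : E →L[ℝ] E) v - v ∈ r) : ∃ J, L.IsJ V x J ∧
      ∀ f : E →ₗ[ℝ] ℝ, (∀ x y, f (L.ad x y) = 0) → ∀ y, f (J y) = 0 := by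
  have hV := L.LD_flag D
  obtain ⟨a, ha, b, hb, rfl⟩ := L.exists_decomp D hgen x
  have hbl : ∀ v ∈ l, (L.Ad b : E →L[ℝ] E) v = v := by
    intro v hv
    have h1 : (L.Ad b : E →L[ℝ] E) v - v ∈ r := by
      have h2 := hx v
      have h3 := L.Ad_r D hgen a⁻¹ h2
      have h4 := L.Ad_sub_of_r D (Subgroup.inv_mem _ ha) v
      have h5 : (L.Ad a⁻¹ : E →L[ℝ] E) ((L.Ad (a * b) : E →L[ℝ] E) v) = (L.Ad b : E →L[ℝ] E) v := by
        have : (L.Ad a⁻¹ * L.Ad (a * b) : (E →L[ℝ] E)ˣ) = L.Ad b := by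
          rw [← map_mul, inv_mul_cancel_left]
        exact congrArg (fun u : (E →L[ℝ] E)ˣ => (u : E →L[ℝ] E) v) this
      rw [map_sub, h5] at h3
      have h6 := r.add_mem h3 h4
      simpa using h6
    have h2 := l.sub_mem (L.Ad_l D hb hv) hv
    exact sub_eq_zero.1 ((Submodule.disjoint_def.1 D.compl.disjoint) _ h1 h2)
  obtain ⟨Ja, hJa⟩ := L.exists_J_r D hgen O ha
  obtain ⟨Jb, hJb, hJb'⟩ := L.exists_J_l D hgen O hb hbl
  refine ⟨_, hJa.mul hgen D.inv O hJb, fun f hf y => ?_⟩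
  rw [O.f_st f hf hV]
  change f (Ja y) + f ((L.Ad a : E →L[ℝ] E) (Jb y)) = 0
  rw [L.f_Ad f hf hgen, L.f_J_r f hf D hgen O ha hJa]
  obtain ⟨a', ha', Ja', hJa', h1⟩ := hJb' y
  rw [h1]
  have h2 := L.f_J_r f hf D hgen O ha' hJa' b
  change 0 + f (-((Ja' b : L.nn V) : E)) = 0
  rw [map_neg, h2]; simp

end fin

/-- Final form of the finite-dimensional commutator theorem. -/
theorem exists_commLog (hgen : L.gen univ = ⊤) {x : H}
    (hx : ∀ I : Submodule ℝ E, IsMaxI (fun x y => L.ad x y) ⊤ I → ∀ v, (L.Ad x : E →L[ℝ] E) v - v ∈ I) :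
    ∃ J : H → E, Continuous J ∧ J 1 = 0 ∧ (∀ y, IsNilpotent (L.ad (J y))) ∧
      (∀ y, L.exp (J y) = y * x * y⁻¹ * x⁻¹) ∧
      ∀ W : Submodule ℝ E, (∀ x y, L.ad x y ∈ W) → ∀ y, J y ∈ W := by
  obtain ⟨r, l, V, m, D⟩ := exists_ldata L.adB L.ad_self L.jacobi
  have hx' : ∀ v, (L.Ad x : E →L[ℝ] E) v - v ∈ r := fun v => D.rad _ fun I hI => hx I hI v
  obtain ⟨O⟩ := L.exists_ops hgen D.inv (L.LD_flag D)
  obtain ⟨J, hJ, hJf⟩ := L.exists_J_f D hgen O hx'
  refine ⟨fun y => J y, continuous_subtype_val.comp hJ.cont, ?_, fun y => L.nn_nilp (L.LD_flag D) (J y).2,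
    hJ.exp, ?_⟩
  · change ((J 1 : L.nn V) : E) = 0
    rw [hJ.one]; rfl
  · intro W hW y
    refine (Subspace.forall_mem_dualAnnihilator_apply_eq_zero_iff _ _).1 fun φ hφ => ?_
    exact hJf φ (fun a b => (Submodule.mem_dualAnnihilator φ).1 hφ _ (hW a b)) y

/-- Naturality of commutator logarithms. -/
theorem commLog_nat {H' : Type*} [Group H'] [TopologicalSpace H'] [IsTopologicalGroup H'] [T2Space H']
    {E' : Type*} [NormedAddCommGroup E'] [NormedSpace ℝ E'] [FiniteDimensional ℝ E'] (L' : LG H' E')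
    (hgen' : L'.gen univ = ⊤) (φ : H' →* H) (hφ : Continuous φ) (d : E' →ₗ[ℝ] E)
    (hd : ∀ x, φ (L'.exp x) = L.exp (d x)) (hds : Function.Surjective d) {x' : H'} {J' : H' → E'}
    {J : H → E} (hJ'c : Continuous J') (hJ'1 : J' 1 = 0) (hJ'n : ∀ y, IsNilpotent (L'.ad (J' y)))
    (hJ'e : ∀ y, L'.exp (J' y) = y * x' * y⁻¹ * x'⁻¹) (hJc : Continuous J) (hJ1 : J 1 = 0)
    (hJn : ∀ y, IsNilpotent (L.ad (J y))) (hJe : ∀ y, L.exp (J y) = y * φ x' * y⁻¹ * (φ x')⁻¹) (y : H') :
    J (φ y) = d (J' y) := by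
  haveI := L'.preconnectedSpace hgen'
  -- the derivative intertwines `ad`
  have hdAd : ∀ a z, d ((L'.Ad a : E' →L[ℝ] E') z) = (L.Ad (φ a) : E →L[ℝ] E) (d z) := by
    intro a z
    refine L.eq_of_forall_exp fun t => ?_
    rw [← map_smul, ← map_smul, ← hd, L'.exp_Ad, map_mul, map_mul, map_inv, hd, ← L.exp_Ad,
      map_smul, map_smul]
  have hdad : ∀ u v, d (L'.ad u v) = L.ad (d u) (d v) := by
    intro u v
    have h1 : ∀ t : ℝ, d (NormedSpace.exp (t • L'.ad u) v) = NormedSpace.exp (t • L.ad (d u)) (d v) := by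
      intro t
      rw [← map_smul, ← L'.Ad_exp, hdAd, hd, L.Ad_exp, map_smul, map_smul]
    have h2 := (LinearMap.toContinuousLinearMap d).hasFDerivAt.comp_hasDerivAt (0 : ℝ)
      (op_hasDerivAt (L'.ad u) v)
    have h3 := op_hasDerivAt (L.ad (d u)) (d v)
    simp only [← h1] at h3
    exact h2.unique h3
  have hnil : ∀ z, IsNilpotent (L'.ad z) → IsNilpotent (L.ad (d z)) := by
    rintro z ⟨k, hk⟩
    refine ⟨k, ?_⟩
    have h1 : ∀ j v, ((L.ad (d z)) ^ j) (d v) = d (((L'.ad z) ^ j) v) := by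
      intro j
      induction j with
      | zero => intro v; rfl
      | succ j ih =>
        intro v
        rw [pow_succ', pow_succ']
        change L.ad (d z) (((L.ad (d z)) ^ j) (d v)) = d (L'.ad z (((L'.ad z) ^ j) v))
        rw [ih, hdad]
    ext w
    obtain ⟨v, rfl⟩ := hds w
    rw [h1, hk]
    simp
  have h := L.lift_unique (T := H') (ν := fun y => J (φ y)) (ν' := fun y => d (J' y)) (hJc.comp hφ)
    ((LinearMap.continuous_of_finiteDimensional d).comp hJ'c) (fun y => hJn _)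
    (fun y => hnil _ (hJ'n y)) (fun y => ?_) (t₀ := 1) ?_
  · exact congrFun h y
  · rw [hJe, ← hd, hJ'e]
    simp
  · simp only [map_one, hJ1, hJ'1, map_zero]

end LG

end Pool.Agent.TH77
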