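import Pool.Agent.TH77.AN.TwoExp
import Pool.Agent.TH77.AN.NilF

/-!
# Two exponentials modulo the radical
-/

set_option linter.unusedSectionVars false
set_option linter.style.haveILetI false

open Filter Topology Metric Set

namespace Pool.Agent.TH77
open Pool.Agent.TH77.AN

/-- A chain of ideals with solvable behaviour lies in every maximal ideal with nonabelian quotient. -/
lemma chain_le_maxI {E : Type*} [AddCommGroup E] [Module ℝ E] {β : E →ₗ[ℝ] E →ₗ[ℝ] E}
    (halt : ∀ x, β x x = 0) {I : Submodule ℝ E} (hI : IsMaxI (fun x y => β x y) ⊤ I)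
    {D : ℕ → Submodule ℝ E} (hid : ∀ k, ∀ x : E, ∀ y ∈ D k, β x y ∈ D k)
    (hcom : ∀ k, ∀ x ∈ D k, ∀ y ∈ D k, β x y ∈ D (k + 1)) {m : ℕ} (hm : D m = ⊥) : D 0 ≤ I := by
  have hanti : ∀ x y, β x y = - β y x := by
    intro x y
    have h := halt (x + y)
    have h2 : β (x + y) (x + y) = β x x + β x y + (β y x + β y y) := by
      simp only [map_add, LinearMap.add_apply]
      abel
    rw [h2, halt, halt, zero_add, add_zero] at h
    exact eq_neg_of_add_eq_zero_left h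
  have hidl : ∀ k, ∀ x ∈ (⊤ : Submodule ℝ E), ∀ y ∈ D k ⊔ I, β x y ∈ D k ⊔ I := by
    intro k x _ y hy
    obtain ⟨u, hu, v, hv, rfl⟩ := Submodule.mem_sup.1 hy
    rw [map_add]
    exact Submodule.add_mem_sup (hid k x u hu) (hI.ideal x trivial v hv)
  rcases hI.max (D 0 ⊔ I) le_top (hidl 0) le_sup_right with h0 | h0
  · rw [← h0]; exact le_sup_left
  · exfalso
    have key : ∀ k, D k ⊔ I = ⊤ := by
      intro k
      induction k with
      | zero => exact h0
      | succ k ih =>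
        rcases hI.max (D (k + 1) ⊔ I) le_top (hidl (k + 1)) le_sup_right with h1 | h1
        · exfalso
          obtain ⟨x, -, y, -, hxy⟩ := hI.perf
          have hx : x ∈ D k ⊔ I := by rw [ih]; trivial
          have hy : y ∈ D k ⊔ I := by rw [ih]; trivial
          obtain ⟨u, hu, v, hv, rfl⟩ := Submodule.mem_sup.1 hx
          obtain ⟨u', hu', v', hv', rfl⟩ := Submodule.mem_sup.1 hy
          apply hxy
          have hle : D (k + 1) ≤ I := by rw [← h1]; exact le_sup_left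
          have e1 : β (u + v) (u' + v') = β u u' + β u v' + (-(β (u' + v') v)) := by
            rw [← hanti v (u' + v')]
            simp only [map_add, LinearMap.add_apply]
            abel
          change β (u + v) (u' + v') ∈ I
          rw [e1]
          exact I.add_mem (I.add_mem (hle (hcom k u hu u' hu')) (hI.ideal u trivial v' hv'))
            (I.neg_mem (hI.ideal _ trivial v hv))
        · exact h1
    have h2 := key m
    rw [hm, bot_sup_eq] at h2
    obtain ⟨x, -, y, -, hxy⟩ := hI.perf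
    exact hxy (by rw [h2]; trivial)

namespace LG

variable {H : Type*} [Group H] [TopologicalSpace H] [IsTopologicalGroup H] [T2Space H]
  {E : Type*} [NormedAddCommGroup E] [NormedSpace ℝ E] [FiniteDimensional ℝ E] (L : LG H E)

theorem exists_two (hgen : L.gen univ = ⊤) (a : H) : ∃ X Y : E, ∀ I : Submodule ℝ E,
    IsMaxI (fun x y => L.ad x y) ⊤ I → ∀ Z, (L.Ad a : E →L[ℝ] E) Z -
      (L.Ad (L.exp X) : E →L[ℝ] E) ((L.Ad (L.exp Y) : E →L[ℝ] E) Z) ∈ I := by
  haveI : CompleteSpace E := FiniteDimensional.complete ℝ E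
  obtain ⟨n, q, ν, hq, hL, hS, hqν, D, hD0, -, hDi, hDc, m, hm⟩ := exists_quot' L.adB L.ad_self L.jacobi
  obtain ⟨s₀, hs₀⟩ := q.exists_rightInverse_of_surjective (LinearMap.range_eq_top.2 hq)
  let V := EuclideanSpace ℝ (Fin n)
  let qc : E →L[ℝ] V := LinearMap.toContinuousLinearMap q
  let sc : V →L[ℝ] E := LinearMap.toContinuousLinearMap s₀
  have hs : ∀ v, qc (sc v) = v := fun v => LinearMap.congr_fun hs₀ v
  have hqν' : ∀ x y, ν (qc x) (qc y) = qc (L.ad x y) := hqν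
  have hker : ∀ x, ∀ y ∈ LinearMap.ker q, L.ad x y ∈ LinearMap.ker q := by
    intro x y hy
    rw [LinearMap.mem_ker] at hy ⊢
    have := hqν x y
    rw [hy, map_zero] at this
    exact this.symm
  have hinv : ∀ (a : H) (x : E), qc x = 0 → qc ((L.Ad a : E →L[ℝ] E) x) = 0 := by
    intro a x hx
    have := L.Ad_mem hgen (LinearMap.ker q) hker a x (LinearMap.mem_ker.2 hx)
    exact LinearMap.mem_ker.1 this
  set A := L.AdS qc sc hs hinv with hA
  have hAexp : ∀ x, A (L.exp x) = expU (ν (qc x)) := L.AdS_exp qc sc hs hinv ν hqν'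
  have hAq : ∀ a x, ((A a : (V →L[ℝ] V)ˣ) : V →L[ℝ] V) (qc x) = qc ((L.Ad a : E →L[ℝ] E) x) :=
    L.AdS_q qc sc hs hinv
  have hgenA : A a ∈ (LG.units (V →L[ℝ] V)).gen (range ν) := by
    have ha : a ∈ L.gen univ := by rw [hgen]; trivial
    refine L.gen_induction (m := univ) (P := fun a => A a ∈ (LG.units (V →L[ℝ] V)).gen (range ν))
      (fun x _ => mem_univ _) ?_ ?_ ha
    · rw [map_one]; exact Subgroup.one_mem _
    · intro x _ g hg
      rw [map_mul, hAexp]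
      exact Subgroup.mul_mem _ ((LG.units (V →L[ℝ] V)).exp_mem_gen ⟨_, rfl⟩) hg
  obtain ⟨X', Y', hXY⟩ := two_exp hL hS hgenA
  obtain ⟨X, rfl⟩ : ∃ x', qc x' = X' := ⟨sc X', hs X'⟩
  obtain ⟨Y, rfl⟩ : ∃ x', qc x' = Y' := ⟨sc Y', hs Y'⟩
  refine ⟨X, Y, fun I hI Z => ?_⟩
  have hDI : D 0 ≤ I := chain_le_maxI (β := L.adB) L.ad_self hI hDi hDc hm
  refine hDI ?_
  rw [hD0, LinearMap.mem_ker, map_sub, sub_eq_zero]
  change qc _ = qc _
  rw [← hAq, ← hAq, ← hAq, hXY, hAexp, hAexp]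
  rfl

/-- Change of exponents modulo an invariant subspace. -/
lemma Ad_exp_congr {I : Submodule ℝ E} (hI : ∀ x, ∀ y ∈ I, L.ad x y ∈ I) {X c : E} (h : X - c ∈ I)
    (Z : E) : (L.Ad (L.exp X) : E →L[ℝ] E) Z - (L.Ad (L.exp c) : E →L[ℝ] E) Z ∈ I := by
  rw [L.Ad_exp, L.Ad_exp]
  have e : L.ad X = L.ad c + L.ad (X - c) := by rw [← map_add, add_sub_cancel]
  rw [e]
  refine exp_sub_exp_mem (L.ad c) (L.ad (X - c)) ⊤ I (fun _ _ => trivial) (hI c) (fun v _ => ?_)
    le_top trivial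
  rw [L.ad_anti]
  exact I.neg_mem (hI v _ h)

/-- Dividing by two exponentials. -/
theorem div_two (hgen : L.gen univ = ⊤) {a : H} {I : Submodule ℝ E} (hI : ∀ x, ∀ y ∈ I, L.ad x y ∈ I)
    {c c' X Y : E} (hX : X - c ∈ I) (hY : Y - c' ∈ I)
    (h : ∀ Z, (L.Ad a : E →L[ℝ] E) Z -
      (L.Ad (L.exp c) : E →L[ℝ] E) ((L.Ad (L.exp c') : E →L[ℝ] E) Z) ∈ I) (Z : E) :
    (L.Ad (a * (L.exp X * L.exp Y)⁻¹) : E →L[ℝ] E) Z - Z ∈ I := by
  set W := (L.Ad (L.exp X * L.exp Y)⁻¹ : E →L[ℝ] E) Z with hW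
  have e1 : (L.Ad (a * (L.exp X * L.exp Y)⁻¹) : E →L[ℝ] E) Z = (L.Ad a : E →L[ℝ] E) W := by
    rw [map_mul]; rfl
  have e2 : (L.Ad (L.exp X) : E →L[ℝ] E) ((L.Ad (L.exp Y) : E →L[ℝ] E) W) = Z := by
    have : (L.Ad (L.exp X) * (L.Ad (L.exp Y) * L.Ad (L.exp X * L.exp Y)⁻¹) : (E →L[ℝ] E)ˣ) = 1 := by
      rw [← map_mul, ← map_mul]
      have : L.exp X * (L.exp Y * (L.exp X * L.exp Y)⁻¹) = 1 := by group
      rw [this, map_one]
    exact congrArg (fun u : (E →L[ℝ] E)ˣ => (u : E →L[ℝ] E) Z) this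
  rw [e1]
  have h1 := h W
  have h2 := L.Ad_exp_congr hI hX ((L.Ad (L.exp Y) : E →L[ℝ] E) W)
  have h3 := L.Ad_mem hgen I hI (L.exp c) _ (L.Ad_exp_congr hI hY W)
  rw [map_sub] at h3
  rw [e2] at h2
  have h4 := I.sub_mem (I.sub_mem h1 h3) h2
  convert h4 using 1
  abel

end LG

end Pool.Agent.TH77
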