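import Pool.Agent.TH77.AN.CompExp
import Pool.Agent.TH77.StarB

/-!
# Adjoint groups of semisimple algebras: every element is a product of two exponentials
-/

open Filter Topology Metric Set
open scoped RealInnerProductSpace

namespace Pool.Agent.TH77.AN

open Pool.Agent.TH77.Br

section aut
variable {V : Type*} [NormedAddCommGroup V] [NormedSpace ℝ V] [FiniteDimensional ℝ V]
  (ν : V →L[ℝ] V →L[ℝ] V)

/-- The automorphism group of a bracket. -/
def AutG : Subgroup (V →L[ℝ] V)ˣ where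
  carrier := {G | act G ν = ν}
  mul_mem' := by
    intro a b ha hb
    change act (a * b) ν = ν
    rw [act_mul, hb, ha]
  one_mem' := act_one ν
  inv_mem' := by
    intro a ha
    change act a⁻¹ ν = ν
    conv_lhs => rw [← ha]
    exact act_inv_act a ν

lemma mem_AutG {G : (V →L[ℝ] V)ˣ} : G ∈ AutG ν ↔ act G ν = ν := Iff.rfl

lemma isClosed_AutG : IsClosed (AutG ν : Set (V →L[ℝ] V)ˣ) := by
  have : (AutG ν : Set (V →L[ℝ] V)ˣ) = ⋂ x : V, ⋂ y : V, {G : (V →L[ℝ] V)ˣ |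
      (G : V →L[ℝ] V) (ν x y) = ν ((G : V →L[ℝ] V) x) ((G : V →L[ℝ] V) y)} := by
    ext G
    simp only [mem_iInter, mem_ofPred_eq]
    exact act_eq_self_iff G ν
  rw [this]
  have hv : Continuous fun G : (V →L[ℝ] V)ˣ => (G : V →L[ℝ] V) := Units.continuous_val
  refine isClosed_iInter fun x => isClosed_iInter fun y => isClosed_eq ?_ ?_
  · fun_prop
  · exact (ν.continuous.comp (hv.clm_apply continuous_const)).clm_apply (hv.clm_apply continuous_const)

variable {ν}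

lemma der_of_exp {D : V →L[ℝ] V} (hD : ∀ t : ℝ, expU (t • D) ∈ AutG ν) : IsDer ν D := by
  intro x y
  have h1 : ∀ t : ℝ, NormedSpace.exp (t • D) (ν x y) =
      ν (NormedSpace.exp (t • D) x) (NormedSpace.exp (t • D) y) := by
    intro t
    exact (act_eq_self_iff _ ν).1 (hD t) x y
  have h2 := LG.op_hasDerivAt D (ν x y)
  have hx := LG.op_hasDerivAt D x
  have hy := LG.op_hasDerivAt D y
  have h3 : HasDerivAt (fun t : ℝ => ν (NormedSpace.exp (t • D) x) (NormedSpace.exp (t • D) y))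
      (ν (D x) y + ν x (D y)) 0 := by
    have h4 := (ν.hasFDerivAt.comp_hasDerivAt (0:ℝ) hx).clm_apply hy
    simpa [NormedSpace.exp_zero] using h4
  simp only [← h1] at h3
  exact h2.unique h3

lemma op_hasDerivAt' (A : V →L[ℝ] V) (v : V) (t : ℝ) :
    HasDerivAt (fun t : ℝ => NormedSpace.exp (t • A) v) (A (NormedSpace.exp (t • A) v)) t := by
  have h1 : HasDerivAt (fun t : ℝ => NormedSpace.exp (t • A)) (A * NormedSpace.exp (t • A)) t :=
    hasDerivAt_exp_smul_const' A t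
  exact h1.clm_apply (hasDerivAt_const t v) |>.congr_deriv (by simp)

lemma aut_exp {D : V →L[ℝ] V} (hD : IsDer ν D) : expU D ∈ AutG ν := by
  rw [mem_AutG, act_eq_self_iff]
  intro x y
  have key : ∀ t : ℝ, HasDerivAt (fun t : ℝ => NormedSpace.exp (t • (-D))
      (ν (NormedSpace.exp (t • D) x) (NormedSpace.exp (t • D) y))) 0 t := by
    intro t
    have h1 : HasDerivAt (fun t : ℝ => NormedSpace.exp (t • (-D)))
      (NormedSpace.exp (t • (-D)) * (-D)) t := hasDerivAt_exp_smul_const (-D) t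
    have h2 : HasDerivAt (fun t : ℝ => ν (NormedSpace.exp (t • D) x) (NormedSpace.exp (t • D) y))
        (ν (D (NormedSpace.exp (t • D) x)) (NormedSpace.exp (t • D) y) +
          ν (NormedSpace.exp (t • D) x) (D (NormedSpace.exp (t • D) y))) t :=
      (ν.hasFDerivAt.comp_hasDerivAt t (op_hasDerivAt' D x t)).clm_apply (op_hasDerivAt' D y t)
    refine (h1.clm_apply h2).congr_deriv ?_
    rw [← hD]
    simp
  have hc := is_const_of_deriv_eq_zero (f := fun t : ℝ => NormedSpace.exp (t • (-D))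
      (ν (NormedSpace.exp (t • D) x) (NormedSpace.exp (t • D) y)))
      (fun t => (key t).differentiableAt) (fun t => (key t).deriv) 1 0
  simp only [one_smul, zero_smul, NormedSpace.exp_zero] at hc
  change NormedSpace.exp (-D) (ν (NormedSpace.exp D x) (NormedSpace.exp D y)) = ν x y at hc
  change NormedSpace.exp D (ν x y) = ν (NormedSpace.exp D x) (NormedSpace.exp D y)
  rw [← hc]
  have h3 : NormedSpace.exp D * NormedSpace.exp (-D) = 1 := by
    rw [← expR_add (Commute.neg_right (Commute.refl D)), add_neg_cancel, NormedSpace.exp_zero]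
  exact congrArg (fun A : V →L[ℝ] V => A (ν (NormedSpace.exp D x) (NormedSpace.exp D y))) h3

end aut

variable {V : Type*} [NormedAddCommGroup V] [InnerProductSpace ℝ V] [FiniteDimensional ℝ V]

lemma slog_one : slog (1 : (V →L[ℝ] V)ˣ) = 0 := slog_orth (fun _ => rfl)

lemma exists_path {ν : V →L[ℝ] V →L[ℝ] V} (hL : IsLie ν) {α : (V →L[ℝ] V)ˣ}
    (hα : α ∈ (LG.units (V →L[ℝ] V)).gen (range ν)) :
    ∃ c : ℝ → (V →L[ℝ] V)ˣ, Continuous c ∧ c 0 = 1 ∧ c 1 = α ∧ ∀ t, c t ∈ AutG ν := by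
  refine (LG.units (V →L[ℝ] V)).gen_induction (m := range ν) (P := fun α =>
    ∃ c : ℝ → (V →L[ℝ] V)ˣ, Continuous c ∧ c 0 = 1 ∧ c 1 = α ∧ ∀ t, c t ∈ AutG ν) ?_ ?_ ?_ hα
  · rintro _ ⟨x, rfl⟩
    exact ⟨-x, map_neg _ _⟩
  · exact ⟨fun _ => 1, continuous_const, rfl, rfl, fun _ => (AutG ν).one_mem⟩
  · rintro _ ⟨x, rfl⟩ g ⟨c, hc, h0, h1, hA⟩
    refine ⟨fun t => expU (t • ν x) * c t, ?_, ?_, ?_, ?_⟩
    · exact ((LG.units (V →L[ℝ] V)).cont.comp (by fun_prop)).mul hc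
    · simp only [zero_smul, h0, mul_one]
      exact (LG.units (V →L[ℝ] V)).exp_zero
    · simp only [one_smul, h1]; rfl
    · intro t
      refine (AutG ν).mul_mem ?_ (hA t)
      rw [← map_smul]
      exact aut_exp (isDer_ad hL _)

/-- Two exponentials, for a minimal bracket. -/
lemma two_exp_min {w : V →L[ℝ] V →L[ℝ] V} (hL : IsLie w) (hS : Sep w)
    (hg : ∀ h : (V →L[ℝ] V)ˣ, dt (h : V →L[ℝ] V) ^ 2 = 1 →
      hs (stdOrthonormalBasis ℝ V) w ≤ hs (stdOrthonormalBasis ℝ V) (act h w))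
    {α : (V →L[ℝ] V)ˣ} (hα : α ∈ (LG.units (V →L[ℝ] V)).gen (range w)) :
    ∃ X Y, α = expU (w X) * expU (w Y) := by
  set u := stdOrthonormalBasis ℝ V
  have hkd : kd u w ≠ 0 := (sep_iff u w).1 hS
  have hder : ∀ G ∈ AutG w, IsDer w (slog G) := by
    intro G hG
    refine aut_der u w hg G hG ?_
    have := kd_act u w G
    rw [(mem_AutG w).1 hG] at this
    exact mul_left_cancel₀ hkd (by rw [this, mul_one])
  obtain ⟨c, hc, hc0, hc1, hcA⟩ := exists_path hL hα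
  have hMc : IsClosed ((orthG V ⊓ AutG w : Subgroup (V →L[ℝ] V)ˣ) : Set (V →L[ℝ] V)ˣ) :=
    isCompact_orthG.isClosed.inter (isClosed_AutG w)
  have hk := (LG.units (V →L[ℝ] V)).path_mem_gen (orthG V ⊓ AutG w) hMc
    (c := fun t : ℝ => (expU (slog (c t)))⁻¹ * c t) ?_ ?_ (x₀ := 0) ?_ 1
  · obtain ⟨Z, hZ, hZe⟩ := compact_exp hMc inf_le_left hk
    have hZd : IsDer w Z := der_of_exp fun t => (hZ t).2
    obtain ⟨Y, rfl⟩ := inner_der hL hS hZd
    obtain ⟨X, hX⟩ := inner_der hL hS (hder _ (hcA 1))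
    refine ⟨X, Y, ?_⟩
    rw [hZe, ← hX, mul_inv_cancel_left, hc1]
  · exact (((LG.units (V →L[ℝ] V)).cont.comp (continuous_slog.comp hc)).inv).mul hc
  · intro t
    refine ⟨polar_orth _, (AutG w).mul_mem ((AutG w).inv_mem (aut_exp (hder _ (hcA t)))) (hcA t)⟩
  · simp only [hc0, slog_one, mul_one]
    rw [inv_eq_one]
    exact (LG.units (V →L[ℝ] V)).exp_zero

lemma expU_conj (g : (V →L[ℝ] V)ˣ) (A : V →L[ℝ] V) :
    expU ((g : V →L[ℝ] V) * A * ((g⁻¹ : (V →L[ℝ] V)ˣ) : V →L[ℝ] V)) = g * expU A * g⁻¹ := by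
  ext1
  change NormedSpace.exp _ = (g : V →L[ℝ] V) * NormedSpace.exp A * ((g⁻¹ : (V →L[ℝ] V)ˣ) : V →L[ℝ] V)
  letI : NormedAlgebra ℚ (V →L[ℝ] V) := NormedAlgebra.restrictScalars ℚ ℝ (V →L[ℝ] V)
  exact NormedSpace.exp_units_conj g A

/-- In the adjoint group of a semisimple algebra every element is a product of two exponentials. -/
theorem two_exp {ν : V →L[ℝ] V →L[ℝ] V} (hL : IsLie ν) (hS : Sep ν)
    {α : (V →L[ℝ] V)ˣ} (hα : α ∈ (LG.units (V →L[ℝ] V)).gen (range ν)) :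
    ∃ X Y, α = expU (ν X) * expU (ν Y) := by
  obtain ⟨g, hg⟩ := exists_minimal hL hS (stdOrthonormalBasis ℝ V)
  have hact : ∀ x, g * expU (ν x) * g⁻¹ = expU (act g ν ((g : V →L[ℝ] V) x)) := by
    intro x
    rw [← expU_conj, act_ad, inv_val_apply]
  have h1 : g * α * g⁻¹ ∈ (LG.units (V →L[ℝ] V)).gen (range (act g ν)) := by
    have h2 : α ∈ ((LG.units (V →L[ℝ] V)).gen (range (act g ν))).comap (MulAut.conj g).toMonoidHom := by
      refine (LG.units (V →L[ℝ] V)).gen_le ?_ hα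
      rintro _ ⟨x, rfl⟩
      rw [Subgroup.mem_comap]
      change g * expU (ν x) * g⁻¹ ∈ _
      rw [hact]
      exact (LG.units (V →L[ℝ] V)).exp_mem_gen ⟨_, rfl⟩
    exact h2
  obtain ⟨X, Y, hXY⟩ := two_exp_min (hL.act g) (hS.act g) hg h1
  refine ⟨((g⁻¹ : (V →L[ℝ] V)ˣ) : V →L[ℝ] V) X, ((g⁻¹ : (V →L[ℝ] V)ˣ) : V →L[ℝ] V) Y, ?_⟩
  have hX := hact (((g⁻¹ : (V →L[ℝ] V)ˣ) : V →L[ℝ] V) X)
  have hY := hact (((g⁻¹ : (V →L[ℝ] V)ˣ) : V →L[ℝ] V) Y)
  rw [val_inv_apply] at hX hY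
  rw [← hX, ← hY] at hXY
  have h3 : α = g⁻¹ * (g * α * g⁻¹) * g := by group
  rw [h3, hXY]
  group

end Pool.Agent.TH77.AN
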